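import Pool.Agent.Lib.HD.BlueA
import Pool.Agent.Lib.TPC.B_BK

/-! The van den Berg-Kesten inequality, transferred from the model on finite sets. -/

open Finset Classical

namespace Pool.Agent.HD

open Pool.Agent.Lib.MP_81a99a_pr

namespace BK2

lemma Ex_eq_PE {ι : Type} [Fintype ι] (p : ℝ) (P : Set ι → Prop) :
    Ex p (fun ω => ind (P ω)) =
      TPC.PE univ (fun _ => p) fun ω : Finset ι => TPC.ind (P (ω : Set ι)) := by
  unfold Ex TPC.PE
  rw [powerset_univ]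
  refine (Fintype.sum_equiv Fintype.finsetEquivSet _ _ fun ω => ?_).symm
  rw [Fintype.finsetEquivSet_apply]
  congr 1
  unfold wt TPC.wt
  refine prod_congr rfl fun e _ => ?_
  by_cases h : e ∈ ω <;> simp [h]

end BK2

theorem st_bk2 : St_BK2 := by
  intro ι _ p h0 h1 P Q hP hQ
  rw [BK2.Ex_eq_PE, BK2.Ex_eq_PE, BK2.Ex_eq_PE]
  refine le_trans (TPC.PE_ind_mono (TPC.Prob.const h0 h1) fun ω h => ?_)
    (TPC.st_BK2 ι univ (fun _ => p) (TPC.Prob.const h0 h1) (fun ω => P ω) (fun ω => Q ω)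
      (fun a b hab => hP _ _ (coe_subset.2 hab)) fun a b hab => hQ _ _ (coe_subset.2 hab))
  obtain ⟨K, hK, h2, h3⟩ := h
  refine ⟨ω.filter (· ∈ K), ω.filter (· ∉ K), filter_subset _ _, filter_subset _ _,
    disjoint_filter_filter_not _ _ _, hP _ _ (fun x hx => ?_) h2, hQ _ _ (fun x hx => ?_) h3⟩
  · exact mem_coe.2 (mem_filter.2 ⟨hK hx, hx⟩)
  · exact mem_coe.2 (mem_filter.2 ⟨hx.1, hx.2⟩)

end Pool.Agent.HD
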