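import Pool.Agent.Lib.HD.LBasic

/-! The cutting bond lemma, one step of the expansion, and the iteration. -/

open Finset Classical

set_option linter.unusedSectionVars false

namespace Pool.Agent.HD

open Pool.Agent.Lib.MP_81a99a_pr

namespace CUT

variable {V : Type} [Fintype V] {G : SimpleGraph V} {ω : Set (Sym2 V)}

lemma off_iff {v x y : V} :
    Off G ω (cl G ω {v}) x y ↔ ¬ Con G ω v x ∧ Con G ω x y := by
  constructor
  · exact fun h => ⟨fun h1 => h.1 (con_iff_cl.1 h1), h.con⟩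
  · rintro ⟨h1, h2⟩
    refine h2.induct (P := fun y => Off G ω (cl G ω {v}) x y)
      ⟨fun h => h1 (con_iff_cl.2 h), Con.refl _ _ _⟩ fun a b ha ho hab he => ?_
    exact ho.step hab he fun hb => h1 ((con_iff_cl.2 hb).trans (ha.step hab he).symm)

lemma dep_off (G : SimpleGraph V) (C : Finset V) (b x : V) :
    DepOn (fun ω => ind (Off G ω C b x)) (touch G C : Set (Sym2 V))ᶜ := by
  intro ω ω' h
  have := dep_cl_res G C {b} (fun S => ind (x ∈ S)) (U := (touch G C : Set (Sym2 V))ᶜ)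
    (fun a c _ ha hc => not_mem_touch ha hc) ω ω' h
  simp only [Off, ind_and, con_iff_cl, this]

end CUT

open CUT

theorem st_cut (h1 : St_DEAD) (h2 : St_LOC) : St_CUT := by
  intro V _ G p A v x a b hab
  let m : Set (Sym2 V) → Set (Sym2 V) := fun ω => ω \ {s(a, b)}
  let F : Finset V × Prop → Set (Sym2 V) → ℝ := fun c ω => ind c.2 * ind (Off G ω c.1 b x)
  let T : Set (Sym2 V) → Finset V × Prop := fun ω => (cl G (m ω) {v}, EE G (m ω) A v a)
  have e1 : ∀ ω, ind (Piv G ω v x a b ∧ EE G ω A v a) =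
      (if s(a, b) ∈ ω then 1 else 0) * F (T ω) (m ω) := by
    intro ω
    show _ = ind (s(a, b) ∈ ω) * (ind (EE G (m ω) A v a) * ind (Off G (m ω) (cl G (m ω) {v}) b x))
    rw [← ind_and, ← ind_and, off_iff]
    refine ind_congr ⟨fun h => ⟨h.1.2.1, (h1 V G ω A v a b h.1.not_con).1 h.2, h.1.not_con,
      h.1.2.2.2.1⟩, fun h => ⟨⟨hab, h.1, h.2.1.1.1, h.2.2.2, fun h3 => h.2.2.1
        (h3.trans h.2.2.2.symm)⟩, (h1 V G ω A v a b h.2.2.1).2 h.2.1⟩⟩
  have hm : ∀ ω ω' : Set (Sym2 V), (∀ e ∈ ({s(a, b)} : Set (Sym2 V))ᶜ, (e ∈ ω ↔ e ∈ ω')) →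
      m ω = m ω' := fun ω ω' h => Set.ext fun e =>
    ⟨fun he => ⟨(h e he.2).1 he.1, he.2⟩, fun he => ⟨(h e he.2).2 he.1, he.2⟩⟩
  have e2 : ∀ ω, F (T ω) (m ω) = F (T ω) ω := by
    intro ω
    show ind (EE G (m ω) A v a) * _ = ind (EE G (m ω) A v a) * _
    by_cases hE : EE G (m ω) A v a
    · congr 1
      refine dep_off G _ b x _ _ fun e he => ⟨fun h => h.1, fun h => ⟨h, fun h3 => he ?_⟩⟩
      rw [Set.mem_singleton_iff.1 h3]
      exact mk_mem_touch (con_iff_cl.1 hE.1.1) hab
    · rw [ind_neg hE, zero_mul, zero_mul]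
  have hT : ∀ c : Finset V × Prop,
      DepOn (fun ω => ind (T ω = c)) (touch G c.1 : Set (Sym2 V)) := by
    have key : ∀ (c : Finset V × Prop) (ω ω' : Set (Sym2 V)),
        (∀ e ∈ (touch G c.1 : Set (Sym2 V)), (e ∈ ω ↔ e ∈ ω')) → T ω = c → T ω' = c := by
      intro c ω ω' h h3
      have h4 : cl G (m ω) {v} = c.1 := congrArg Prod.fst h3
      have h5 : ∀ e ∈ touch G (cl G (m ω) {v}), (e ∈ m ω ↔ e ∈ m ω') := fun e he =>
        and_congr (h e (by rw [← h4]; exact he)) Iff.rfl
      have h6 := cl_congr h5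
      rw [← h3]
      refine Prod.ext h6 (propext ⟨h2 V G _ _ A v a fun e he => ?_, h2 V G _ _ A v a h5⟩)
      exact (h5 e (by rw [← h6]; exact he)).symm
    intro c ω ω' h
    exact ind_congr ⟨key c ω ω' h, key c ω' ω fun e he => (h e he).symm⟩
  have hF : ∀ c : Finset V × Prop, DepOn (F c) (touch G c.1 : Set (Sym2 V))ᶜ :=
    fun c ω ω' h => congrArg (ind c.2 * ·) (dep_off G c.1 b x ω ω' h)
  rw [Ex_congr e1, Ex_coord_mul p 1 0 s(a, b) (f := fun ω => F (T ω) (m ω))
    (fun ω ω' h => by simp only [T, hm ω ω' h]), Ex_congr e2,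
    Ex_cond p T (fun c => (touch G c.1 : Set (Sym2 V))) hT F hF]
  rw [mul_one, mul_zero, add_zero]
  congr 1
  refine Ex_congr fun ω => ?_
  show Ex p (fun ω' => ind (EE G (m ω) A v a) * ind (Off G ω' (cl G (m ω) {v}) b x)) = _
  rw [Ex_mul_left]
  by_cases hb : Con G (m ω) v b
  · have : ∀ ω', ind (Off G ω' (cl G (m ω) {v}) b x) = 0 := fun ω' =>
      ind_neg fun h => h.1 (con_iff_cl.1 hb)
    simp only [m] at this
    simp only [m, this, Ex_const, mul_zero]
  · rw [ind_congr (h1 V G ω A v a b hb)]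

theorem st_one (h1 : St_PART) (h2 : St_CUT) : St_ONE := by
  intro V _ G p x v A
  unfold phA KL
  rw [Ex_congr fun ω => h1 V G ω A v x, Ex_add, Ex_sum]
  congr 1
  refine Finset.sum_congr rfl fun a _ => ?_
  rw [Ex_sum]
  refine Finset.sum_congr rfl fun b _ => ?_
  by_cases hab : G.Adj a b
  · rw [h2 V G p A v x a b hab, ind_pos hab, one_mul]
    congr 1
    refine Ex_congr fun ω => ?_
    congr 1
    beta_reduce
    rw [tau_eq_con, ← Ex_sub]
    refine Ex_congr fun ω' => ?_
    by_cases ho : Off G ω' (cl G (ω \ {s(a, b)}) {v}) b x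
    · rw [ind_pos ho, ind_pos ho.con, ind_neg (fun h : Thru _ _ _ _ _ => h.2 ho), sub_zero]
    · rw [ind_neg ho, ind_congr (show Thru G ω' _ b x ↔ Con G ω' b x from
        ⟨fun h => h.1, fun h => ⟨h, ho⟩⟩), sub_self]
  · rw [ind_neg hab, zero_mul, zero_mul,
      Ex_congr fun ω => ind_neg fun h : Piv G ω v x a b ∧ EE G ω A v a => hab h.1.1, Ex_const]

namespace ITER

variable {V : Type} [Fintype V] {G : SimpleGraph V} {p : ℝ} {f g : V → Finset V → ℝ}

lemma KL_lin (c : ℝ) (f g : V → Finset V → ℝ) :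
    KL G p (fun b C => c * f b C + g b C) = fun v A => c * KL G p f v A + KL G p g v A := by
  funext v A
  simp only [KL, Finset.mul_sum, ← Finset.sum_add_distrib]
  refine Finset.sum_congr rfl fun a _ => Finset.sum_congr rfl fun b _ => ?_
  have : ∀ ω, ind (EE G ω A v a) * (c * f b (cl G (ω \ {s(a, b)}) {v}) +
      g b (cl G (ω \ {s(a, b)}) {v})) = c * (ind (EE G ω A v a) * f b (cl G (ω \ {s(a, b)}) {v})) +
      ind (EE G ω A v a) * g b (cl G (ω \ {s(a, b)}) {v}) := fun ω => by ring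
  rw [Ex_congr this, Ex_add, Ex_mul_left]
  ring

lemma iter_lin (N : ℕ) (c : ℝ) (f g : V → Finset V → ℝ) :
    (KL G p)^[N] (fun b C => c * f b C + g b C) =
      fun v A => c * (KL G p)^[N] f v A + (KL G p)^[N] g v A := by
  induction N with
  | zero => rfl
  | succ N ih => simp only [Function.iterate_succ_apply', ih, KL_lin]

lemma iter_zero (N : ℕ) : (KL G p)^[N] (fun _ _ => 0) = fun _ _ => 0 := by
  induction N with
  | zero => rfl
  | succ N ih =>
    rw [Function.iterate_succ_apply', ih]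
    funext v A
    simp [KL, Ex_const]

lemma iter_sum (N : ℕ) (s : Finset V) (c : V → ℝ) (f : V → V → Finset V → ℝ) :
    (KL G p)^[N] (fun b C => ∑ a ∈ s, c a * f a b C) =
      fun v A => ∑ a ∈ s, c a * (KL G p)^[N] (f a) v A := by
  induction s using Finset.induction_on with
  | empty => simpa using iter_zero N
  | insert a s ha ih => simp only [Finset.sum_insert ha, iter_lin, ih]

lemma iter_nonneg (h0 : 0 ≤ p) (h1 : p ≤ 1) (hf : ∀ b C, 0 ≤ f b C) (N : ℕ) (v : V)
    (A : Finset V) : 0 ≤ (KL G p)^[N] f v A := by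
  induction N generalizing v A with
  | zero => exact hf v A
  | succ N ih =>
    rw [Function.iterate_succ_apply']
    exact Finset.sum_nonneg fun a _ => Finset.sum_nonneg fun b _ => mul_nonneg
      (mul_nonneg (ind_nonneg _) h0) (Ex_nonneg h0 h1 fun ω => mul_nonneg (ind_nonneg _) (ih _ _))

lemma KL_tau (x : V) : KL G p (fun b _ => tau G p b x) =
    fun v A => ∑ a, sig G p a x * eeA G p a v A := by
  funext v A
  refine Finset.sum_congr rfl fun a _ => ?_
  rw [sig, Finset.sum_mul]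
  refine Finset.sum_congr rfl fun b _ => ?_
  rw [Ex_mul_right, eeA]
  ring

end ITER

open ITER

theorem st_iter (h : St_ONE) : St_ITER := by
  intro V _ G p h0 h1 o x
  have he : ∀ y b C, 0 ≤ eeA G p y b C := fun y b C => Ex_nonneg h0 h1 fun _ => ind_nonneg _
  have hp : ∀ b C, 0 ≤ phA G p x b C := fun b C => Ex_nonneg h0 h1 fun _ => ind_nonneg _
  let R : ℕ → ℝ := fun n => (KL G p)^[n] (phA G p x) o Finset.univ
  let Q : ℕ → ℝ := fun N => PI G p o N x + ∑ a, PI G p o N a * sig G p a x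
  have hR : ∀ n, 0 ≤ R n := fun n => iter_nonneg h0 h1 hp n _ _
  have e0 : phA G p x = fun v A => (-1) * KL G p (phA G p x) v A +
      (1 * eeA G p x v A + ∑ a, sig G p a x * eeA G p a v A) := by
    funext v A
    have e1 : (fun b C => tau G p b x - phA G p x b C) =
        fun b C => (-1) * phA G p x b C + tau G p b x := by
      funext b C; ring
    rw [h V G p x v A, e1, KL_lin, KL_tau]
    ring
  have step : ∀ n, R n = Q n - R (n + 1) := by
    intro n
    have e2 : R n = (KL G p)^[n] (fun v A => (-1) * KL G p (phA G p x) v A +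
      (1 * eeA G p x v A + ∑ a, sig G p a x * eeA G p a v A)) o Finset.univ := by
      rw [← e0]
    rw [e2, iter_lin, iter_lin, iter_sum]
    simp only [R, Q, PI, Function.iterate_succ_apply, mul_comm (sig G p _ x)]
    ring
  have base : tau G p o x = R 0 := by
    rw [tau_eq_con]
    exact Ex_congr fun ω => ind_congr ⟨fun hc => ⟨hc, fun ho => ho.1 (Finset.mem_univ _)⟩,
      fun ht => ht.1⟩
  refine ⟨fun N => iter_nonneg h0 h1 (he x) N _ _, fun n => ?_⟩
  have main : ∀ n, tau G p o x - ∑ N ∈ Finset.range n, (-1) ^ N * Q N = (-1) ^ n * R n := by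
    intro n
    induction n with
    | zero => simp [base]
    | succ n ih => rw [Finset.sum_range_succ, ← sub_sub, ih, step n]; ring
  show |tau G p o x - ∑ N ∈ Finset.range n, (-1) ^ N * Q N| ≤ Q n
  rw [main, abs_mul, abs_pow, abs_neg, abs_one, one_pow, one_mul, abs_of_nonneg (hR n)]
  linarith [step n, hR (n + 1)]

end Pool.Agent.HD
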