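import Pool.Agent.Lib.HD.LBasic

/-! The event `E'` ignores a bond leading out of the cluster and is decided on the cluster. -/

open Finset Classical

set_option linter.unusedSectionVars false

namespace Pool.Agent.HD

open Pool.Agent.Lib.MP_81a99a_pr

namespace DEAD

variable {V : Type} [Fintype V] {G H : SimpleGraph V} {ω ω' : Set (Sym2 V)} {v : V}

lemma dcomm (ω : Set (Sym2 V)) (e e' : Sym2 V) : (ω \ {e}) \ {e'} = (ω \ {e'}) \ {e} :=
  Set.sdiff_sdiff_comm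

lemma loc_con (hH : H ≤ G) (h : ∀ e ∈ touch G (cl G ω {v}), (e ∈ ω ↔ e ∈ ω')) (F : Set (Sym2 V))
    {y z : V} (hy : Con G ω v y) (hz : Con H (ω \ F) y z) : Con H (ω' \ F) y z :=
  hz.induct (P := fun z => Con H (ω' \ F) y z) (Con.refl _ _ _) fun _ _ ha ha' hab he =>
    ha'.step hab ⟨(h _ (mk_mem_touch (con_iff_cl.1 (hy.trans (ha.mono hH Set.sdiff_subset)))
      (hH hab))).1 he.1, he.2⟩

lemma loc_con' (hH : H ≤ G) (h : ∀ e ∈ touch G (cl G ω {v}), (e ∈ ω ↔ e ∈ ω'))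
    {z : V} (hz : Con H ω v z) : Con H ω' v z := by
  have := loc_con hH h ∅ (Con.refl G ω v) (z := z) (by rwa [Set.sdiff_empty])
  rwa [Set.sdiff_empty] at this

end DEAD

open DEAD

theorem st_loc : St_LOC := by
  intro V _ G ω ω' A v a h hE
  have h' : ∀ e ∈ touch G (cl G ω' {v}), (e ∈ ω' ↔ e ∈ ω) := by
    rw [cl_congr h]; exact fun e he => (h e he).symm
  refine ⟨⟨loc_con' le_rfl h hE.1.1, fun ho => hE.1.2 ⟨ho.1, loc_con' res_le h' ho.2⟩⟩,
    fun c d hp => ?_⟩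
  obtain ⟨h1, h2, h3, h4, h5⟩ := hp
  have hc : Con G ω' v c := h3.mono' Set.sdiff_subset
  have := hE.2 c d ⟨h1, (h' _ (mk_mem_touch (con_iff_cl.1 hc) h1)).1 h2,
    loc_con le_rfl h' _ (Con.refl _ _ _) h3, loc_con le_rfl h' _ (hc.step h1 h2) h4,
    fun h6 => h5 (loc_con le_rfl h _ (Con.refl _ _ _) h6)⟩
  exact ⟨this.1, loc_con' res_le h this.2⟩

theorem st_dead : St_DEAD := by
  intro V _ G ω A v a b hb
  have sub : ∀ (K : Set (Sym2 V)) (e : Sym2 V), K \ {e} ⊆ K := fun _ _ => Set.sdiff_subset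
  have sub2 : ∀ e' : Sym2 V, (ω \ {e'}) \ {s(a, b)} ⊆ ω \ {s(a, b)} := fun e' =>
    Set.sdiff_subset_sdiff_left (sub _ _)
  -- connections from `v` to `a` do not need the bond
  have key : ∀ (H : SimpleGraph V), H ≤ G → ∀ K : Set (Sym2 V), K ⊆ ω → ∀ y, Con H K v y →
      Con H (K \ {s(a, b)}) v y ∨ Con H (K \ {s(a, b)}) v a := by
    intro H hH K hK y hy
    rcases hy.split' a b with h | h | h
    · exact Or.inl h
    · exact Or.inr h.1
    · exact absurd (h.1.mono hH (Set.sdiff_subset_sdiff_left hK)) hb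
  have hoff : Off G ω A v a → Off G (ω \ {s(a, b)}) A v a := fun h =>
    ⟨h.1, (key _ res_le ω subset_rfl a h.2).elim id id⟩
  constructor
  · intro hE
    refine ⟨⟨(key G le_rfl ω subset_rfl a hE.1.1).elim id id,
      fun h => hE.1.2 (h.mono' (sub _ _))⟩, fun c d hp => ?_⟩
    obtain ⟨h1, h2, h3, h4, h5⟩ := hp
    have hs : (ω \ {s(a, b)}) \ {s(c, d)} ⊆ ω \ {s(c, d)} := Set.sdiff_subset_sdiff_left (sub _ _)
    have ho := hE.2 c d ⟨h1, h2.1, h3.mono' hs, h4.mono' hs, fun h6 => h5 (by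
      rw [dcomm]; exact (key G le_rfl _ (sub _ _) a h6).elim id id)⟩
    rcases key _ res_le ω subset_rfl c ho.2 with h | h
    · exact ⟨ho.1, h⟩
    · exact absurd ⟨ho.1, h.mono' (sub _ _)⟩ hE.1.2
  · intro hE
    refine ⟨⟨hE.1.1.mono' (sub _ _), fun h => hE.1.2 (hoff h)⟩, fun c d hp => ?_⟩
    obtain ⟨h1, h2, h3, h4, h5⟩ := hp
    have hne : s(c, d) ≠ s(a, b) := fun h => h5 (h ▸ hE.1.1)
    have h3' : Con G ((ω \ {s(c, d)}) \ {s(a, b)}) v c := by
      rcases key G le_rfl _ (sub _ _) c h3 with h | h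
      · exact h
      · exact absurd (h.mono' (sub _ _)) h5
    have h4' : Con G ((ω \ {s(c, d)}) \ {s(a, b)}) d a := by
      rcases h4.split' a b with h | h | h
      · exact h
      · exact h.1
      · exact absurd (((h3'.mono' (sub2 _)).step h1 ⟨h2, hne⟩).trans (h.1.mono' (sub2 _))) hb
    refine (hE.2 c d ⟨h1, ⟨h2, hne⟩, ?_, ?_, fun h6 => h5 ?_⟩).mono' (sub _ _)
    · rwa [dcomm]
    · rwa [dcomm]
    · rw [dcomm] at h6; exact h6.mono' (sub _ _)

end Pool.Agent.HD
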