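import Pool.Agent.Lib.HD.LBasic

/-! The events of the diagrams; BK for lists; the path bound. -/

open Finset Classical SimpleGraph

set_option linter.unusedSectionVars false

namespace Pool.Agent.HD

open Pool.Agent.Lib.MP_81a99a_pr

namespace EV

variable {V : Type} [Fintype V] {G : SimpleGraph V} {ω : Set (Sym2 V)}

/-- a witness for a connection -/
def Wit (G : SimpleGraph V) (ω : Set (Sym2 V)) (l : List (Sym2 V)) (x y : V) : Prop :=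
  (∀ e ∈ l, e ∈ ω) ∧ Con G {e | e ∈ l} x y

/-- cutting a path at a vertex -/
lemma cut {x y z : V} (q : (op G ω).Walk x y) (hq : q.IsPath) (hz : z ∈ q.support) :
    ∃ l₁ l₂, Wit G ω l₁ x z ∧ Wit G ω l₂ z y ∧ l₁.Disjoint l₂ ∧ l₁ ⊆ q.edges ∧ l₂ ⊆ q.edges :=
  ⟨_, _, walk_wit (q.takeUntil z hz), walk_wit (q.dropUntil z hz),
    hq.isTrail.disjoint_edges_takeUntil_dropUntil hz, Walk.edges_takeUntil_subset_edges _ _,
    Walk.edges_dropUntil_subset_edges _ _⟩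

lemma dj {l₁ l₂ m₁ m₂ : List (Sym2 V)} (h : m₁.Disjoint m₂) (h1 : l₁ ⊆ m₁) (h2 : l₂ ⊆ m₂) :
    l₁.Disjoint l₂ := fun _ ha hb => h (h1 ha) (h2 hb)

lemma arm_dj {S : Set V} {x y a b : V} (q : (op G ω).Walk x y) (hq : ∀ c ∈ q.support, c ∈ S)
    (r : (op G ω).Walk a b) (hr : ∀ e ∈ r.edges, ∃ c ∈ e, c ∉ S) : q.edges.Disjoint r.edges :=
  fun e h1 h2 => by
    obtain ⟨c, hc, h3⟩ := hr e h2
    exact h3 (hq c (Walk.mem_support_of_mem_edges h1 hc))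

lemma dis2 {l₁ l₂ : List (Sym2 V)} {a₁ b₁ a₂ b₂ : V} (w1 : Wit G ω l₁ a₁ b₁)
    (w2 : Wit G ω l₂ a₂ b₂) (d12 : l₁.Disjoint l₂) : Dis G ω [(a₁, b₁), (a₂, b₂)] :=
  dis_of_lists [(l₁, a₁, b₁), (l₂, a₂, b₂)] (by
    simp only [List.forall_mem_cons]; exact ⟨w1, w2, by simp⟩) (by simp [d12])

lemma dis4 {l₁ l₂ l₃ l₄ : List (Sym2 V)} {a₁ b₁ a₂ b₂ a₃ b₃ a₄ b₄ : V} (w1 : Wit G ω l₁ a₁ b₁)
    (w2 : Wit G ω l₂ a₂ b₂) (w3 : Wit G ω l₃ a₃ b₃) (w4 : Wit G ω l₄ a₄ b₄)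
    (d12 : l₁.Disjoint l₂) (d13 : l₁.Disjoint l₃) (d14 : l₁.Disjoint l₄) (d23 : l₂.Disjoint l₃)
    (d24 : l₂.Disjoint l₄) (d34 : l₃.Disjoint l₄) :
    Dis G ω [(a₁, b₁), (a₂, b₂), (a₃, b₃), (a₄, b₄)] :=
  dis_of_lists [(l₁, a₁, b₁), (l₂, a₂, b₂), (l₃, a₃, b₃), (l₄, a₄, b₄)] (by
    simp only [List.forall_mem_cons]; exact ⟨w1, w2, w3, w4, by simp⟩)
    (by simp [d12, d13, d14, d23, d24, d34])

lemma dis6 {l₁ l₂ l₃ l₄ l₅ l₆ : List (Sym2 V)} {a₁ b₁ a₂ b₂ a₃ b₃ a₄ b₄ a₅ b₅ a₆ b₆ : V}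
    (w1 : Wit G ω l₁ a₁ b₁) (w2 : Wit G ω l₂ a₂ b₂) (w3 : Wit G ω l₃ a₃ b₃)
    (w4 : Wit G ω l₄ a₄ b₄) (w5 : Wit G ω l₅ a₅ b₅) (w6 : Wit G ω l₆ a₆ b₆)
    (d12 : l₁.Disjoint l₂) (d13 : l₁.Disjoint l₃) (d14 : l₁.Disjoint l₄) (d15 : l₁.Disjoint l₅)
    (d16 : l₁.Disjoint l₆) (d23 : l₂.Disjoint l₃) (d24 : l₂.Disjoint l₄) (d25 : l₂.Disjoint l₅)
    (d26 : l₂.Disjoint l₆) (d34 : l₃.Disjoint l₄) (d35 : l₃.Disjoint l₅) (d36 : l₃.Disjoint l₆)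
    (d45 : l₄.Disjoint l₅) (d46 : l₄.Disjoint l₆) (d56 : l₅.Disjoint l₆) :
    Dis G ω [(a₁, b₁), (a₂, b₂), (a₃, b₃), (a₄, b₄), (a₅, b₅), (a₆, b₆)] :=
  dis_of_lists [(l₁, a₁, b₁), (l₂, a₂, b₂), (l₃, a₃, b₃), (l₄, a₄, b₄), (l₅, a₅, b₅), (l₆, a₆, b₆)]
    (by simp only [List.forall_mem_cons]; exact ⟨w1, w2, w3, w4, w5, w6, by simp⟩)
    (by simp [d12, d13, d14, d15, d16, d23, d24, d25, d26, d34, d35, d36, d45, d46, d56])

lemma rf (l : List (Sym2 V)) : l ⊆ l := List.Subset.refl l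

/-- the arm leaves from one branch, the other branch meets `A` -/
lemma branch {v t u w y z : V} (q₀ : (op G ω).Walk v t) (q₁ q₂ : (op G ω).Walk t u)
    (r : (op G ω).Walk w y) (p1 : q₁.IsPath) (p2 : q₂.IsPath) (d01 : q₀.edges.Disjoint q₁.edges)
    (d02 : q₀.edges.Disjoint q₂.edges) (d12 : q₁.edges.Disjoint q₂.edges)
    (r0 : q₀.edges.Disjoint r.edges) (r1 : q₁.edges.Disjoint r.edges)
    (r2 : q₂.edges.Disjoint r.edges) (hw : w ∈ q₁.support) (hz : z ∈ q₂.support) :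
    Dis G ω [(v, t), (t, z), (t, w), (z, u), (w, u), (w, y)] := by
  obtain ⟨a₁, a₂, wa1, wa2, da, sa1, sa2⟩ := cut q₁ p1 hw
  obtain ⟨b₁, b₂, wb1, wb2, db, sb1, sb2⟩ := cut q₂ p2 hz
  exact dis6 (walk_wit q₀) wb1 wa1 wb2 wa2 (walk_wit r) (dj d02 (rf _) sb1) (dj d01 (rf _) sa1)
    (dj d02 (rf _) sb2) (dj d01 (rf _) sa2) r0 (dj d12.symm sb1 sa1) db (dj d12.symm sb1 sa2)
    (dj r2 sb1 (rf _)) (dj d12 sa1 sb2) da (dj r1 sa1 (rf _)) (dj d12.symm sb2 sa2)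
    (dj r2 sb2 (rf _)) (dj r1 sa2 (rf _))

end EV

open EV

theorem st_ev0 (h : St_STRUC) : St_EV0 := by
  intro V _ G ω A v u hE
  obtain ⟨t, q₀, q₁, q₂, p0, p1, p2, d01, d02, d12, ⟨z, hz, hz1⟩, -, hv⟩ := h V G ω A v u hE
  refine ⟨⟨z, hz, t, ?_⟩, fun hA => ?_⟩
  · obtain ⟨a₁, a₂, wa1, wa2, da, sa1, sa2⟩ := cut q₁ p1 hz1
    exact dis4 (walk_wit q₀) wa1 (walk_wit q₂) wa2 (dj d01 (rf _) sa1) d02 (dj d01 (rf _) sa2)
      (dj d12 sa1 (rf _)) da (dj d12.symm (rf _) sa2)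
  · obtain rfl := hv hA
    refine ⟨dis2 (walk_wit q₁) (walk_wit q₂) d12, fun y hy => ?_⟩
    obtain ⟨w, hw, r, hr⟩ := exists_arm hy {c | c ∈ q₁.support ∨ c ∈ q₂.support}
      (Or.inl q₁.start_mem_support)
    have r1 := arm_dj q₁ (fun c hc => Or.inl hc) r hr
    have r2 := arm_dj q₂ (fun c hc => Or.inr hc) r hr
    refine ⟨w, ?_⟩
    rcases hw with hw | hw
    · obtain ⟨a₁, a₂, wa1, wa2, da, sa1, sa2⟩ := cut q₁ p1 hw
      exact dis4 (walk_wit q₂) wa1 wa2 (walk_wit r) (dj d12.symm (rf _) sa1)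
        (dj d12.symm (rf _) sa2) r2 da (dj r1 sa1 (rf _)) (dj r1 sa2 (rf _))
    · obtain ⟨a₁, a₂, wa1, wa2, da, sa1, sa2⟩ := cut q₂ p2 hw
      exact dis4 (walk_wit q₁) wa1 wa2 (walk_wit r) (dj d12 (rf _) sa1)
        (dj d12 (rf _) sa2) r1 da (dj r2 sa1 (rf _)) (dj r2 sa2 (rf _))

theorem st_ev1 (h : St_STRUC) : St_EV1 := by
  intro V _ G ω A v u y hE hy
  obtain ⟨t, q₀, q₁, q₂, p0, p1, p2, d01, d02, d12, ⟨z₁, hz₁, hz1⟩, ⟨z₂, hz₂, hz2⟩, -⟩ :=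
    h V G ω A v u hE
  obtain ⟨w, hw, r, hr⟩ := exists_arm hy {c | c ∈ q₀.support ∨ c ∈ q₁.support ∨ c ∈ q₂.support}
    (Or.inl q₀.start_mem_support)
  have r0 := arm_dj q₀ (fun c hc => Or.inl hc) r hr
  have r1 := arm_dj q₁ (fun c hc => Or.inr (Or.inl hc)) r hr
  have r2 := arm_dj q₂ (fun c hc => Or.inr (Or.inr hc)) r hr
  rcases hw with hw | hw | hw
  · obtain ⟨a₁, a₂, wa1, wa2, da, sa1, sa2⟩ := cut q₀ p0 hw
    obtain ⟨b₁, b₂, wb1, wb2, db, sb1, sb2⟩ := cut q₁ p1 hz1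
    exact ⟨z₁, hz₁, t, w, Or.inr (dis6 wa1 wa2 wb1 (walk_wit q₂) wb2 (walk_wit r) da
      (dj d01 sa1 sb1) (dj d02 sa1 (rf _)) (dj d01 sa1 sb2) (dj r0 sa1 (rf _)) (dj d01 sa2 sb1)
      (dj d02 sa2 (rf _)) (dj d01 sa2 sb2) (dj r0 sa2 (rf _)) (dj d12 sb1 (rf _)) db
      (dj r1 sb1 (rf _)) (dj d12.symm (rf _) sb2) r2 (dj r1 sb2 (rf _)))⟩
  · exact ⟨z₂, hz₂, t, w, Or.inl (branch q₀ q₁ q₂ r p1 p2 d01 d02 d12 r0 r1 r2 hw hz2)⟩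
  · exact ⟨z₁, hz₁, t, w, Or.inl (branch q₀ q₂ q₁ r p2 p1 d02 d01 d12.symm r0 r2 r1 hw hz1)⟩

theorem st_bkl (h : St_BK2) : St_BKL := by
  intro V _ G p h0 h1 l
  induction l with
  | nil => exact Ex_le_const h0 h1 fun _ => ind_le_one _
  | cons c l ih =>
    rw [List.map_cons, List.prod_cons, tau_eq_con]
    refine (h (Sym2 V) p h0 h1 (fun K => Con G K c.1 c.2) (fun K => Dis G K l)
      (fun _ _ hab ha => ha.mono' hab) (fun _ _ hab ha => ha.mono' hab)).trans ?_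
    exact mul_le_mul_of_nonneg_left ih (Ex_nonneg h0 h1 fun _ => ind_nonneg _)

lemma EV.level {V : Type} {H : SimpleGraph V} (ℓ : V → ℕ) (hℓ : ∀ a b, H.Adj a b → ℓ b ≤ ℓ a + 1)
    {o x : V} (q : H.Walk o x) (m : ℕ) (h1 : ℓ o ≤ m) (h2 : m ≤ ℓ x) :
    ∃ y ∈ q.support, ℓ y = m := by
  induction q with
  | nil => exact ⟨_, by simp, le_antisymm h1 h2⟩
  | @cons a b c h q ih =>
    by_cases ha : ℓ a = m
    · exact ⟨a, by simp, ha⟩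
    · obtain ⟨y, hy, h3⟩ := ih (by have := hℓ a b h; omega) h2
      exact ⟨y, by simp [hy], h3⟩

theorem st_pathg (h : St_BKL) : St_PATHG := by
  intro V _ G p h0 h1 ℓ hℓ o x m m1 m2
  have key : ∀ ω, ind (Con G ω o x) ≤
      ∑ y ∈ Finset.univ.filter (fun y => ℓ y = m), ind (Dis G ω [(o, y), (y, x)]) := by
    intro ω
    by_cases hc : Con G ω o x
    · obtain ⟨q⟩ := id hc
      obtain ⟨y, hy, h3⟩ := level ℓ (fun a b hab => hℓ a b (op_adj.1 hab).1) q.bypass m m1 m2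
      obtain ⟨a₁, a₂, wa1, wa2, da, -, -⟩ := cut q.bypass q.bypass_isPath hy
      rw [ind_pos hc, ← ind_pos (dis2 wa1 wa2 da)]
      exact Finset.single_le_sum (f := fun y => ind (Dis G ω [(o, y), (y, x)]))
        (fun _ _ => ind_nonneg _) (by simpa using h3)
    · rw [ind_neg hc]; exact Finset.sum_nonneg fun _ _ => ind_nonneg _
  rw [tau_eq_con]
  refine (Ex_mono h0 h1 key).trans ?_
  rw [Ex_sum]
  exact Finset.sum_le_sum fun y _ => by simpa using h V G p h0 h1 [(o, y), (y, x)]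

lemma n1_add_le {d M : ℕ} (x y : T d M) : n1 (x + y) ≤ n1 x + n1 y := by
  unfold n1
  rw [← Finset.sum_add_distrib]
  exact Finset.sum_le_sum fun i _ =>
    (ZMod.natAbs_valMinAbs_add_le _ _).trans (Int.natAbs_add_le _ _)

lemma n1_neg {d M : ℕ} (x : T d M) : n1 (-x) = n1 x :=
  Finset.sum_congr rfl fun _ _ => ZMod.natAbs_valMinAbs_neg _

lemma n1_zero {d M : ℕ} : n1 (0 : T d M) = 0 := by simp [n1]

lemma n1_single {d M : ℕ} [NeZero M] (i : Fin d) : n1 (Pi.single i 1 : T d M) ≤ 1 := by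
  unfold n1
  rw [Finset.sum_eq_single i]
  · rw [Pi.single_eq_same]
    have : ((1 : ZMod M).valMinAbs.natAbs) ≤ (1 : ZMod M).val := by
      rw [ZMod.valMinAbs_natAbs_eq_min]; exact min_le_left _ _
    refine this.trans ?_
    rw [ZMod.val_one_eq_one_mod]
    exact Nat.mod_le _ _
  · intro j _ hj; simp [Pi.single_eq_of_ne hj]
  · simp

lemma n1_adj {d M : ℕ} [NeZero M] {x : T d M} (h : (torus d M).Adj 0 x) : n1 x ≤ 1 := by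
  obtain ⟨-, i, rfl | rfl⟩ := adj_zero_iff.1 h
  · exact n1_single i
  · rw [n1_neg]; exact n1_single i

theorem st_path (h : St_PATHG) : St_PATH := by
  intro d M _ p h0 h1 x m hm
  have := h (T d M) (torus d M) p h0 h1 n1 (fun a b hab => by
    have e : b = a + (b - a) := by abel
    rw [e]
    exact (n1_add_le _ _).trans (Nat.add_le_add_left (n1_adj (torus_adj_sub.1 hab)) _)) 0 x m
    (by rw [n1_zero]; exact Nat.zero_le _) hm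
  simpa only [tau_torus h0 h1, sub_zero] using this

end Pool.Agent.HD
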