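import Pool.Agent.Lib.HD.LBasic

/-! The lace expansion coefficients are bounded by diagrams. -/

open Finset Classical

set_option linter.unusedSectionVars false

namespace Pool.Agent.HD

open Pool.Agent.Lib.MP_81a99a_pr

namespace KERN

variable {V : Type} [Fintype V] (G : SimpleGraph V) (p : ℝ)

/-- the pair state attached to a vertex weight -/
noncomputable def Ph (h : V → V → ℝ) (w u : V) : ℝ :=
  ∑ y, tau G p w y * ∑ b, ind (G.Adj u b) * p * h b y

/-- the middle level without its two outer lines -/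
noncomputable def mid (v z w a : V) : ℝ :=
  ∑ c, (tau G p v c * tau G p c z * tau G p c w * tau G p z a * tau G p w a +
    tau G p v w * tau G p w c * tau G p c z * tau G p c a * tau G p z a)

/-- the vertex weights -/
noncomputable def hh (x : V) : ℕ → V → V → ℝ
  | 0, v, z => ∑ c, tau G p v c * tau G p c z * tau G p c x * tau G p z x
  | N + 1, v, z => ∑ w, ∑ a, mid G p v z w a * Ph G p (hh x N) w a

variable {G p}

lemma ind_le {P : Prop} {c : ℝ} (h0 : 0 ≤ c) (h : P → 1 ≤ c) : ind P ≤ c := by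
  by_cases hP : P
  · rw [ind_pos hP]; exact h hP
  · rw [ind_neg hP]; exact h0

lemma Ph_nonneg (h0 : 0 ≤ p) (h1 : p ≤ 1) {h : V → V → ℝ} (hh0 : ∀ a b, 0 ≤ h a b) (w u : V) :
    0 ≤ Ph G p h w u :=
  sum_nonneg fun _ _ => mul_nonneg (tau_nonneg h0 h1) (sum_nonneg fun _ _ =>
    mul_nonneg (mul_nonneg (ind_nonneg _) h0) (hh0 _ _))

lemma mid_nonneg (h0 : 0 ≤ p) (h1 : p ≤ 1) (v z w a : V) : 0 ≤ mid G p v z w a := by
  have ht : ∀ a b, 0 ≤ tau G p a b := fun _ _ => tau_nonneg h0 h1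
  refine sum_nonneg fun c _ => add_nonneg ?_ ?_ <;>
    exact mul_nonneg (mul_nonneg (mul_nonneg (mul_nonneg (ht _ _) (ht _ _)) (ht _ _)) (ht _ _))
      (ht _ _)

lemma hh_nonneg (h0 : 0 ≤ p) (h1 : p ≤ 1) (x : V) (N : ℕ) : ∀ v z, 0 ≤ hh G p x N v z := by
  have ht : ∀ a b, 0 ≤ tau G p a b := fun _ _ => tau_nonneg h0 h1
  induction N with
  | zero =>
    exact fun v z => sum_nonneg fun c _ =>
      mul_nonneg (mul_nonneg (mul_nonneg (ht _ _) (ht _ _)) (ht _ _)) (ht _ _)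
  | succ N ih =>
    exact fun v z => sum_nonneg fun w _ => sum_nonneg fun a _ =>
      mul_nonneg (mid_nonneg h0 h1 _ _ _ _) (Ph_nonneg h0 h1 ih _ _)

lemma KL_le (h0 : 0 ≤ p) (h1 : p ≤ 1) {f : V → Finset V → ℝ} {h : V → V → ℝ}
    (hh0 : ∀ a b, 0 ≤ h a b) (hf : ∀ b C, f b C ≤ ∑ y ∈ C, h b y) (v : V) (A : Finset V)
    {M : V → V → ℝ} (hM : ∀ a y, Ex p (fun ω => ind (EE G ω A v a ∧ Con G ω v y)) ≤
      ∑ w, M w a * tau G p w y) :
    KL G p f v A ≤ ∑ w, ∑ a, M w a * Ph G p h w a := by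
  have s1 : ∀ a b, Ex p (fun ω => ind (EE G ω A v a) * f b (cl G (ω \ {s(a, b)}) {v})) ≤
      ∑ y, h b y * ∑ w, M w a * tau G p w y := by
    intro a b
    have pt : ∀ ω, ind (EE G ω A v a) * f b (cl G (ω \ {s(a, b)}) {v}) ≤
        ∑ y, h b y * ind (EE G ω A v a ∧ Con G ω v y) := by
      intro ω
      by_cases hE : EE G ω A v a
      · rw [ind_pos hE, one_mul]
        refine (hf _ _).trans (le_trans (sum_le_sum fun y hy => ?_)
          (sum_le_sum_of_subset_of_nonneg (subset_univ _) fun y _ _ =>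
            mul_nonneg (hh0 _ _) (ind_nonneg _)))
        rw [ind_pos ⟨hE, (con_iff_cl.2 hy).mono' Set.sdiff_subset⟩, mul_one]
      · rw [ind_neg hE, zero_mul]
        exact sum_nonneg fun y _ => mul_nonneg (hh0 _ _) (ind_nonneg _)
    refine (Ex_mono h0 h1 pt).trans ?_
    rw [Ex_sum]
    refine sum_le_sum fun y _ => ?_
    rw [Ex_mul_left]
    exact mul_le_mul_of_nonneg_left (hM a y) (hh0 _ _)
  refine (sum_le_sum fun a _ => sum_le_sum fun b _ =>
    mul_le_mul_of_nonneg_left (s1 a b) (mul_nonneg (ind_nonneg _) h0)).trans (le_of_eq ?_)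
  simp only [Ph, mul_sum]
  rw [sum_comm (s := univ) (t := univ) (f := fun w a => ∑ y, ∑ b,
    M w a * (tau G p w y * (ind (G.Adj a b) * p * h b y)))]
  refine sum_congr rfl fun a _ => ?_
  rw [sum_comm, sum_comm (s := univ) (t := univ) (f := fun w y => ∑ b,
    M w a * (tau G p w y * (ind (G.Adj a b) * p * h b y)))]
  refine sum_congr rfl fun y _ => ?_
  rw [sum_comm]
  exact sum_congr rfl fun w _ => sum_congr rfl fun b _ => by ring

lemma Ph_zero (x w u : V) : Ph G p (hh G p x 0) w u = GE (tau G p) (sig G p) x w u := by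
  simp only [Ph, hh, GE, sig, mul_sum, sum_mul]
  refine sum_congr rfl fun z _ => ?_
  rw [sum_comm]
  exact sum_congr rfl fun c _ => sum_congr rfl fun b _ => by ring

lemma Ph_mid (w u w' u' : V) :
    ∑ z, tau G p w z * ∑ b, ind (G.Adj u b) * p * mid G p b z w' u' =
      k1 (tau G p) (sig G p) w u w' u' + k2 (tau G p) (sig G p) w u w' u' := by
  simp only [k1, k2, mid, sig, mul_sum, sum_mul, ← sum_add_distrib]
  refine sum_congr rfl fun z _ => ?_
  rw [sum_comm]
  exact sum_congr rfl fun c _ => sum_congr rfl fun b _ => by ring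

lemma Ph_succ (x : V) (N : ℕ) (w u : V) :
    Ph G p (hh G p x (N + 1)) w u = KO (tau G p) (sig G p) (Ph G p (hh G p x N)) w u := by
  have e : hh G p x (N + 1) =
      fun v z => ∑ w, ∑ a, mid G p v z w a * Ph G p (hh G p x N) w a := by
    funext v z; rw [hh]
  rw [e]
  simp only [KO, ← Ph_mid]
  generalize Ph G p (hh G p x N) = F
  simp only [Ph, mul_sum, sum_mul]
  symm
  rw [sum_congr rfl fun w' _ => sum_comm, sum_comm]
  refine sum_congr rfl fun z _ => ?_
  rw [sum_congr rfl fun w' _ => sum_comm, sum_comm]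
  exact sum_congr rfl fun b _ => sum_congr rfl fun w' _ => sum_congr rfl fun u' _ => by ring

lemma Ph_eq (x : V) (N : ℕ) :
    Ph G p (hh G p x N) = (KO (tau G p) (sig G p))^[N] (GE (tau G p) (sig G p) x) := by
  induction N with
  | zero => funext w u; exact Ph_zero x w u
  | succ N ih =>
    funext w u
    rw [Ph_succ, ih, Function.iterate_succ_apply']

lemma ee_le (b1 : St_BKL) (e0 : St_EV0) (h0 : 0 ≤ p) (h1 : p ≤ 1) (x v : V) (A : Finset V) :
    eeA G p x v A ≤ ∑ z ∈ A, hh G p x 0 v z := by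
  have pt : ∀ ω, ind (EE G ω A v x) ≤
      ∑ z ∈ A, ∑ c, ind (Dis G ω [(v, c), (c, z), (c, x), (z, x)]) := by
    intro ω
    refine ind_le (sum_nonneg fun _ _ => sum_nonneg fun _ _ => ind_nonneg _) fun hE => ?_
    obtain ⟨z, hz, c, hD⟩ := (e0 V G ω A v x hE).1
    refine le_trans ?_ (single_le_sum
      (f := fun z => ∑ c, ind (Dis G ω [(v, c), (c, z), (c, x), (z, x)]))
      (fun _ _ => sum_nonneg fun _ _ => ind_nonneg _) hz)
    refine le_trans ?_ (single_le_sum
      (f := fun c => ind (Dis G ω [(v, c), (c, z), (c, x), (z, x)]))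
      (fun _ _ => ind_nonneg _) (mem_univ c))
    exact (ind_pos hD).ge
  refine (Ex_mono h0 h1 pt).trans ?_
  rw [Ex_sum]
  refine sum_le_sum fun z _ => ?_
  rw [Ex_sum]
  refine sum_le_sum fun c _ => (b1 V G p h0 h1 _).trans (le_of_eq ?_)
  simp only [List.map_cons, List.map_nil, List.prod_cons, List.prod_nil]
  ring

lemma mid_le (b1 : St_BKL) (e1 : St_EV1) (h0 : 0 ≤ p) (h1 : p ≤ 1) (v : V) (A : Finset V)
    (a y : V) : Ex p (fun ω => ind (EE G ω A v a ∧ Con G ω v y)) ≤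
      ∑ w, (∑ z ∈ A, mid G p v z w a) * tau G p w y := by
  let F : Set (Sym2 V) → V → V → V → ℝ := fun ω w z c =>
    ind (Dis G ω [(v, c), (c, z), (c, w), (z, a), (w, a), (w, y)]) +
      ind (Dis G ω [(v, w), (w, c), (c, z), (c, a), (z, a), (w, y)])
  have F0 : ∀ ω w z c, 0 ≤ F ω w z c := fun _ _ _ _ => add_nonneg (ind_nonneg _) (ind_nonneg _)
  have pt : ∀ ω, ind (EE G ω A v a ∧ Con G ω v y) ≤ ∑ w, ∑ z ∈ A, ∑ c, F ω w z c := by
    intro ω
    refine ind_le (sum_nonneg fun _ _ => sum_nonneg fun _ _ => sum_nonneg fun _ _ => F0 _ _ _ _)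
      fun hE => ?_
    obtain ⟨z, hz, c, w, hD⟩ := e1 V G ω A v a y hE.1 hE.2
    refine le_trans ?_ (single_le_sum (f := fun w => ∑ z ∈ A, ∑ c, F ω w z c)
      (fun _ _ => sum_nonneg fun _ _ => sum_nonneg fun _ _ => F0 _ _ _ _) (mem_univ w))
    refine le_trans ?_ (single_le_sum (f := fun z => ∑ c, F ω w z c)
      (fun _ _ => sum_nonneg fun _ _ => F0 _ _ _ _) hz)
    refine le_trans ?_ (single_le_sum (f := fun c => F ω w z c)
      (fun _ _ => F0 _ _ _ _) (mem_univ c))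
    rcases hD with hD | hD
    · exact (ind_pos hD).ge.trans (le_add_of_nonneg_right (ind_nonneg _))
    · exact (ind_pos hD).ge.trans (le_add_of_nonneg_left (ind_nonneg _))
  refine (Ex_mono h0 h1 pt).trans ?_
  rw [Ex_sum]
  refine sum_le_sum fun w _ => ?_
  rw [Ex_sum, sum_mul]
  refine sum_le_sum fun z _ => ?_
  rw [Ex_sum, mid, sum_mul]
  refine sum_le_sum fun c _ => ?_
  rw [Ex_add]
  refine (add_le_add (b1 V G p h0 h1 _) (b1 V G p h0 h1 _)).trans (le_of_eq ?_)
  simp only [List.map_cons, List.map_nil, List.prod_cons, List.prod_nil]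
  ring

lemma top_le (b1 : St_BKL) (e0 : St_EV0) (h0 : 0 ≤ p) (h1 : p ≤ 1) (v a y : V) :
    Ex p (fun ω => ind (EE G ω univ v a ∧ Con G ω v y)) ≤
      ∑ w, (tau G p v a * tau G p v w * tau G p w a) * tau G p w y := by
  have pt : ∀ ω, ind (EE G ω univ v a ∧ Con G ω v y) ≤
      ∑ w, ind (Dis G ω [(v, a), (v, w), (w, a), (w, y)]) := by
    intro ω
    refine ind_le (sum_nonneg fun _ _ => ind_nonneg _) fun hE => ?_
    obtain ⟨w, hD⟩ := ((e0 V G ω univ v a hE.1).2 (mem_univ v)).2 y hE.2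
    exact (ind_pos hD).ge.trans (single_le_sum
      (f := fun w => ind (Dis G ω [(v, a), (v, w), (w, a), (w, y)]))
      (fun _ _ => ind_nonneg _) (mem_univ w))
  refine (Ex_mono h0 h1 pt).trans ?_
  rw [Ex_sum]
  refine sum_le_sum fun w _ => (b1 V G p h0 h1 _).trans (le_of_eq ?_)
  simp only [List.map_cons, List.map_nil, List.prod_cons, List.prod_nil]
  ring

lemma iter_le (b1 : St_BKL) (e0 : St_EV0) (e1 : St_EV1) (h0 : 0 ≤ p) (h1 : p ≤ 1) (x : V)
    (N : ℕ) : ∀ v A, ((KL G p)^[N] (eeA G p x)) v A ≤ ∑ z ∈ A, hh G p x N v z := by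
  induction N with
  | zero => exact ee_le b1 e0 h0 h1 x
  | succ N ih =>
    intro v A
    rw [Function.iterate_succ_apply']
    refine (KL_le h0 h1 (hh_nonneg h0 h1 x N) ih v A (mid_le b1 e1 h0 h1 v A)).trans
      (le_of_eq ?_)
    simp only [hh, sum_mul]
    rw [sum_congr rfl fun w _ => sum_comm, sum_comm]

end KERN

theorem st_kern (h1 : St_BKL) (h2 : St_EV0) (h3 : St_EV1) : St_KERN := by
  intro V _ G p p0 p1 o x
  refine ⟨?_, ?_, fun N => ?_⟩
  · have : ∀ ω, ind (EE G ω univ o o) = 1 := fun ω => ind_pos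
      ⟨⟨Con.refl _ _ _, fun h => h.1 (mem_univ _)⟩, fun a b h => absurd (Con.refl _ _ _) h.2.2.2.2⟩
    show Ex p (fun ω => ind (EE G ω univ o o)) = 1
    simp only [this, Ex_const]
  · show Ex p (fun ω => ind (EE G ω univ o x)) ≤ _
    refine (Ex_mono p0 p1 fun ω => ind_mono fun hE =>
      ((h2 V G ω univ o x hE).2 (mem_univ o)).1).trans ((h1 V G p p0 p1 _).trans (le_of_eq ?_))
    simp only [List.map_cons, List.map_nil, List.prod_cons, List.prod_nil]
    ring
  · rw [PI, Function.iterate_succ_apply', PN, ← KERN.Ph_eq]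
    exact KERN.KL_le p0 p1 (KERN.hh_nonneg p0 p1 x N) (KERN.iter_le h1 h2 h3 p0 p1 x N) o univ
      (KERN.top_le h1 h2 p0 p1 o)

end Pool.Agent.HD
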