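import Pool.Agent.Lib.HD.BlueA

/-! Block MENG: two edge-disjoint paths when no edge separates. -/

open Classical SimpleGraph

namespace Pool.Agent.HD

namespace Meng

variable {V : Type} {H : SimpleGraph V}

/-- two edge-disjoint paths -/
def Two (H : SimpleGraph V) (t y : V) : Prop :=
  ∃ q₁ q₂ : H.Walk t y, q₁.IsPath ∧ q₂.IsPath ∧ q₁.edges.Disjoint q₂.edges

lemma two_of_walks {t y : V} (q₁ q₂ : H.Walk t y) (h : q₁.edges.Disjoint q₂.edges) : Two H t y :=
  ⟨q₁.bypass, q₂.bypass, q₁.bypass_isPath, q₂.bypass_isPath,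
    fun _ h1 h2 => h (q₁.edges_bypass_subset_edges h1) (q₂.edges_bypass_subset_edges h2)⟩

lemma first {e : Sym2 V} (S : V → Prop) {x t : V} (R : (H.deleteEdges {e}).Walk x t) (ht : S t) :
    ∃ w, S w ∧ (S x → w = x) ∧ ∃ R₁ : H.Walk x w, ∀ f ∈ R₁.edges, f ≠ e ∧ ∃ z ∈ f, ¬ S z := by
  induction R with
  | nil => exact ⟨_, ht, fun _ => rfl, .nil, by simp⟩
  | @cons a b c h R ih =>
    by_cases ha : S a
    · exact ⟨a, ha, fun _ => rfl, .nil, by simp⟩
    · obtain ⟨w, hw, -, R₁, hR⟩ := ih ht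
      rw [deleteEdges_adj] at h
      refine ⟨w, hw, fun h => (ha h).elim, .cons h.1 R₁, fun f hf => ?_⟩
      rcases List.mem_cons.1 hf with rfl | hf
      · exact ⟨h.2, a, Sym2.mem_mk_left _ _, ha⟩
      · exact hR f hf

lemma join {t y y' w : V} (h : H.Adj y y') {q₁ q₂ : H.Walk t y} (h1 : q₁.IsPath)
    (hd : q₁.edges.Disjoint q₂.edges) (hw : w ∈ q₁.support) (hy : y' ∈ q₁.support → w = y')
    (R : H.Walk y' w) (hR : ∀ f ∈ R.edges, f ≠ s(y, y') ∧ ∃ z ∈ f, z ∉ q₂.support) : Two H t y' := by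
  refine two_of_walks ((q₁.takeUntil w hw).append R.reverse) (q₂.concat h) fun f f1 f2 => ?_
  rw [Walk.edges_append, Walk.edges_reverse, List.mem_append, List.mem_reverse] at f1
  rw [Walk.edges_concat, List.concat_eq_append, List.mem_append, List.mem_singleton] at f2
  rcases f1 with f1 | f1 <;> rcases f2 with f2 | f2
  · exact hd (q₁.edges_takeUntil_subset_edges hw f1) f2
  · subst f2
    have e := hy (q₁.snd_mem_support_of_mem_edges (q₁.edges_takeUntil_subset_edges hw f1))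
    exact Walk.endpoint_notMem_support_takeUntil h1 hw (e ▸ h.ne) (Walk.fst_mem_support_of_mem_edges _ f1)
  · obtain ⟨-, z, hz, hz'⟩ := hR f f1
    exact hz' (Walk.mem_support_of_mem_edges f2 hz)
  · exact (hR f f1).1 f2

lemma step {t y y' : V} (h : H.Adj y y') (hy : Two H t y)
    (hr : (H.deleteEdges {s(y, y')}).Reachable y' t) : Two H t y' := by
  obtain ⟨q₁, q₂, h1, h2, hd⟩ := hy
  obtain ⟨R⟩ := hr
  obtain ⟨w, hw, hx, R₁, hR⟩ := first (fun z => z ∈ q₁.support ∨ z ∈ q₂.support) R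
    (Or.inl q₁.start_mem_support)
  rcases hw with hw | hw
  · exact join h h1 hd hw (fun a => hx (Or.inl a)) R₁ fun f hf =>
      ⟨(hR f hf).1, (hR f hf).2.imp fun z hz => ⟨hz.1, fun a => hz.2 (Or.inr a)⟩⟩
  · exact join h h2 hd.symm hw (fun a => hx (Or.inr a)) R₁ fun f hf =>
      ⟨(hR f hf).1, (hR f hf).2.imp fun z hz => ⟨hz.1, fun a => hz.2 (Or.inl a)⟩⟩

lemma along {t y u : V} (W : H.Walk y u) (hW : W.IsTrail)
    (hu : ∀ e : Sym2 V, (H.deleteEdges {e}).Reachable t u) (hy : Two H t y) : Two H t u := by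
  induction W with
  | nil => exact hy
  | @cons a b c h W ih =>
    rw [Walk.isTrail_cons] at hW
    refine ih hW.1 hu (step h hy (Reachable.trans ⟨W.toDeleteEdges _ fun f hf e => ?_⟩ (hu _).symm))
    exact hW.2 (Set.mem_singleton_iff.1 e ▸ hf)

end Meng

theorem st_meng : St_MENG := fun _ H t u h => by
  obtain ⟨W⟩ := (h s(t, t)).mono (H.deleteEdges_le _)
  exact Meng.along W.bypass W.bypass_isPath.isTrail h (Meng.two_of_walks .nil .nil (by simp))

end Pool.Agent.HD
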