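import Pool.Agent.Lib.HD.LBasic

/-! The partition according to the cutting bond. -/

open Finset Classical

set_option linter.unusedSectionVars false

namespace Pool.Agent.HD

open Pool.Agent.Lib.MP_81a99a_pr

namespace PART

variable {V : Type} [Fintype V] {G : SimpleGraph V} {ω : Set (Sym2 V)} {A : Finset V}
  {v x a b c d : V}

lemma sub (K : Set (Sym2 V)) (e : Sym2 V) : K \ {e} ⊆ K := Set.sdiff_subset

lemma sub2 (K : Set (Sym2 V)) (e e' : Sym2 V) : (K \ {e}) \ {e'} ⊆ K \ {e'} :=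
  Set.sdiff_subset_sdiff_left (sub _ _)

lemma off_piv (hp : Piv G ω v x a b) (ho : Off G ω A v x) : Off G ω A v a := by
  rcases ho.2.split' a b with h | h | h
  · exact absurd (h.mono res_le subset_rfl) hp.2.2.2.2
  · exact ⟨ho.1, h.1.mono' (sub _ _)⟩
  · exact absurd (h.1.mono res_le subset_rfl) hp.not_con

/-- a pivotal bond for the connection to the tail of a pivotal bond comes earlier -/
lemma earlier (hp : Piv G ω v x a b) (hq : Piv G ω v a c d) :
    Piv G ω v x c d ∧ (cl G (ω \ {s(c, d)}) {v}).card < (cl G (ω \ {s(a, b)}) {v}).card := by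
  obtain ⟨p1, p2, p3, p4, p5⟩ := hp
  obtain ⟨q1, q2, q3, q4, q5⟩ := hq
  have pb : ¬ Con G (ω \ {s(a, b)}) v b := fun h => p5 (h.trans p4)
  have hne : s(a, b) ≠ s(c, d) := fun h => q5 (h ▸ p3)
  have hcd : Con G (ω \ {s(a, b)}) c d := Con.edge q1 ⟨q2, hne.symm⟩
  have hc : Con G (ω \ {s(a, b)}) v c := by
    rcases p3.split' c d with h | h | h
    · exact absurd (h.mono' (sub2 _ _ _)) q5
    · exact h.1.mono' (sub _ _)
    · exact (h.1.mono' (sub _ _)).trans hcd.symm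
  have key : ∀ y, Con G (ω \ {s(c, d)}) v y → Con G (ω \ {s(a, b)}) v y := by
    intro y hy
    rcases hy.split' a b with h | h | h
    · exact h.mono' (sub2 _ _ _)
    · exact absurd (h.1.mono' (sub _ _)) q5
    · exact absurd (h.1.mono' (sub2 _ _ _)) pb
  refine ⟨⟨q1, q2, q3, (q4.step p1 ⟨p2, hne⟩).trans ?_, fun h => p5 (key x h)⟩, ?_⟩
  · rcases p4.split' c d with h | h | h
    · exact h.mono' (sub2 _ _ _)
    · exact absurd (hc.trans (h.1.mono' (sub _ _)).symm) pb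
    · exact absurd ((hc.trans hcd).trans (h.1.mono' (sub _ _)).symm) pb
  · refine Finset.card_lt_card ⟨fun y hy => con_iff_cl.1 (key y (con_iff_cl.2 hy)), fun h => ?_⟩
    exact q5 (con_iff_cl.2 (h (con_iff_cl.1 p3)))

lemma order_aux (hp : Piv G ω v x a b) (hq : Piv G ω v x c d)
    (h : ¬ Con G ((ω \ {s(c, d)}) \ {s(a, b)}) v a) : Piv G ω v a c d := by
  have h5 : ¬ Con G (ω \ {s(c, d)}) v a := fun h6 => by
    rcases h6.split' a b with h7 | h7 | h7
    · exact h h7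
    · exact h h7.1
    · exact hp.not_con (h7.1.mono' (sub2 _ _ _))
  refine ⟨hq.1, hq.2.1, hq.2.2.1, ?_, h5⟩
  rcases (hp.2.2.1.mono' (sub _ _)).split' c d with h7 | h7 | h7
  · exact absurd h7 h5
  · exact h7.2
  · exact absurd h7.1 hq.not_con

/-- pivotal bonds are ordered -/
lemma order (hp : Piv G ω v x a b) (hq : Piv G ω v x c d) :
    (a = c ∧ b = d) ∨ Piv G ω v a c d ∨ Piv G ω v c a b := by
  by_cases hne : s(a, b) = s(c, d)
  · rcases Sym2.eq_iff.1 hne with h | ⟨rfl, rfl⟩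
    · exact Or.inl h
    · exact absurd (hne ▸ hq.2.2.1) hp.not_con
  by_cases h1 : Con G ((ω \ {s(c, d)}) \ {s(a, b)}) v a
  swap
  · exact Or.inr (Or.inl (order_aux hp hq h1))
  by_cases h2 : Con G ((ω \ {s(a, b)}) \ {s(c, d)}) v c
  swap
  · exact Or.inr (Or.inr (order_aux hq hp h2))
  exfalso
  rcases hp.2.2.2.1.split' c d with h | h | h
  · exact hq.2.2.2.2 (((h1.mono' (sub _ _)).step hp.1 ⟨hp.2.1, hne⟩).trans (h.mono' (sub2 _ _ _)))
  · exact hp.not_con ((h2.trans h.1.symm).mono' (sub _ _))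
  · exact hp.2.2.2.2 ((h2.trans h.2).mono' (sub _ _))

lemma exists_cut (h : ∃ a b, Piv G ω v x a b ∧ ¬ Off G ω A v a) :
    ∃ a b, Piv G ω v x a b ∧ EE G ω A v a := by
  obtain ⟨a0, b0, h0⟩ := h
  obtain ⟨⟨a, b⟩, h1, h2⟩ := Finset.exists_min_image
    (Finset.univ.filter fun c : V × V => Piv G ω v x c.1 c.2 ∧ ¬ Off G ω A v c.1)
    (fun c => (cl G (ω \ {s(c.1, c.2)}) {v}).card) ⟨(a0, b0), by simpa using h0⟩
  have h3 := (Finset.mem_filter.1 h1).2
  refine ⟨a, b, h3.1, ⟨h3.1.2.2.1.mono' (sub _ _), h3.2⟩, fun c d hq => ?_⟩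
  by_contra h4
  obtain ⟨h5, h6⟩ := earlier h3.1 hq
  exact absurd (h2 (c, d) (Finset.mem_filter.2 ⟨Finset.mem_univ _, h5, h4⟩)) (not_le.2 h6)

end PART

open PART

theorem st_part : St_PART := by
  intro V _ G ω A v x
  by_cases h : ∃ a b, Piv G ω v x a b ∧ ¬ Off G ω A v a
  · obtain ⟨a, b, h1, h2⟩ := exists_cut h
    have hT : Thru G ω A v x := ⟨h1.con, fun ho => h2.1.2 (off_piv h1 ho)⟩
    have uniq : ∀ c d, Piv G ω v x c d ∧ EE G ω A v c → a = c ∧ b = d := by
      intro c d h3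
      rcases order h1 h3.1 with h4 | h4 | h4
      · exact h4
      · exact absurd (h2.2 c d h4) h3.2.1.2
      · exact absurd (h3.2.2 a b h4) h2.1.2
    rw [ind_pos hT, ind_neg (fun hE : EE G ω A v x => h2.1.2 (hE.2 a b h1)), zero_add,
      Finset.sum_eq_single a, Finset.sum_eq_single b, ind_pos ⟨h1, h2⟩]
    · exact fun d _ hd => ind_neg fun h3 => hd (uniq a d h3).2.symm
    · simp
    · exact fun c _ hc => Finset.sum_eq_zero fun d _ => ind_neg fun h3 => hc (uniq c d h3).1.symm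
    · simp
  · push Not at h
    rw [Finset.sum_eq_zero fun a _ => Finset.sum_eq_zero fun b _ =>
      ind_neg fun h3 => h3.2.1.2 (h a b h3.1), add_zero]
    exact ind_congr ⟨fun hT => ⟨hT, h⟩, fun hE => hE.1⟩

end Pool.Agent.HD
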