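import Pool.Agent.Lib.HD.LBasic

/-! The geometry of the event `E'`. -/

open Finset Classical SimpleGraph

set_option linter.unusedSectionVars false

namespace Pool.Agent.HD

open Pool.Agent.Lib.MP_81a99a_pr

namespace STRUC

variable {V : Type} [Fintype V] {G : SimpleGraph V} {ω : Set (Sym2 V)}

lemma op_del (G : SimpleGraph V) (ω : Set (Sym2 V)) (e : Sym2 V) :
    (op G ω).deleteEdges {e} = op G (ω \ {e}) := by
  ext a b
  rw [deleteEdges_adj, op_adj, op_adj, and_assoc]
  rfl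

lemma sub (K : Set (Sym2 V)) (e : Sym2 V) : K \ {e} ⊆ K := Set.sdiff_subset

lemma sub2 (K : Set (Sym2 V)) (e e' : Sym2 V) : (K \ {e}) \ {e'} ⊆ K \ {e'} :=
  Set.sdiff_subset_sdiff_left (sub _ _)

lemma con_of_support {x y z : V} (q : (op G ω).Walk x y) (hz : z ∈ q.support) : Con G ω x z :=
  ⟨q.takeUntil z hz⟩

/-- beyond the last pivotal bond there is no bridge -/
lemma later {v u a t : V} (hp : Piv G ω v u a t) (e : Sym2 V)
    (h : ¬ Con G ((ω \ {s(a, t)}) \ {e}) t u) : ∃ c d, Piv G ω v u c d ∧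
      (cl G (ω \ {s(a, t)}) {v}).card < (cl G (ω \ {s(c, d)}) {v}).card := by
  obtain ⟨c, d, rfl, h1, h2, h3, h4⟩ := (hp.2.2.2.1.split e).resolve_left h
  have hc : ¬ Con G (ω \ {s(a, t)}) v c := fun h5 =>
    hp.not_con (h5.trans (h3.mono' (sub _ _)).symm)
  have hd : ¬ Con G (ω \ {s(a, t)}) v d := fun h5 => hc (h5.trans (Con.edge h1 h2).symm)
  have key : ∀ y, Con G (ω \ {s(a, t)}) v y → Con G (ω \ {s(c, d)}) v y := by
    intro y hy
    rcases hy.split' c d with h5 | h5 | h5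
    · exact h5.mono' (sub2 _ _ _)
    · exact absurd (h5.1.mono' (sub _ _)) hc
    · exact absurd (h5.1.mono' (sub _ _)) hd
  have ht : Con G (ω \ {s(c, d)}) v t :=
    (key a hp.2.2.1).step hp.1 ⟨hp.2.1, fun h5 => h2.2 (Eq.symm h5)⟩
  refine ⟨c, d, ⟨h1, h2.1, ht.trans (h3.mono' (sub2 _ _ _)), h4.mono' (sub2 _ _ _), fun h5 => ?_⟩,
    Finset.card_lt_card ⟨fun y hy => con_iff_cl.1 (key y (con_iff_cl.2 hy)), fun h5 =>
      hp.not_con (con_iff_cl.2 (h5 (con_iff_cl.1 ht)))⟩⟩
  rcases h5.split' a t with h6 | h6 | h6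
  · exact hp.2.2.2.2 (h6.mono' (sub2 _ _ _))
  · exact h (by rw [Set.sdiff_sdiff_comm]; exact h6.2)
  · exact hp.not_con (h6.1.mono' (sub2 _ _ _))

end STRUC

open STRUC

theorem st_struc (hM : St_MENG) : St_STRUC := by
  intro V _ G ω A v u hE
  by_cases hex : ∃ a t, Piv G ω v u a t
  · obtain ⟨a0, t0, h0⟩ := hex
    obtain ⟨⟨a, t⟩, h1, h2⟩ := Finset.exists_max_image
      (Finset.univ.filter fun c : V × V => Piv G ω v u c.1 c.2)
      (fun c => (cl G (ω \ {s(c.1, c.2)}) {v}).card) ⟨(a0, t0), by simpa using h0⟩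
    have hp : Piv G ω v u a t := (Finset.mem_filter.1 h1).2
    obtain ⟨r₁, r₂, p1, p2, hd⟩ := hM V (op G (ω \ {s(a, t)})) t u fun e => by
      rw [op_del]
      by_contra h3
      obtain ⟨c, d, h4, h5⟩ := later hp e h3
      exact absurd (h2 (c, d) (Finset.mem_filter.2 ⟨Finset.mem_univ _, h4⟩)) (not_le.2 h5)
    have ho := hE.2 a t hp
    have ho2 : Con (res G Aᶜ) (ω \ {s(a, t)}) v a := by
      rcases ho.2.split' a t with h | h | h
      · exact h
      · exact h.1
      · exact absurd (h.1.mono res_le subset_rfl) hp.not_con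
    obtain ⟨r₀⟩ := ho2
    have l0 : op (res G Aᶜ) (ω \ {s(a, t)}) ≤ op G ω := op_mono res_le (sub _ _)
    have l1 : op G (ω \ {s(a, t)}) ≤ op G ω := op_mono le_rfl (sub _ _)
    have hat : (op G ω).Adj a t := op_adj.2 ⟨hp.1, hp.2.1⟩
    have s0 : ∀ z ∈ r₀.bypass.support, Con G (ω \ {s(a, t)}) v z := fun z hz =>
      (con_of_support _ hz).mono res_le subset_rfl
    have dis : ∀ r : (op G (ω \ {s(a, t)})).Walk t u,
        ((r₀.bypass.mapLe l0).concat hat).edges.Disjoint (r.mapLe l1).edges := by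
      intro r e h3 h4
      rw [Walk.edges_mapLe_eq_edges] at h4
      rw [Walk.edges_concat, List.concat_eq_append, List.mem_append, List.mem_singleton,
        Walk.edges_mapLe_eq_edges] at h3
      rcases h3 with h3 | rfl
      · induction e using Sym2.ind with
        | _ c d => exact hp.not_con ((s0 c (Walk.fst_mem_support_of_mem_edges _ h3)).trans
            (con_of_support r (Walk.fst_mem_support_of_mem_edges _ h4)).symm)
      · exact (edges_mem r h4).2 rfl
    have hit : ∀ r : (op G (ω \ {s(a, t)})).Walk t u, ∃ z ∈ A, z ∈ (r.mapLe l1).support := by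
      intro r
      by_contra h3
      push Not at h3
      have h4 := off_of_walk (A := A) (r.mapLe l1) fun z hz hA => h3 z hA hz
      exact hE.1.2 ((ho.step hp.1 hp.2.1 h4.1).trans h4)
    refine ⟨t, (r₀.bypass.mapLe l0).concat hat, r₁.mapLe l1, r₂.mapLe l1,
      (r₀.bypass_isPath.mapLe _).concat (fun h3 => ?_) _, p1.mapLe _, p2.mapLe _, dis r₁, dis r₂,
      by simpa only [Walk.edges_mapLe_eq_edges] using hd, hit r₁, hit r₂,
      fun hv => absurd hv ho.1⟩
    rw [Walk.support_mapLe_eq_support] at h3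
    exact hp.not_con (s0 t h3)
  · obtain ⟨r₁, r₂, p1, p2, hd⟩ := hM V (op G ω) v u fun e => by
      rw [op_del]
      by_contra h3
      obtain ⟨c, d, rfl, h4, h5, h6, h7⟩ := (hE.1.1.split e).resolve_left h3
      exact hex ⟨c, d, h4, h5, h6, h7, h3⟩
    have hit : ∀ r : (op G ω).Walk v u, ∃ z ∈ A, z ∈ r.support := by
      intro r
      by_contra h3
      push Not at h3
      exact hE.1.2 (off_of_walk r fun z hz hA => h3 z hA hz)
    exact ⟨v, .nil, r₁, r₂, by simp, p1, p2, by simp, by simp, hd, hit r₁, hit r₂, fun _ => rfl⟩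

end Pool.Agent.HD
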