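import Pool.Agent.Lib.HD.LDefs

/-! Blueprint of the expansion (part A) and of the diagram estimates (part C). -/

open Finset Classical

namespace Pool.Agent.HD

open Pool.Agent.Lib.MP_81a99a_pr

/-- the van den Berg-Kesten inequality -/
def St_BK2 : Prop := ∀ (ι : Type) [Fintype ι] (p : ℝ), 0 ≤ p → p ≤ 1 →
  ∀ P Q : Set ι → Prop, (∀ a b, a ⊆ b → P a → P b) → (∀ a b, a ⊆ b → Q a → Q b) →
    Ex p (fun ω => ind (∃ K, K ⊆ ω ∧ P K ∧ Q (ω \ K))) ≤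
      Ex p (fun ω => ind (P ω)) * Ex p (fun ω => ind (Q ω))

def St_BKL : Prop := ∀ (V : Type) [Fintype V] (G : SimpleGraph V) (p : ℝ), 0 ≤ p → p ≤ 1 →
  ∀ l : List (V × V), Ex p (fun ω => ind (Dis G ω l)) ≤ (l.map fun c => tau G p c.1 c.2).prod

/-- an open path crosses every level of a Lipschitz function -/
def St_PATHG : Prop := ∀ (V : Type) [Fintype V] (G : SimpleGraph V) (p : ℝ), 0 ≤ p → p ≤ 1 →
  ∀ ℓ : V → ℕ, (∀ a b, G.Adj a b → ℓ b ≤ ℓ a + 1) → ∀ (o x : V) (m : ℕ), ℓ o ≤ m → m ≤ ℓ x →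
    tau G p o x ≤ ∑ y ∈ Finset.univ.filter (fun y => ℓ y = m), tau G p o y * tau G p y x

def St_PATH : Prop := ∀ (d M : ℕ) [NeZero M] (p : ℝ), 0 ≤ p → p ≤ 1 →
  ∀ (x : T d M) (m : ℕ), m ≤ n1 x →
    tauT d M p x ≤ ∑ y ∈ Finset.univ.filter (fun y : T d M => n1 y = m),
      tauT d M p y * tauT d M p (x - y)

/-- partition according to the cutting bond -/
def St_PART : Prop := ∀ (V : Type) [Fintype V] (G : SimpleGraph V) (ω : Set (Sym2 V))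
  (A : Finset V) (v x : V),
    ind (Thru G ω A v x) = ind (EE G ω A v x) + ∑ a, ∑ b, ind (Piv G ω v x a b ∧ EE G ω A v a)

/-- a bond leading out of the cluster does not matter -/
def St_DEAD : Prop := ∀ (V : Type) [Fintype V] (G : SimpleGraph V) (ω : Set (Sym2 V))
  (A : Finset V) (v a b : V), ¬ Con G (ω \ {s(a, b)}) v b →
    (EE G ω A v a ↔ EE G (ω \ {s(a, b)}) A v a)

/-- the event `E'` is decided on the edges touching the cluster of `v` -/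
def St_LOC : Prop := ∀ (V : Type) [Fintype V] (G : SimpleGraph V) (ω ω' : Set (Sym2 V))
  (A : Finset V) (v a : V), (∀ e ∈ touch G (cl G ω {v}), (e ∈ ω ↔ e ∈ ω')) →
    EE G ω A v a → EE G ω' A v a

/-- the cutting bond lemma -/
def St_CUT : Prop := ∀ (V : Type) [Fintype V] (G : SimpleGraph V) (p : ℝ)
  (A : Finset V) (v x a b : V), G.Adj a b →
    Ex p (fun ω => ind (Piv G ω v x a b ∧ EE G ω A v a)) =
      p * Ex p fun ω => ind (EE G ω A v a) *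
        Ex p fun ω' => ind (Off G ω' (cl G (ω \ {s(a, b)}) {v}) b x)

/-- one step of the expansion -/
def St_ONE : Prop := ∀ (V : Type) [Fintype V] (G : SimpleGraph V) (p : ℝ) (x v : V)
  (A : Finset V),
    phA G p x v A = eeA G p x v A + KL G p (fun b C => tau G p b x - phA G p x b C) v A

/-- the expansion to order `n` -/
def St_ITER : Prop := ∀ (V : Type) [Fintype V] (G : SimpleGraph V) (p : ℝ), 0 ≤ p → p ≤ 1 →
  ∀ o x : V, (∀ N, 0 ≤ PI G p o N x) ∧ ∀ n : ℕ,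
    |tau G p o x - ∑ N ∈ Finset.range n,
        (-1) ^ N * (PI G p o N x + ∑ a, PI G p o N a * sig G p a x)| ≤
      PI G p o n x + ∑ a, PI G p o n a * sig G p a x

/-- the edge version of Menger's theorem for two paths -/
def St_MENG : Prop := ∀ (V : Type) (H : SimpleGraph V) (t u : V),
  (∀ e : Sym2 V, (H.deleteEdges {e}).Reachable t u) →
    ∃ q₁ q₂ : H.Walk t u, q₁.IsPath ∧ q₂.IsPath ∧ q₁.edges.Disjoint q₂.edges

/-- the geometry of `E'`: a stem and two branches, both meeting `A` -/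
def St_STRUC : Prop := ∀ (V : Type) [Fintype V] (G : SimpleGraph V) (ω : Set (Sym2 V))
  (A : Finset V) (v u : V), EE G ω A v u →
    ∃ (t : V) (q₀ : (op G ω).Walk v t) (q₁ q₂ : (op G ω).Walk t u),
      q₀.IsPath ∧ q₁.IsPath ∧ q₂.IsPath ∧ q₀.edges.Disjoint q₁.edges ∧
      q₀.edges.Disjoint q₂.edges ∧ q₁.edges.Disjoint q₂.edges ∧
      (∃ z ∈ A, z ∈ q₁.support) ∧ (∃ z ∈ A, z ∈ q₂.support) ∧ (v ∈ A → t = v)

/-- the last level and level zero -/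
def St_EV0 : Prop := ∀ (V : Type) [Fintype V] (G : SimpleGraph V) (ω : Set (Sym2 V))
  (A : Finset V) (v u : V), EE G ω A v u →
    (∃ z ∈ A, ∃ t, Dis G ω [(v, t), (t, z), (t, u), (z, u)]) ∧
    (v ∈ A → Dis G ω [(v, u), (v, u)] ∧
      ∀ y, Con G ω v y → ∃ w, Dis G ω [(v, u), (v, w), (w, u), (w, y)])

/-- the middle levels -/
def St_EV1 : Prop := ∀ (V : Type) [Fintype V] (G : SimpleGraph V) (ω : Set (Sym2 V))
  (A : Finset V) (v u y : V), EE G ω A v u → Con G ω v y →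
    ∃ z ∈ A, ∃ t w, Dis G ω [(v, t), (t, z), (t, w), (z, u), (w, u), (w, y)] ∨
      Dis G ω [(v, w), (w, t), (t, z), (t, u), (z, u), (w, y)]

/-- the coefficients are bounded by diagrams -/
def St_KERN : Prop := ∀ (V : Type) [Fintype V] (G : SimpleGraph V) (p : ℝ), 0 ≤ p → p ≤ 1 →
  ∀ o x : V, PI G p o 0 o = 1 ∧ PI G p o 0 x ≤ tau G p o x ^ 2 ∧
    ∀ N, PI G p o (N + 1) x ≤ PN (tau G p) (sig G p) o N x

/-- row sums -/
def St_R1 : Prop := ∀ (Γ : Type) [Fintype Γ] [AddCommGroup Γ] (τ σ : Γ → ℝ) (η : ℝ),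
  Dia τ σ η → ∀ w u : Γ,
    ∑ w', ∑ u', k1 (kr τ) (kr σ) w u w' u' ≤ 2 * η ∧
    ∑ w', ∑ u', k2 (kr τ) (kr σ) w u w' u' ≤ 2 * η ∧
    ∑ x, GE (kr τ) (kr σ) x w u ≤ 2 * η

/-- weighted row sums, first kernel and last level -/
def St_R2a : Prop := ∀ (Γ : Type) [Fintype Γ] [AddCommGroup Γ] (τ σ ϖ : Γ → ℝ) (η L W : ℝ),
  Dia τ σ η → Wt τ σ ϖ L W → ∀ w u : Γ,
    ∑ w', ∑ u', k1 (kr τ) (kr σ) w u w' u' * ϖ (u' - u) ≤ 4 * L ^ 2 * W ∧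
    ∑ x, GE (kr τ) (kr σ) x w u * ϖ (x - u) ≤ 3 * L * W

/-- weighted row sums, second kernel -/
def St_R2b : Prop := ∀ (Γ : Type) [Fintype Γ] [AddCommGroup Γ] (τ σ ϖ : Γ → ℝ) (η L W : ℝ),
  Dia τ σ η → Wt τ σ ϖ L W → ∀ w u : Γ,
    ∑ w', ∑ u', k2 (kr τ) (kr σ) w u w' u' * ϖ (u' - u) ≤ 5 * L ^ 2 * W

/-- the profile is a super-solution: first kernel, first and last level -/
def St_R3a : Prop := ∀ (Γ : Type) [Fintype Γ] [AddCommGroup Γ] (τ σ ρ β : Γ → ℝ)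
  (η θ A B : ℝ), Dia τ σ η → Sp τ σ ρ β θ A B → ∀ y : Γ,
    (∀ w u, ∑ w', ∑ u', k1 (kr τ) (kr σ) w u w' u' * (ρ (w' - y) * ρ (u' - y)) ≤
      1 / 4 * (ρ (w - y) * ρ (u - y))) ∧
    (∀ w u, GE (kr τ) (kr σ) y w u ≤ A ^ 2 * (ρ (w - y) * ρ (u - y))) ∧
    ∑ w, ∑ u, τ u * τ w * τ (u - w) * (ρ (w - y) * ρ (u - y)) ≤ 9 * ρ y ^ 2

/-- the profile is a super-solution: second kernel -/
def St_R3b : Prop := ∀ (Γ : Type) [Fintype Γ] [AddCommGroup Γ] (τ σ ρ β : Γ → ℝ)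
  (η θ A B : ℝ), Dia τ σ η → Sp τ σ ρ β θ A B → ∀ y w u : Γ,
    ∑ w', ∑ u', k2 (kr τ) (kr σ) w u w' u' * (ρ (w' - y) * ρ (u' - y)) ≤
      1 / 4 * (ρ (w - y) * ρ (u - y))

/-- the sums of the diagrams -/
def St_C12 : Prop := ∀ (Γ : Type) [Fintype Γ] [AddCommGroup Γ] (τ σ : Γ → ℝ) (η : ℝ),
  Dia τ σ η → ∀ N : ℕ, ∑ x, PN (kr τ) (kr σ) 0 N x ≤ 4 * η * (1 / 2) ^ N ∧
    ∀ (ϖ : Γ → ℝ) (L W : ℝ), Wt τ σ ϖ L W →
      ∑ x, ϖ x * PN (kr τ) (kr σ) 0 N x ≤ 5 * L ^ 3 * W * (1 / 2) ^ N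

/-- the pointwise bound on the diagrams -/
def St_C3 : Prop := ∀ (Γ : Type) [Fintype Γ] [AddCommGroup Γ] (τ σ ρ β : Γ → ℝ)
  (η θ A B : ℝ), Dia τ σ η → Sp τ σ ρ β θ A B → ∀ (N : ℕ) (y : Γ),
    PN (kr τ) (kr σ) 0 N y ≤ 9 * A ^ 2 * ρ y ^ 2 * (1 / 2) ^ N

/-- summing the series: no probability -/
def St_SER : Prop := ∀ (Γ : Type) [Fintype Γ] [AddCommGroup Γ] (τ σ : Γ → ℝ) (η : ℝ)
  (P : ℕ → Γ → ℝ), Dia τ σ η → (∀ x, τ x ≤ dl x + σ x) → (∀ N x, 0 ≤ P N x) → P 0 0 = 1 →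
    (∀ x, P 0 x ≤ τ x ^ 2) → (∀ N x, P (N + 1) x ≤ PN (kr τ) (kr σ) 0 N x) →
    (∀ n x, |τ x - ∑ N ∈ Finset.range n, (-1) ^ N * (P N x + cv (P N) σ x)| ≤
      P n x + cv (P n) σ x) → ∃ g, LaceOut τ σ η g

/-- the output of parts A and C -/
def St_LACE : Prop := ∀ (d M : ℕ) [NeZero M] (p η : ℝ), 0 ≤ p → p ≤ 1 → η ≤ 1 / 1000 →
  (∀ x, cv (sigT d M p) (cv (tauT d M p) (tauT d M p)) x ≤ η) →
    ∃ g, LaceOut (tauT d M p) (sigT d M p) η g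

end Pool.Agent.HD
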