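import Pool.Agent.Lib.HD.DDefs

/-! Blueprint of the Fourier part (part D). Block `X` proves `theorem t_x : T_X` in
`Lib/HD/D_X.lean`. -/

open Finset Classical

namespace Pool.Agent.HD

open Pool.Agent.Lib.MP_81a99a_pr

/-- first step, and the symmetries of `τ` and of `g` -/
def St_GINV : Prop := ∀ (d M : ℕ) [NeZero M] (p : ℝ), 0 ≤ p → p ≤ 1 →
  (∀ x, tauT d M p x ≤ dl x + sigT d M p x) ∧ Inv (tauT d M p) ∧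
    ∀ g : T d M → ℝ, (∀ x, tauT d M p x = g x + cv g (sigT d M p) x) → Inv g

/-- averages of negative powers -/
def St_AVG : Prop :=
  (∃ C : ℝ, ∀ (d M : ℕ) [NeZero M] (m : ℝ), 48 ≤ d → Ms M m →
    av (fun k : T d M => 1 / rr m k ^ 24) ≤ C) ∧
  ∀ d : ℕ, 1 ≤ d → ∃ C : ℝ, ∀ (M : ℕ) [NeZero M] (m : ℝ), Ms M m → ∀ s, s + 1 ≤ d →
    av (fun k : T d M => 1 / rr m k ^ s) ≤ C

/-- the infrared bound makes the diagrams small -/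
def St_DIA : Prop := ∃ C : ℝ, ∀ (d M : ℕ) [NeZero M] (p m : ℝ), 48 ≤ d → 3 ≤ M → 0 ≤ p → p ≤ 1 →
  d * p ≤ 1 → Ms M m → (∀ k, ‖ft (tauT d M p) k‖ * rr m k ^ 2 ≤ 10) →
    (∀ x, cv (sigT d M p) (cv (tauT d M p) (tauT d M p)) x ≤ C / √(d : ℝ)) ∧
    Wt (tauT d M p) (sigT d M p) (fun x => (n1 x : ℝ) ^ 2) 2 (C / √(d : ℝ))

/-- the improved infrared bound -/
def St_IMP : Prop := ∀ (d M : ℕ) [NeZero M] (p : ℝ) (g : T d M → ℝ), 1 ≤ d → 3 ≤ M → 0 ≤ p →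
  p ≤ 1 → (∀ x, tauT d M p x = g x + cv g (sigT d M p) x) → Inv g →
  ∑ x, |g x - dl x| ≤ 1 / 100 → ∑ x, (n1 x : ℝ) ^ 2 * |g x - dl x| ≤ 1 / 100 →
    d * p ≤ 3 / 4 ∧ ∀ k, ‖ft (tauT d M p) k‖ * rr (1 / chiT d M p) k ^ 2 ≤ 8

/-- the bootstrap -/
def St_IR : Prop := ∃ d₀ : ℕ, ∀ (d M : ℕ) [NeZero M] (p : ℝ), d₀ ≤ d → Odd M → 3 ≤ M → 0 ≤ p →
  p ≤ 1 → chiT d M p ≤ (M : ℝ) ^ 2 → ∃ g, IR d M p g

/-- convolution with a short range kernel -/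
def St_CONV : Prop := ∀ (n : ℕ) (C : ℝ), ∃ C' : ℝ, ∀ (d M : ℕ) [NeZero M] (h₀ h : T d M → ℝ),
  (∀ x, h₀ x ≠ 0 → ∀ j, (x j).valMinAbs.natAbs ≤ 1) → ∑ x, |h₀ x| ≤ C →
    (Mo h n C → Mo (cv h₀ h) n C') ∧ (Mo2 h n C → Mo2 (cv h₀ h) n C')

/-- even kernels give symbols of order two -/
def St_SYM2 : Prop := ∀ (d n : ℕ) (C : ℝ), 1 ≤ d → ∃ C' : ℝ, ∀ (M : ℕ) [NeZero M] (m : ℝ)
  (j : Fin d) (h : T d M → ℝ), Ms M m → (∀ x, h (-x) = h x) → |∑ x, h x| ≤ C * m →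
  ∑ x, (n1 x : ℝ) ^ 2 * |h x| ≤ C → Mo h n C → Sy m j (ft h) 2 0 n C'

/-- invariant kernels with two vanishing moments give symbols of order four -/
def St_SYM4 : Prop := ∀ (d n : ℕ) (C : ℝ), 1 ≤ d → ∃ C' : ℝ, ∀ (M : ℕ) [NeZero M] (m : ℝ)
  (j : Fin d) (h : T d M → ℝ), Odd M → Ms M m → Inv h → ∑ x, h x = 0 → ∑ x, n2 x * h x = 0 →
  ∑ x, (n1 x : ℝ) ^ 4 * |h x| ≤ C → Mo h n C → Sy m j (ft h) 4 0 n C'

/-- products of symbols -/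
def St_PROD : Prop := ∀ (n s s' : ℕ) (C : ℝ), ∃ C' : ℝ, ∀ (d M : ℕ) [NeZero M] (m : ℝ)
  (j : Fin d) (F G : T d M → ℂ), Ms M m → Sy m j F s 0 n C → Sy m j G s' 0 n C →
    Sy m j (fun k => F k * G k) (s + s') 0 n C'

/-- quotients of symbols -/
def St_QPT : Prop := ∀ (n s t : ℕ) (C c : ℝ), 0 < c → ∃ C' : ℝ, ∀ (d M : ℕ) [NeZero M] (m : ℝ)
  (j : Fin d) (U E f : T d M → ℂ), Ms M m → (∀ k, f k * U k = E k) →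
  (∀ k, c * rr m k ^ s ≤ ‖U k‖) → Sy m j U s 0 n C → Sy m j E s t n C → Sy m j f 0 t n C'

/-- the top difference of the quotient is integrable -/
def St_QUOT : Prop := ∀ (d n : ℕ) (C c : ℝ), 30 ≤ d → d ≤ n + 10 → 0 < c → ∃ C' : ℝ,
  ∀ (M : ℕ) [NeZero M] (m : ℝ) (j : Fin d) (U E f : T d M → ℂ), Ms M m →
  (∀ k, f k * U k = E k) → (∀ k, c * rr m k ^ 4 ≤ ‖U k‖) → Sy m j U 4 0 n C → Sy m j E 4 0 n C →
  L2 j U (d - 1) C → L2 j E (d - 1) C → av (fun k => ‖(DF j)^[d - 1] f k‖) ≤ C'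

/-- the symbols of `F` and of `τ` -/
def St_FSY : Prop := ∀ (d n : ℕ) (C : ℝ), 1 ≤ d → ∃ C' : ℝ, ∀ (M : ℕ) [NeZero M] (p : ℝ)
  (g : T d M → ℝ), IR d M p g → Mo (fun x => g x - dl x) n C →
    (∀ k, ft (tauT d M p) k * ft (FF p g) k = ft g k) ∧
    (∀ k, 1 / 20 * rr (1 / chiT d M p) k ^ 2 ≤ ‖ft (FF p g) k‖) ∧
    ∀ j, Sy (1 / chiT d M p) j (ft (FF p g)) 2 0 n C' ∧
      Sy (1 / chiT d M p) j (ft (tauT d M p)) 0 2 n C'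

/-- moments of the expansion coefficient, and a first pointwise bound -/
def St_MOM : Prop := ∀ d : ℕ, 12 ≤ d → ∃ (n : ℕ) (C : ℝ), d ≤ n + 10 ∧ ∀ (M : ℕ) [NeZero M]
  (p : ℝ) (g : T d M → ℝ), IR d M p g → Mo (fun x => g x - dl x) n C ∧
    ∀ x, tauT d M p x * (1 + (rad x : ℝ)) ^ n ≤ C

/-- a convergent sum -/
def St_ZETA : Prop := ∀ d : ℕ, ∃ C : ℝ, ∀ (M : ℕ) [NeZero M],
  ∑ x : T d M, 1 / (1 + (rad x : ℝ)) ^ (d + 1) ≤ C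

/-- pointwise decay of the expansion coefficient gives weighted square sums -/
def St_SUP : Prop := ∀ (d n : ℕ) (A : ℝ), 60 ≤ d → d ≤ n + 10 → ∃ C : ℝ, ∀ (M : ℕ) [NeZero M]
  (p : ℝ) (g : T d M → ℝ), IR d M p g → (∀ x, tauT d M p x * (1 + (rad x : ℝ)) ^ n ≤ A) →
    Mo2 (fun x => g x - dl x) (d - 1) C

/-- upper bound for the lazy walk on the cycle -/
def St_LWU : Prop := ∃ C c : ℝ, 0 < c ∧ ∀ (M : ℕ) [NeZero M], 3 ≤ M → ∀ (n : ℕ) (a : ZMod M),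
  0 ≤ lw n a ∧ lw n a ≤ C * (1 / √(n + 1 : ℝ) + 1 / M) *
    Real.exp (-(c * ((a.valMinAbs : ℝ) ^ 2 / (n + 1))))

/-- lower bound for the lazy walk on the cycle -/
def St_LWL : Prop := ∃ c K : ℝ, 0 < c ∧ ∀ (M : ℕ) [NeZero M], 3 ≤ M → ∀ (n : ℕ) (a : ZMod M),
  K * (a.valMinAbs : ℝ) ^ 2 ≤ n → c / √(n + 1 : ℝ) ≤ lw n a

/-- the Green function of the product walk -/
def St_GRN : Prop := ∀ d : ℕ, 3 ≤ d → ∃ c C K : ℝ, 0 < c ∧ ∀ (M : ℕ) [NeZero M] (μ : ℝ), 3 ≤ M →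
  0 ≤ μ → 1 ≤ (1 - μ) * (M : ℝ) ^ 2 → ∃ G : T d M → ℝ, (∀ x, cv (AA μ) G x = dl x) ∧
    ∀ x, x ≠ 0 → 0 ≤ G x ∧ G x * (rad x : ℝ) ^ (d - 2) ≤ C ∧
      (K * (rad x : ℝ) ^ 2 * (1 - μ) ≤ 1 → c ≤ G x * (rad x : ℝ) ^ (d - 2))

/-- the reference kernel -/
def St_REF : Prop := ∀ (d M : ℕ) [NeZero M], 3 ≤ M →
  (Inv (LT : T d M → ℝ) ∧ ∑ x : T d M, LT x = 1 ∧ ∑ x : T d M, n2 x * LT x = d / 2 ∧
    ∀ x : T d M, 0 ≤ LT x ∧ (LT x ≠ 0 → ∀ j, (x j).valMinAbs.natAbs ≤ 1)) ∧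
  ∀ m μ : ℝ, 1 ≤ d → 0 ≤ m → 1 / 2 ≤ μ → m ≤ 1 - μ →
    ∀ k : T d M, 1 / 4 * rr m k ^ 2 ≤ ‖ft (AA μ) k‖

/-- the choice of the two parameters -/
def St_LAM : Prop := ∀ (d M : ℕ) [NeZero M] (p : ℝ) (g : T d M → ℝ), 4 ≤ d → IR d M p g →
  2 * d ≤ chiT d M p → ∃ lm μ : ℝ, 1 ≤ lm ∧ lm ≤ d ∧ 1 - μ = lm / chiT d M p ∧
    Inv (ER p lm μ g) ∧ ∑ x, ER p lm μ g x = 0 ∧ ∑ x, n2 x * ER p lm μ g x = 0

/-- the remainder is small -/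
def St_REM : Prop := ∀ d : ℕ, 60 ≤ d → ∃ C : ℝ, ∀ (M : ℕ) [NeZero M] (p lm μ : ℝ)
  (g G : T d M → ℝ), IR d M p g → 2 * d ≤ chiT d M p → 1 ≤ lm → lm ≤ d →
  1 - μ = lm / chiT d M p → Inv (ER p lm μ g) → ∑ x, ER p lm μ g x = 0 →
  ∑ x, n2 x * ER p lm μ g x = 0 → (∀ x, cv (AA μ) G x = dl x) →
    ∀ x, |tauT d M p x - lm * G x| * (rad x : ℝ) ^ (d - 1) ≤ C

/-- the output of part D -/
def St_TB : Prop := ∃ d₀ : ℕ, ∀ d, d₀ ≤ d → TorusBound d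

def T_GINV : Prop := St_GINV
def T_AVG : Prop := St_AVG
def T_DIA : Prop := St_PATH → St_GINV → St_AVG → St_DIA
def T_IMP : Prop := St_IMP
def T_IR : Prop := St_LACE → St_GINV → St_DIA → St_IMP → St_IR
def T_CONV : Prop := St_CONV
def T_SYM2 : Prop := St_SYM2
def T_SYM4 : Prop := St_SYM4
def T_PROD : Prop := St_PROD
def T_QPT : Prop := St_QPT
def T_QUOT : Prop := St_AVG → St_QPT → St_QUOT
def T_FSY : Prop := St_CONV → St_SYM2 → St_QPT → St_FSY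
def T_MOM : Prop := St_PATH → St_GINV → St_AVG → St_FSY → St_MOM
def T_ZETA : Prop := St_ZETA
def T_SUP : Prop := St_GINV → St_ZETA → St_SUP
def T_LWU : Prop := St_LWU
def T_LWL : Prop := St_LWL
def T_GRN : Prop := St_LWU → St_LWL → St_GRN
def T_REF : Prop := St_REF
def T_LAM : Prop := St_REF → St_LAM
def T_REM : Prop := St_CONV → St_SYM2 → St_SYM4 → St_PROD → St_QUOT → St_FSY → St_MOM → St_SUP →
  St_REF → St_REM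
def T_TB : Prop := St_IR → St_GRN → St_LAM → St_REM → St_TB

theorem tb_of (hL : St_LACE) (hP : St_PATH) (a1 : T_GINV) (a2 : T_AVG) (a3 : T_DIA) (a4 : T_IMP)
    (a5 : T_IR) (a6 : T_CONV) (a7 : T_SYM2) (a8 : T_SYM4) (a9 : T_PROD) (b1 : T_QPT)
    (b2 : T_QUOT) (b3 : T_FSY) (b4 : T_MOM) (b5 : T_ZETA) (b6 : T_SUP) (b7 : T_LWU) (b8 : T_LWL)
    (b9 : T_GRN) (c1 : T_REF) (c2 : T_LAM) (c3 : T_REM) (c4 : T_TB) : St_TB :=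
  c4 (a5 hL a1 (a3 hP a1 a2) a4) (b9 b7 b8) (c2 c1)
    (c3 a6 a7 a8 a9 (b2 a2 b1) (b3 a6 a7 b1) (b4 hP a1 a2 (b3 a6 a7 b1)) (b6 a1 b5) c1)

end Pool.Agent.HD
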