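import Pool.Agent.Lib.HD.Perc

/-! Boxes of the lattice, comparison with the torus and with the infinite lattice. -/

open Finset Classical MeasureTheory ProbabilityTheory Filter Topology

set_option linter.unusedSectionVars false

namespace Pool.Agent.HD

open Pool.Agent.Lib.MP_81a99a_pr

lemma lift_reach {V V' : Type} {G' : SimpleGraph V'} (f : V → V') {C : Finset V} {o : V}
    (ho : o ∈ C) (h : ∀ a ∈ C, ∀ z, G'.Adj (f a) z → ∃ b ∈ C, f b = z) {z : V'}
    (hz : G'.Reachable (f o) z) : ∃ b ∈ C, f b = z := by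
  rw [SimpleGraph.reachable_iff_reflTransGen] at hz
  induction hz with
  | refl => exact ⟨o, ho, rfl⟩
  | tail _ h2 ih =>
    obtain ⟨b, hb, rfl⟩ := ih
    exact h b hb _ h2

lemma exm_le {V : Type} [Fintype V] {G : SimpleGraph V} {D : ℕ} (hD : DegLe G D) {p : ℝ}
    (h0 : 0 ≤ p) (h1 : p ≤ 1) {S B : Finset V} (o : V) (hB : ∀ b ∈ exits G S, b.1 ∈ B) :
    exm G S p o ≤ D * ∑ a ∈ B, tau G p o a := by
  unfold exm
  rw [← Finset.sum_fiberwise_of_maps_to (g := Prod.fst) hB, Finset.mul_sum]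
  refine Finset.sum_le_sum fun a _ => ?_
  have c : ((exits G S).filter fun b => b.1 = a).card ≤ D := by
    refine le_trans (Finset.card_le_card_of_injOn Prod.snd ?_ ?_) (hD a)
    · intro b hb
      rw [Finset.mem_coe, Finset.mem_filter] at hb
      simpa [← hb.2] using (mem_exits.1 hb.1).2.2
    · intro b hb c hc h
      rw [Finset.mem_coe, Finset.mem_filter] at hb hc
      exact Prod.ext (hb.2.trans hc.2.symm) h
  refine le_trans (Finset.sum_le_card_nsmul _ _ (tau G p o a) fun b hb => ?_) ?_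
  · rw [(Finset.mem_filter.1 hb).2]
    exact tau_mono_graph h0 h1 res_le
  · rw [nsmul_eq_mul]
    exact mul_le_mul_of_nonneg_right (by exact_mod_cast c) (tau_nonneg h0 h1)

/-- sup norm on the lattice -/
def nr {d : ℕ} (x : Fin d → ℤ) : ℕ := Finset.univ.sup fun i => (x i).natAbs

/-- vertices of the box -/
abbrev Bx (d R : ℕ) : Type := Fin d → Set.Icc (-(R : ℤ)) R

def io {d R : ℕ} (a : Bx d R) : Fin d → ℤ := fun i => a i

def HB (d R : ℕ) : SimpleGraph (Bx d R) := (lattice d).comap io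

def oB (d R : ℕ) : Bx d R := fun _ => ⟨0, by simp⟩

def pr {d : ℕ} (M : ℕ) (x : Fin d → ℤ) : T d M := fun i => (x i : ZMod M)

variable {d R M : ℕ} {p : ℝ}

lemma nr_le {x : Fin d → ℤ} : nr x ≤ R ↔ ∀ i, (x i).natAbs ≤ R := by simp [nr]

lemma le_nr (x : Fin d → ℤ) (i : Fin d) : (x i).natAbs ≤ nr x := nr_le.1 le_rfl i

lemma nr_zero : nr (0 : Fin d → ℤ) = 0 := Nat.le_zero.1 (nr_le.2 (by simp))

lemma nr_pos {x : Fin d → ℤ} (h : x ≠ 0) : 1 ≤ nr x := by
  by_contra h2
  refine h (funext fun i => ?_)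
  have := le_nr x i
  simp only [Pi.zero_apply]
  omega

lemma norm_eq_nr (x : Fin d → ℤ) : ‖x‖ = nr x := by
  have e : ∀ n : ℤ, ‖n‖ = n.natAbs := fun n => by
    rw [Int.norm_eq_abs, Nat.cast_natAbs, Int.cast_abs]
  refine le_antisymm ((pi_norm_le_iff_of_nonneg (Nat.cast_nonneg _)).2 fun i => ?_) ?_
  · rw [e]
    exact_mod_cast le_nr x i
  · have : nr x ≤ ⌊‖x‖⌋₊ := nr_le.2 fun i => Nat.le_floor (by
      rw [← e]; exact norm_le_pi_norm x i)
    exact le_trans (by exact_mod_cast this) (Nat.floor_le (norm_nonneg x))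

lemma io_inj : Function.Injective (io : Bx d R → Fin d → ℤ) :=
  fun _ _ h => funext fun i => Subtype.ext (congrFun h i)

lemma io_oB : io (oB d R) = 0 := rfl

lemma nr_io (a : Bx d R) : nr (io a) ≤ R := nr_le.2 fun i => by
  have := (a i).2
  simp only [Set.mem_Icc] at this
  simp only [io]
  omega

lemma exists_io {x : Fin d → ℤ} (h : nr x ≤ R) : ∃ a : Bx d R, io a = x :=
  ⟨fun i => ⟨x i, by have := nr_le.1 h i; simp only [Set.mem_Icc]; omega⟩, rfl⟩

lemma nr_adj {x y : Fin d → ℤ} (h : (lattice d).Adj x y) : nr y ≤ nr x + 1 := nr_le.2 fun l => by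
  have := le_nr x l
  rcases (lattice_adj.1 h).2 with ⟨i, h⟩ | ⟨i, h⟩
  · have h2 := congrFun h l
    by_cases hl : l = i
    · subst hl; simp at h2; omega
    · simp [hl] at h2; omega
  · have h2 := congrFun h l
    by_cases hl : l = i
    · subst hl; simp at h2; omega
    · simp [hl] at h2; omega

lemma pr_add_single (x : Fin d → ℤ) (i : Fin d) :
    pr M (x + Pi.single i 1) = pr M x + Pi.single i 1 := by
  funext l
  by_cases hl : l = i
  · subst hl; simp [pr]
  · simp [pr, hl]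

lemma pr_zero : pr M (0 : Fin d → ℤ) = 0 := by funext i; simp [pr]

lemma valMinAbs_pr [NeZero M] {x : Fin d → ℤ} (h : 2 * nr x < M) (i : Fin d) :
    (pr M x i).valMinAbs = x i := by
  rw [ZMod.valMinAbs_spec]
  have := le_nr x i
  refine ⟨rfl, ?_⟩
  simp only [Set.mem_Ioc]
  omega

lemma rad_pr [NeZero M] {x : Fin d → ℤ} (h : 2 * nr x < M) : rad (pr M x) = nr x := by
  simp only [rad, nr, valMinAbs_pr h]

/-- the projection of a box to the torus -/
def pb (M : ℕ) (a : Bx d R) : T d M := pr M (io a)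

lemma pb_oB : pb M (oB d R) = 0 := pr_zero

lemma pb_inj [NeZero M] (h : 2 * R < M) : Function.Injective (pb M : Bx d R → T d M) := by
  intro a b hab
  refine io_inj (funext fun i => ?_)
  have := nr_io a
  have := nr_io b
  rw [← valMinAbs_pr (M := M) (x := io a) (by omega), ← valMinAbs_pr (M := M) (x := io b) (by omega)]
  exact congrArg (fun x => (x i).valMinAbs) hab

lemma rad_pb [NeZero M] (h : 2 * R < M) (a : Bx d R) : rad (pb M a) = nr (io a) :=
  rad_pr (by have := nr_io a; omega)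

lemma pb_adj [NeZero M] (h : 2 * R < M) (a b : Bx d R) (hab : (HB d R).Adj a b) :
    (torus d M).Adj (pb M a) (pb M b) := by
  refine torus_adj.2 ⟨fun h2 => hab.ne (pb_inj h h2), ?_⟩
  rcases (lattice_adj.1 hab).2 with ⟨i, h⟩ | ⟨i, h⟩
  · exact Or.inl ⟨i, by rw [pb, h, pr_add_single]; rfl⟩
  · exact Or.inr ⟨i, by rw [pb, h, pr_add_single]; rfl⟩

lemma lift_adj {a : Bx d R} (ha : nr (io a) < R) {y : Fin d → ℤ} (h : (lattice d).Adj (io a) y) :
    ∃ b, (HB d R).Adj a b ∧ io b = y := by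
  obtain ⟨b, rfl⟩ := exists_io (R := R) (x := y) (by have := nr_adj h; omega)
  exact ⟨b, h, rfl⟩

lemma lift_adj_torus {a : Bx d R} (ha : nr (io a) < R) {z : T d M}
    (h : (torus d M).Adj (pb M a) z) : ∃ b, (HB d R).Adj a b ∧ pb M b = z := by
  have key : ∀ y, pr M y = z → (∃ i, y = io a + Pi.single i 1) ∨ (∃ i, io a = y + Pi.single i 1) →
      ∃ b, (HB d R).Adj a b ∧ pb M b = z := by
    intro y hy h2
    obtain ⟨b, hb, rfl⟩ := lift_adj ha (lattice_adj.2 ⟨fun h3 => h.ne (by rw [pb, h3, hy]), h2⟩)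
    exact ⟨b, hb, hy⟩
  rcases (torus_adj.1 h).2 with ⟨i, h⟩ | ⟨i, h⟩
  · exact key (io a + Pi.single i 1) (by rw [pr_add_single, h]; rfl) (Or.inl ⟨i, rfl⟩)
  · refine key (io a - Pi.single i 1) ?_ (Or.inr ⟨i, by simp⟩)
    have := pr_add_single (M := M) (io a - Pi.single i 1) i
    rw [sub_add_cancel] at this
    exact add_right_cancel (this.symm.trans h)

lemma HB_deg : DegLe (HB d R) (2 * d) := by
  intro a
  have h : 2 * R < 2 * R + 1 := by omega
  refine le_trans (Finset.card_le_card_of_injOn (pb (2 * R + 1)) ?_ (pb_inj h).injOn)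
    (torus_deg (pb (2 * R + 1) a))
  intro b hb
  simp only [Finset.coe_filter, Finset.mem_univ, true_and, Set.mem_ofPred_eq] at hb ⊢
  exact pb_adj h a b hb

/-- the one-arm probability -/
noncomputable def arm (d R : ℕ) (p : ℝ) : ℝ :=
  Ex p fun η => ind (∃ a ∈ cl (HB d R) η {oB d R}, nr (io a) = R)

lemma tau_box_le [NeZero M] (h0 : 0 ≤ p) (h1 : p ≤ 1) (h : 2 * R < M) (a : Bx d R) :
    tau (HB d R) p (oB d R) a ≤ tauT d M p (pb M a) := by
  have := tau_le_map (x := oB d R) (y := a) h0 h1 (pb_inj h) (pb_adj h)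
  rwa [pb_oB] at this

lemma tauT_le_box [NeZero M] (h0 : 0 ≤ p) (h1 : p ≤ 1) (h : 2 * R < M) (a : Bx d R) :
    tauT d M p (pb M a) ≤ tau (HB d R) p (oB d R) a + arm d R p := by
  unfold arm tauT tau
  rw [← Ex_add, ← Ex_pull (Sym2.map.injective (pb_inj h)) p fun η =>
    ind (a ∈ cl (HB d R) η {oB d R}) + ind (∃ a ∈ cl (HB d R) η {oB d R}, nr (io a) = R)]
  refine Ex_mono h0 h1 fun ω => ?_
  set C := cl (HB d R) (Sym2.map (pb M) ⁻¹' ω) {oB d R} with hC
  by_cases hA : ∃ a ∈ C, nr (io a) = R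
  · rw [ind_pos hA]
    linarith [ind_le_one (pb M a ∈ cl (torus d M) ω {0}), ind_nonneg (a ∈ C)]
  rw [ind_neg hA, add_zero]
  refine ind_mono fun hω => ?_
  obtain ⟨b, hb, hba⟩ := lift_reach (G' := op (torus d M) ω) (pb M) (C := C) self_mem_cl
    (fun c hc z hz => by
      obtain ⟨b, hb, rfl⟩ := lift_adj_torus
        (lt_of_le_of_ne (nr_io c) fun h2 => hA ⟨c, hc, h2⟩) (op_adj.1 hz).1
      exact ⟨b, cl_closed hc hb (op_adj.1 hz).2, rfl⟩)
    (z := pb M a) (by rw [pb_oB]; exact mem_cl_single.1 hω)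
  rwa [← pb_inj h hba]

lemma sum_tau_torus [NeZero M] (h0 : 0 ≤ p) (h1 : p ≤ 1) (z : T d M) :
    ∑ y, tau (torus d M) p z y = chiT d M p := by
  let φ : torus d M ≃g torus d M := ⟨Equiv.addLeft z, fun {a b} => by
    simp only [torus_adj, Equiv.coe_addLeft, add_assoc, add_right_inj, ne_eq]⟩
  refine (Fintype.sum_equiv φ.toEquiv _ _ fun x => ?_).symm
  have := tau_iso (x := 0) (y := x) h0 h1 φ
  rw [show φ 0 = z from add_zero z] at this
  exact this.symm

lemma exm_torus_le [NeZero M] (h0 : 0 ≤ p) (h1 : p ≤ 1) (h : 2 * R < M) {S : Finset (Bx d R)}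
    (ho : oB d R ∈ S) (hS : ∀ a ∈ S, nr (io a) < R) :
    exm (torus d M) (S.image (pb M)) p 0 ≤ exm (HB d R) S p (oB d R) := by
  have a1 : exits (torus d M) (S.image (pb M)) ⊆
      (exits (HB d R) S).image fun b => (pb M b.1, pb M b.2) := by
    intro b hb
    obtain ⟨b1, b2, b3⟩ := mem_exits.1 hb
    obtain ⟨a, ha, e⟩ := Finset.mem_image.1 b1
    obtain ⟨c, hc, e2⟩ := lift_adj_torus (hS a ha) (e ▸ b3)
    exact Finset.mem_image.2 ⟨(a, c), mem_exits.2 ⟨ha, fun h3 =>
      b2 (e2 ▸ Finset.mem_image_of_mem _ h3), hc⟩, Prod.ext e e2⟩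
  unfold exm
  refine (Finset.sum_le_sum_of_subset_of_nonneg a1 fun _ _ _ => tau_nonneg h0 h1).trans ?_
  rw [Finset.sum_image fun a _ b _ e =>
    Prod.ext (pb_inj h (congrArg Prod.fst e)) (pb_inj h (congrArg Prod.snd e))]
  refine Finset.sum_le_sum fun b _ => ?_
  unfold tau
  rw [← Ex_pull (Sym2.map.injective (pb_inj h)) p fun η =>
    ind (b.1 ∈ cl (res (HB d R) S) η {oB d R})]
  refine Ex_mono h0 h1 fun ω => ind_mono fun hω => ?_
  obtain ⟨c, hc, e⟩ := lift_reach (G' := op (res (torus d M) (S.image (pb M))) ω) (pb M)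
    (C := cl (res (HB d R) S) (Sym2.map (pb M) ⁻¹' ω) {oB d R}) self_mem_cl
    (fun c hc z hz => by
      have hcS := cl_res_subset ho hc
      obtain ⟨h2, h3⟩ := op_adj.1 hz
      obtain ⟨b, hb, rfl⟩ := lift_adj_torus (hS c hcS) h2.1
      obtain ⟨b', hb', e⟩ := Finset.mem_image.1 h2.2.2
      exact ⟨b, cl_closed hc ⟨hb, hcS, pb_inj h e ▸ hb'⟩ h3, rfl⟩)
    (z := pb M b.1) (by rw [pb_oB]; exact mem_cl_single.1 hω)
  rwa [← pb_inj h e]

/-- some finite set has exit mass below one -/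
def Sub (d : ℕ) (p : ℝ) : Prop := ∃ (R : ℕ) (S : Finset (Bx d R)), oB d R ∈ S ∧
  (∀ a ∈ S, nr (io a) < R) ∧ p * exm (HB d R) S p (oB d R) < 1

lemma Sub.mono {q : ℝ} (h : Sub d q) (h0 : 0 ≤ p) (hpq : p ≤ q) (h1 : q ≤ 1) : Sub d p := by
  obtain ⟨R, S, a, b, c⟩ := h
  exact ⟨R, S, a, b, lt_of_le_of_lt (mul_le_mul hpq (exm_mono_p h0 hpq h1)
    (exm_nonneg h0 (hpq.trans h1)) (h0.trans hpq)) c⟩

lemma Sub.chi (h : Sub d p) (h0 : 0 ≤ p) (h1 : p ≤ 1) :
    ∃ (C : ℝ) (M0 : ℕ), ∀ (M : ℕ) [NeZero M], M0 ≤ M → chiT d M p ≤ C := by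
  obtain ⟨R, S, a, b, c⟩ := h
  refine ⟨S.card / (1 - p * exm (HB d R) S p (oB d R)), 2 * R + 1, fun M _ hM => ?_⟩
  have hM' : 2 * R < M := hM
  have ho : (0 : T d M) ∈ S.image (pb M) := Finset.mem_image.2 ⟨_, a, pb_oB⟩
  have a1 := Finset.sum_le_sum (s := Finset.univ) fun y _ =>
    simon_lieb (G := torus d M) (y := y) h0 h1 ho
  rw [Finset.sum_add_distrib, ← Finset.mul_sum, Finset.sum_comm] at a1
  simp only [← Finset.mul_sum, sum_tau_torus h0 h1] at a1
  rw [← Finset.sum_mul] at a1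
  have a2 : ∑ y, tau (res (torus d M) (S.image (pb M))) p 0 y ≤ S.card := by
    rw [← Finset.sum_subset (Finset.subset_univ (S.image (pb M)))]
    · refine (Finset.sum_le_card_nsmul _ _ 1 fun _ _ => tau_le_one h0 h1).trans ?_
      rw [nsmul_eq_mul, mul_one]
      exact_mod_cast Finset.card_image_le
    · intro y _ hy
      unfold tau
      rw [Ex_congr fun ω => ind_neg fun h => hy (cl_res_subset ho h), Ex_const]
  have a3 := exm_torus_le h0 h1 hM' a b
  have a4 : 0 ≤ chiT d M p := Finset.sum_nonneg fun _ _ => tau_nonneg h0 h1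
  have a5 : p * (exm (torus d M) (S.image (pb M)) p 0 * chiT d M p) ≤
      p * (exm (HB d R) S p (oB d R) * chiT d M p) := by gcongr
  rw [le_div_iff₀ (by linarith)]
  unfold exm at a5 ⊢
  nlinarith

lemma arm_le [NeZero M] (h0 : 0 ≤ p) (h1 : p ≤ 1) (h : 2 * R < M) :
    arm d R p ≤ ∑ x ∈ Finset.univ.filter fun x : T d M => rad x = R, tauT d M p x := by
  set B := Finset.univ.filter fun a : Bx d R => nr (io a) = R with hB
  have a1 : arm d R p ≤ ∑ a ∈ B, tau (HB d R) p (oB d R) a := by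
    unfold arm tau
    rw [← Ex_sum]
    refine Ex_mono h0 h1 fun η => ?_
    by_cases hA : ∃ a ∈ cl (HB d R) η {oB d R}, nr (io a) = R
    · rw [ind_pos hA]
      obtain ⟨a, ha, h2⟩ := hA
      have := Finset.single_le_sum (f := fun a => ind (a ∈ cl (HB d R) η {oB d R}))
        (fun _ _ => ind_nonneg _) (show a ∈ B by simpa [hB] using h2)
      rwa [ind_pos ha] at this
    · rw [ind_neg hA]; exact Finset.sum_nonneg fun _ _ => ind_nonneg _
  refine a1.trans ((Finset.sum_le_sum fun a _ => tau_box_le h0 h1 h a).trans ?_)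
  rw [← Finset.sum_image (g := pb M) (f := tauT d M p) (pb_inj h).injOn]
  refine Finset.sum_le_sum_of_subset_of_nonneg ?_ fun _ _ _ => tau_nonneg h0 h1
  intro x hx
  obtain ⟨a, ha, rfl⟩ := Finset.mem_image.1 hx
  simpa [hB, rad_pb h] using ha

lemma sum_arm_le [NeZero M] (h0 : 0 ≤ p) (h1 : p ≤ 1) {N : ℕ} (h : 2 * N < M) :
    ∑ R ∈ range N, arm d R p ≤ chiT d M p := by
  refine (Finset.sum_le_sum fun R hR =>
    arm_le (M := M) h0 h1 (by have := Finset.mem_range.1 hR; omega)).trans ?_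
  rw [Finset.sum_fiberwise_eq_sum_filter]
  exact Finset.sum_le_sum_of_subset_of_nonneg (Finset.subset_univ _)
    fun _ _ _ => tau_nonneg h0 h1

lemma sub_small (h0 : 0 ≤ p) (h1 : p ≤ 1) (h : p * (2 * d) < 1) : Sub d p := by
  refine ⟨1, {oB d 1}, by simp, by simp [io_oB, nr_zero], lt_of_le_of_lt ?_ h⟩
  have := exm_le (HB_deg (d := d) (R := 1)) h0 h1 (S := {oB d 1}) (B := {oB d 1}) (oB d 1)
    fun b hb => (mem_exits.1 hb).1
  rw [Finset.sum_singleton, tau_self] at this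
  push_cast at this
  nlinarith

lemma chi_box_of_not_sub (h0 : 0 ≤ p) (h1 : p ≤ 1) (h : ¬ Sub d p) (N : ℕ) :
    (N : ℝ) ≤ 2 * d * ∑ a, tau (HB d N) p (oB d N) a := by
  have a1 : ∀ R ∈ range N, (1 : ℝ) ≤ 2 * d *
      ∑ a ∈ Finset.univ.filter fun a : Bx d N => nr (io a) = R, tau (HB d N) p (oB d N) a := by
    intro R hR
    have hR' := Finset.mem_range.1 hR
    set S := Finset.univ.filter fun a : Bx d N => nr (io a) ≤ R with hS
    have b1 : 1 ≤ p * exm (HB d N) S p (oB d N) := not_lt.1 fun h2 =>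
      h ⟨N, S, by simp [hS, io_oB, nr_zero], fun a ha => by simp [hS] at ha; omega, h2⟩
    have b2 := exm_le (HB_deg (d := d) (R := N)) h0 h1 (S := S)
      (B := Finset.univ.filter fun a : Bx d N => nr (io a) = R) (oB d N) fun b hb => by
        obtain ⟨c1, c2, c3⟩ := mem_exits.1 hb
        have := nr_adj c3
        simp [hS] at c1 c2 ⊢
        omega
    push_cast at b2
    nlinarith [exm_nonneg (G := HB d N) (S := S) (o := oB d N) h0 h1]
  have a2 := Finset.sum_le_sum a1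
  rw [← Finset.mul_sum, Finset.sum_fiberwise_eq_sum_filter] at a2
  simp only [Finset.sum_const, Finset.card_range, nsmul_eq_mul, mul_one] at a2
  refine a2.trans (mul_le_mul_of_nonneg_left ?_ (by positivity))
  exact Finset.sum_le_sum_of_subset_of_nonneg (Finset.subset_univ _)
    fun _ _ _ => tau_nonneg h0 h1

lemma chi_box_le [NeZero M] (h0 : 0 ≤ p) (h1 : p ≤ 1) (h : 2 * R < M) :
    ∑ a, tau (HB d R) p (oB d R) a ≤ chiT d M p := by
  refine (Finset.sum_le_sum fun a _ => tau_box_le h0 h1 h a).trans ?_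
  rw [← Finset.sum_image (g := pb M) (f := tauT d M p) (pb_inj h).injOn]
  exact Finset.sum_le_sum_of_subset_of_nonneg (Finset.subset_univ _)
    fun _ _ _ => tau_nonneg h0 h1

lemma arm_ge {q : ℝ} (h0 : 0 < p) (hpq : p ≤ q) (h1 : q < 1) (h : ¬ Sub d p) (R : ℕ) :
    1 - Real.exp (p - q) ≤ arm d R q := by
  have := dct (G := HB d R) (o := oB d R)
    (B := Finset.univ.filter fun a : Bx d R => nr (io a) = R) h0 hpq h1 fun S ho hS => by
      have b1 : 1 ≤ p * exm (HB d R) S p (oB d R) := not_lt.1 fun h2 =>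
        h ⟨R, S, ho, fun a ha => lt_of_le_of_ne (nr_io a) fun h3 =>
          Finset.disjoint_left.1 hS ha (by simpa using h3), h2⟩
      nlinarith [exm_nonneg (G := HB d R) (S := S) (o := oB d R) h0.le (hpq.trans h1.le)]
  refine this.trans (Ex_mono (h0.le.trans hpq) h1.le fun η => ind_mono fun hη => ?_)
  obtain ⟨a, ha, hr⟩ := mem_cl.1 hη
  exact ⟨a, mem_cl_single.2 hr.symm, by simpa using ha⟩

lemma pow_le_tau (h0 : 0 ≤ p) (h1 : p ≤ 1) (n : ℕ) : ∀ a : Bx d R, ∑ i, (io a i).natAbs = n →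
    p ^ n ≤ tau (HB d R) p (oB d R) a := by
  induction n with
  | zero =>
    intro a ha
    have : a = oB d R := io_inj (funext fun i => by
      have := Finset.sum_eq_zero_iff.1 ha i (Finset.mem_univ i)
      simpa [io_oB] using this)
    rw [this, tau_self, pow_zero]
  | succ n ih =>
    intro a ha
    obtain ⟨i, -, hi⟩ := Finset.exists_ne_zero_of_sum_ne_zero (ha.trans_ne (Nat.succ_ne_zero n))
    obtain ⟨t, ht, ht2⟩ : ∃ t : ℤ, (t = 1 ∨ t = -1) ∧
        (io a i - t).natAbs + 1 = (io a i).natAbs := by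
      by_cases h : 0 < io a i
      · exact ⟨1, Or.inl rfl, by omega⟩
      · exact ⟨-1, Or.inr rfl, by omega⟩
    have e : ∀ l, ((io a - Pi.single i t : Fin d → ℤ) l).natAbs + (if l = i then 1 else 0) =
        (io a l).natAbs := by
      intro l
      by_cases hl : l = i
      · subst hl; simpa using ht2
      · simp [hl]
    obtain ⟨b, hb⟩ := exists_io (R := R) (x := io a - Pi.single i t) (nr_le.2 fun l => by
      have := e l
      have := nr_le.1 (nr_io a) l
      omega)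
    have s := Finset.sum_congr (s₁ := Finset.univ) rfl fun l _ => e l
    rw [Finset.sum_add_distrib, ha, ← hb] at s
    simp only [Finset.sum_ite_eq', Finset.mem_univ, if_true] at s
    have adj : (HB d R).Adj b a := by
      refine lattice_adj.2 ⟨fun h => ?_, ?_⟩
      · rw [h, ha] at s; omega
      · rcases ht with rfl | rfl
        · exact Or.inl ⟨i, by rw [hb]; simp⟩
        · exact Or.inr ⟨i, by rw [hb]; simp [Pi.single_neg]⟩
    refine le_trans ?_ (tau_step h0 h1 adj)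
    rw [pow_succ']
    exact mul_le_mul_of_nonneg_left (ih b (by omega)) h0

end Pool.Agent.HD
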