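import Pool.Agent.Lib.HD.Box

/-! Sharpness of the phase transition and the bridge from the torus to the lattice. -/

open Finset Classical MeasureTheory ProbabilityTheory Filter Topology

set_option linter.unusedSectionVars false

namespace Pool.Agent.HD

open Pool.Agent.Lib.MP_81a99a_pr

variable {d R M : ℕ}

/-- the cluster of the origin inside the box -/
noncomputable def bx (R : ℕ) (ω : Set (Sym2 (Fin d → ℤ))) : Finset (Bx d R) :=
  cl (HB d R) (Sym2.map io ⁻¹' ω) {oB d R}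

lemma real_bx (p : unitInterval) (P : Finset (Bx d R) → Prop) :
    (setBernoulli (lattice d).edgeSet p).real {ω | P (bx R ω)} =
      Ex p fun η => ind (P (cl (HB d R) η {oB d R})) := by
  have e := real_eq_Ex (j := Sym2.map (io : Bx d R → _)) (Sym2.map.injective io_inj)
    (lattice d).edgeSet p (fun η => P (cl (HB d R) η {oB d R}))
  refine e.trans (Ex_congr fun η => ?_)
  rw [cl_congr (ω := η)]
  intro e he
  have := (mem_touch.1 he).1
  induction e using Sym2.ind with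
  | h a b => exact ⟨fun h => ⟨h, this⟩, fun h => h.1⟩

lemma measurable_bx (P : Finset (Bx d R) → Prop) :
    MeasurableSet {ω : Set (Sym2 (Fin d → ℤ)) | P (bx R ω)} := by
  have hm : Measurable fun ω : Set (Sym2 (Fin d → ℤ)) => Sym2.map (io : Bx d R → _) ⁻¹' ω :=
    measurable_set_iff.2 fun a => measurable_set_mem _
  exact hm (t := {η | P (cl (HB d R) η {oB d R})}) (Set.toFinite _).measurableSet

/-- open edges of the lattice inside the box -/
def OR (R : ℕ) (ω : Set (Sym2 (Fin d → ℤ))) : SimpleGraph (Fin d → ℤ) where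
  Adj a b := (lattice d).Adj a b ∧ s(a, b) ∈ ω ∧ nr a ≤ R ∧ nr b ≤ R
  symm := ⟨fun _ _ h => ⟨h.1.symm, by rw [Sym2.eq_swap]; exact h.2.1, h.2.2.2, h.2.2.1⟩⟩
  loopless := ⟨fun _ h => h.1.ne rfl⟩

variable {ω : Set (Sym2 (Fin d → ℤ))} {x : Fin d → ℤ}

lemma reach_iff : (OR R ω).Reachable 0 x ↔ ∃ a ∈ bx R ω, io a = x := by
  constructor
  · intro h
    refine lift_reach io (o := oB d R) self_mem_cl (fun a ha z hz => ?_) h
    obtain ⟨b, rfl⟩ := exists_io hz.2.2.2
    exact ⟨b, cl_closed ha hz.1 hz.2.1, rfl⟩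
  · rintro ⟨a, ha, rfl⟩
    have : bx R ω ⊆ Finset.univ.filter fun a => (OR R ω).Reachable 0 (io a) :=
      cl_subset (by simp [io_oB]) fun a ha b hab he => by
        simp only [Finset.mem_filter, Finset.mem_univ, true_and] at ha ⊢
        exact ha.trans (SimpleGraph.Adj.reachable ⟨hab, he, nr_io a, nr_io b⟩)
    simpa using this ha

lemma OR_mono {R' : ℕ} (h : R ≤ R') : OR R ω ≤ OR R' ω :=
  fun _ _ hab => ⟨hab.1, hab.2.1, hab.2.2.1.trans h, hab.2.2.2.trans h⟩

lemma mem_cluster_of_reach (h : (OR R ω).Reachable 0 x) : x ∈ cluster ω 0 :=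
  SimpleGraph.Reachable.mono (G := OR R ω) (G' := SimpleGraph.fromEdgeSet ω)
    (fun _ _ hab => (SimpleGraph.fromEdgeSet_adj _).2 ⟨hab.2.1, hab.1.ne⟩) h

lemma reach_of_mem_cluster (hω : ω ⊆ (lattice d).edgeSet) (h : x ∈ cluster ω 0) :
    ∃ R, (OR R ω).Reachable 0 x := by
  have h' : (SimpleGraph.fromEdgeSet ω).Reachable 0 x := h
  rw [SimpleGraph.reachable_iff_reflTransGen] at h'
  clear h
  induction h' with
  | refl => exact ⟨0, .rfl⟩
  | @tail b c _ h2 ih =>
    obtain ⟨R, hR⟩ := ih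
    have h3 := ((SimpleGraph.fromEdgeSet_adj _).1 h2).1
    exact ⟨max R (max (nr b) (nr c)), (hR.mono (OR_mono (le_max_left _ _))).trans
      (SimpleGraph.Adj.reachable ⟨hω h3, h3, by omega, by omega⟩)⟩

/-- the one-arm event -/
def AR (d R : ℕ) : Set (Set (Sym2 (Fin d → ℤ))) := {ω | ∃ a ∈ bx R ω, nr (io a) = R}

lemma nr_lt_of_not_AR {R' : ℕ} (h : ω ∉ AR d R) (hx : (OR R' ω).Reachable 0 x) : nr x < R := by
  have hl : ∀ a ∈ bx R ω, nr (io a) < R := fun a ha =>
    lt_of_le_of_ne (nr_io a) fun h2 => h ⟨a, ha, h2⟩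
  obtain ⟨b, hb, rfl⟩ := lift_reach io (C := bx R ω) (o := oB d R) self_mem_cl
    (fun a ha z hz => by
      obtain ⟨b, hb, rfl⟩ := lift_adj (hl a ha) hz.1
      exact ⟨b, cl_closed ha hb hz.2.1, rfl⟩) hx
  exact hl b hb

lemma AR_anti : Antitone (AR d) := by
  intro R R' h ω hω
  by_contra h2
  obtain ⟨a, ha, h3⟩ := hω
  have := nr_lt_of_not_AR h2 (reach_iff.2 ⟨a, ha, rfl⟩)
  omega

lemma real_AR (p : unitInterval) :
    (setBernoulli (lattice d).edgeSet p).real (AR d R) = arm d R p :=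
  real_bx p fun C => ∃ a ∈ C, nr (io a) = R

/-- the percolation probability -/
noncomputable def theta (d : ℕ) (p : unitInterval) : ℝ :=
  (setBernoulli (lattice d).edgeSet p).real {ω | (cluster ω 0).Infinite}

lemma theta_le_arm (p : unitInterval) : theta d p ≤ arm d R p := by
  rw [← real_AR]
  refine ENNReal.toReal_mono (measure_ne_top _ _) (measure_mono_ae ?_)
  filter_upwards [setBernoulli_ae_subset] with ω hω h
  by_contra h2
  refine h ((Set.finite_range (io : Bx d R → _)).subset fun x hx => ?_)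
  obtain ⟨R', hR⟩ := reach_of_mem_cluster hω hx
  exact exists_io (nr_lt_of_not_AR h2 hR).le

lemma arm_tendsto (p : unitInterval) :
    ∃ t ≤ theta d p, Tendsto (fun R => arm d R p) atTop (𝓝 t) := by
  refine ⟨(setBernoulli (lattice d).edgeSet p).real (⋂ R, AR d R), measureReal_mono ?_, ?_⟩
  · intro ω hω
    rw [Set.mem_iInter] at hω
    choose a ha h2 using hω
    refine Set.infinite_of_injective_forall_mem (f := fun R => io (a R)) (fun R R' h => ?_)
      fun R => mem_cluster_of_reach (reach_iff.2 ⟨a R, ha R, rfl⟩)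
    rw [← h2 R, ← h2 R']
    exact congrArg nr h
  · simp only [← real_AR]
    exact (ENNReal.tendsto_toReal (measure_ne_top _ _)).comp (tendsto_measure_iInter_atTop
      (fun R => (measurable_bx fun C => ∃ a ∈ C, nr (io a) = R).nullMeasurableSet) AR_anti
      ⟨0, measure_ne_top _ _⟩)

lemma tau_box_le_tauZ (p : unitInterval) (a : Bx d R) :
    tau (HB d R) p (oB d R) a ≤ tauZ d p (io a) := by
  rw [tau, ← real_bx p fun C => a ∈ C]
  exact measureReal_mono fun ω hω => mem_cluster_of_reach (reach_iff.2 ⟨a, hω, rfl⟩)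

lemma tauZ_le (p : unitInterval) {B : ℝ}
    (h : ∀ (R : ℕ) (a : Bx d R), io a = x → tau (HB d R) p (oB d R) a ≤ B) : tauZ d p x ≤ B := by
  have t := (ENNReal.tendsto_toReal (measure_ne_top (setBernoulli (lattice d).edgeSet p) _)).comp
    (tendsto_measure_iUnion_atTop (μ := setBernoulli (lattice d).edgeSet p)
      (s := fun R : ℕ => {ω | (OR R ω).Reachable 0 x})
      fun R R' hR ω hω => SimpleGraph.Reachable.mono (OR_mono hR) hω)
  refine le_trans (ENNReal.toReal_mono (measure_ne_top _ _) (measure_mono_ae ?_))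
    (le_of_tendsto t ?_)
  · filter_upwards [setBernoulli_ae_subset] with ω hω h
    exact Set.mem_iUnion.2 (reach_of_mem_cluster hω h)
  · filter_upwards [eventually_ge_atTop (nr x)] with R hR
    obtain ⟨a, ha⟩ := exists_io hR
    refine le_trans (le_of_eq ?_) (h R a ha)
    rw [tau, ← real_bx p fun C => a ∈ C]
    refine congrArg (fun s => (setBernoulli (lattice d).edgeSet p s).toReal) (Set.ext fun ω => ?_)
    simp only [Set.mem_ofPred_eq, reach_iff]
    exact ⟨fun ⟨b, hb, e⟩ => io_inj (e.trans ha.symm) ▸ hb, fun h => ⟨a, h, ha⟩⟩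

lemma theta_pos_iff (p : unitInterval) :
    0 < setBernoulli (lattice d).edgeSet p {ω | (cluster ω 0).Infinite} ↔ 0 < theta d p :=
  ⟨fun h => ENNReal.toReal_pos h.ne' (measure_ne_top _ _),
    fun h => (ENNReal.toReal_pos_iff.1 h).1⟩

lemma Sub.theta {p : unitInterval} (h : Sub d p) : theta d p ≤ 0 := by
  obtain ⟨C, M0, hC⟩ := h.chi p.2.1 p.2.2
  by_contra h2
  push Not at h2
  obtain ⟨N, hN⟩ := exists_nat_gt (C / HD.theta d p)
  have a1 := sum_arm_le (d := d) (M := 2 * N + M0 + 1) p.2.1 p.2.2 (N := N) (by omega)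
  have a2 := Finset.card_nsmul_le_sum (range N) (fun R => arm d R p) _ fun R _ => theta_le_arm p
  have a3 := hC (2 * N + M0 + 1) (by omega)
  rw [Finset.card_range, nsmul_eq_mul] at a2
  rw [div_lt_iff₀ h2] at hN
  linarith

lemma theta_of_lt {p : unitInterval} (h : p < pc d) : theta d p ≤ 0 :=
  not_lt.1 fun h2 => absurd (show pc d ≤ p from sInf_le (a := p) ((theta_pos_iff p).2 h2))
    (not_le.2 h)

/-- sharpness -/
lemma sub_of_lt {p : ℝ} (h0 : 0 ≤ p) (h : p < pc d) : Sub d p := by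
  by_contra hs
  have h1 : (pc d : ℝ) ≤ 1 := (pc d).2.2
  let q : unitInterval := ⟨(p + 3 * pc d) / 4, by linarith, by linarith⟩
  have hs' : ¬ Sub d ((p + pc d) / 2) := fun h2 => hs (h2.mono h0 (by linarith) (by linarith))
  obtain ⟨t, ht, ht2⟩ := arm_tendsto (d := d) q
  have a1 := ge_of_tendsto' ht2 fun R => arm_ge (q := q) (by linarith)
    (show (p + pc d) / 2 ≤ (p + 3 * pc d) / 4 by linarith)
    (show (p + 3 * pc d) / 4 < 1 by linarith) hs' R
  have a2 := theta_of_lt (show q < pc d from show (p + 3 * pc d) / 4 < (pc d : ℝ) by linarith)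
  have a3 : Real.exp ((p + pc d) / 2 - q) < 1 :=
    Real.exp_lt_one_iff.2 (show (p + pc d) / 2 - (p + 3 * pc d) / 4 < 0 by linarith)
  linarith

lemma le_pc {p : unitInterval} (h : Sub d p) : p ≤ pc d :=
  le_sInf fun q hq => not_lt.1 fun h2 =>
    absurd ((theta_pos_iff q).1 hq) (not_lt.2 (h.mono q.2.1 h2.le p.2.2).theta)

lemma pc_pos : (0 : ℝ) < pc d := by
  have a : (0 : ℝ) < 1 / (2 * d + 1) := by positivity
  have b : (1 : ℝ) / (2 * d + 1) ≤ 1 := by
    rw [div_le_one (by positivity)]; linarith [(Nat.cast_nonneg d : (0 : ℝ) ≤ d)]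
  have := le_pc (d := d) (p := ⟨1 / (2 * d + 1), a.le, b⟩) (sub_small a.le b (by
    rw [div_mul_eq_mul_div, div_lt_one (by positivity)]; linarith))
  exact a.trans_le this

lemma not_sub_pc (h : (pc d : ℝ) < 1) : ¬ Sub d (pc d) := by
  rintro ⟨R, S, a, b, c⟩
  have ct : Continuous fun p : ℝ => p * exm (HB d R) S p (oB d R) :=
    continuous_id.mul (exm_continuous _ _ _)
  have e1 := ((ct.tendsto _).eventually (gt_mem_nhds c)).and (gt_mem_nhds h)
  obtain ⟨q, ⟨h1, h2⟩, h3⟩ :=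
    ((e1.filter_mono nhdsWithin_le_nhds).and (self_mem_nhdsWithin (s := Set.Ioi (pc d : ℝ)))).exists
  have h4 : (pc d : ℝ) < q := h3
  have := le_pc (d := d) (p := ⟨q, (pc_pos.trans h4).le, h2.le⟩) ⟨R, S, a, b, h1⟩
  exact absurd h4 (not_lt.2 this)

/-- the susceptibility diverges -/
lemma chi_large (hd : 0 < d) (h : (pc d : ℝ) < 1) (K : ℝ) : ∃ M0 : ℕ, ∀ᶠ p : ℝ in 𝓝 (pc d : ℝ),
    0 ≤ p → p ≤ 1 → ∀ (M : ℕ) [NeZero M], M0 ≤ M → K ≤ chiT d M p := by
  obtain ⟨N, hN⟩ := exists_nat_gt (2 * d * K)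
  have a1 := chi_box_of_not_sub pc_pos.le h.le (not_sub_pc h) N
  have a2 : K < ∑ a, tau (HB d N) (pc d) (oB d N) a :=
    lt_of_mul_lt_mul_left (hN.trans_le a1) (by positivity)
  have ct : Continuous fun p : ℝ => ∑ a, tau (HB d N) p (oB d N) a :=
    continuous_finsetSum _ fun _ _ => tau_continuous _ _ _
  refine ⟨2 * N + 1, ?_⟩
  filter_upwards [(ct.tendsto _).eventually (lt_mem_nhds a2)] with p hp h0 h1 M _ hM
  exact hp.le.trans (chi_box_le h0 h1 hM)

lemma exists_torus {p : ℝ} (h0 : 0 ≤ p) (h : p < pc d) (N : ℕ) :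
    ∃ m : ℕ, N ≤ m ∧ 1 ≤ m ∧ chiT d (2 * m + 1) p ≤ ((2 * m + 1 : ℕ) : ℝ) := by
  obtain ⟨C, M0, hC⟩ := (sub_of_lt h0 h).chi h0 (h.le.trans (pc d).2.2)
  obtain ⟨L, hL⟩ := exists_nat_gt C
  refine ⟨N + M0 + L + 1, by omega, by omega, (hC _ (by omega)).trans ?_⟩
  have : (L : ℝ) ≤ ((2 * (N + M0 + L + 1) + 1 : ℕ) : ℝ) := by exact_mod_cast (by omega)
  linarith

theorem bridge_core (hd : 3 ≤ d) {c C K : ℝ} (hc : 0 < c)
    (H : ∀ (M : ℕ) [NeZero M], Odd M → 3 ≤ M → ∀ p : ℝ, 0 ≤ p → p ≤ 1 →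
      chiT d M p ≤ (M : ℝ) → d * p ≤ 1 ∧ (K ≤ chiT d M p → ∀ x : T d M, x ≠ 0 →
        tauT d M p x * (rad x : ℝ) ^ (d - 2) ≤ C ∧
        (K * (rad x : ℝ) ^ 2 ≤ chiT d M p →
          c - C / (rad x : ℝ) ≤ tauT d M p x * (rad x : ℝ) ^ (d - 2)))) : HighDim d := by
  have P0 := pc_pos (d := d)
  have P1 : (pc d : ℝ) ≤ 1 := (pc d).2.2
  have ev : ∀ᶠ p : ℝ in 𝓝[<] (pc d : ℝ), 0 ≤ p ∧ p < pc d :=
    (((lt_mem_nhds P0).mono fun _ h => le_of_lt h).filter_mono nhdsWithin_le_nhds).and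
      self_mem_nhdsWithin
  have P2 : (pc d : ℝ) < 1 := by
    have t : Tendsto (fun p : ℝ => d * p) (𝓝[<] (pc d : ℝ)) (𝓝 (d * pc d)) :=
      ((continuous_const.mul continuous_id).tendsto _).mono_left nhdsWithin_le_nhds
    have := le_of_tendsto t (ev.mono fun p hp => by
      obtain ⟨m, -, h1, h2⟩ := exists_torus hp.1 hp.2 0
      exact (H (2 * m + 1) ⟨m, rfl⟩ (by omega) p hp.1 (hp.2.le.trans P1) h2).1)
    have h3 : (3 : ℝ) ≤ d := by exact_mod_cast hd
    nlinarith
  obtain ⟨r0, hr0⟩ := exists_nat_gt (2 * C / c)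
  refine ⟨min (c / 2) ((pc d : ℝ) ^ (d * r0)), C, lt_min (by linarith) (by positivity),
    fun x hx => ?_⟩
  have r1 := nr_pos hx
  have r2 : (1 : ℝ) ≤ nr x := by exact_mod_cast r1
  have r3 : (1 : ℝ) ≤ (nr x : ℝ) ^ (d - 2) := one_le_pow₀ r2
  rw [norm_eq_nr]
  obtain ⟨M0, hM0⟩ := chi_large (by omega) P2 (max K (K * (nr x : ℝ) ^ 2))
  have key : ∀ᶠ p : ℝ in 𝓝[<] (pc d : ℝ), (0 ≤ p ∧ p < pc d) ∧
      ∀ (R : ℕ) (a : Bx d R), io a = x →
        tau (HB d R) p (oB d R) a * (nr x : ℝ) ^ (d - 2) ≤ C ∧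
        c - C / nr x ≤ (tau (HB d R) p (oB d R) a + arm d R p) * (nr x : ℝ) ^ (d - 2) := by
    filter_upwards [ev, hM0.filter_mono nhdsWithin_le_nhds] with p hp h1
    refine ⟨hp, fun R a ha => ?_⟩
    have p1 := hp.2.le.trans P1
    obtain ⟨m, m1, m2, m3⟩ := exists_torus hp.1 hp.2 (R + M0)
    have hR : 2 * R < 2 * m + 1 := by omega
    have b1 := h1 hp.1 p1 (2 * m + 1) (by omega)
    have b2 := (H (2 * m + 1) ⟨m, rfl⟩ (by omega) p hp.1 p1 m3).2 ((le_max_left _ _).trans b1)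
      (pb (2 * m + 1) a) fun h => hx (by rw [← ha, pb_inj hR (h.trans pb_oB.symm), io_oB])
    rw [rad_pb hR, ha] at b2
    exact ⟨le_trans (mul_le_mul_of_nonneg_right (tau_box_le hp.1 p1 hR a) (by positivity)) b2.1,
      (b2.2 ((le_max_right _ _).trans b1)).trans
        (mul_le_mul_of_nonneg_right (tauT_le_box hp.1 p1 hR a) (by positivity))⟩
  constructor
  · by_cases hr : nr x ≤ r0
    · refine (min_le_right _ _).trans ?_
      obtain ⟨a, ha⟩ := exists_io (le_refl (nr x))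
      have b1 := (pow_le_tau P0.le P1 _ a rfl).trans (tau_box_le_tauZ (pc d) a)
      rw [ha] at b1
      have b2 : ∑ i, (x i).natAbs ≤ d * r0 := by
        simpa using Finset.sum_le_card_nsmul Finset.univ (fun i => (x i).natAbs) r0
          fun i _ => (le_nr x i).trans hr
      have b3 := (pow_le_pow_of_le_one P0.le P1 b2).trans b1
      have b4 : 0 < (pc d : ℝ) ^ (d * r0) := by positivity
      nlinarith
    · refine (min_le_left _ _).trans ?_
      obtain ⟨p, hp, h2⟩ := key.exists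
      have p1 := hp.2.le.trans P1
      obtain ⟨t, ht, ht2⟩ := arm_tendsto (d := d) ⟨p, hp.1, p1⟩
      have t0 : t ≤ 0 := ht.trans (theta_of_lt (p := ⟨p, hp.1, p1⟩) hp.2)
      have b1 : c - C / nr x ≤ (tauZ d (pc d) x + t) * (nr x : ℝ) ^ (d - 2) := by
        refine ge_of_tendsto ((ht2.const_add _).mul_const _) ?_
        filter_upwards [eventually_ge_atTop (nr x)] with R hR
        obtain ⟨a, ha⟩ := exists_io hR
        refine (h2 R a ha).2.trans (mul_le_mul_of_nonneg_right ?_ (by positivity))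
        have := (tau_mono_p hp.1 hp.2.le P1).trans (tau_box_le_tauZ (pc d) a)
        rw [ha] at this
        exact add_le_add this le_rfl
      have b2 : C / nr x ≤ c / 2 := by
        have : (r0 : ℝ) ≤ nr x := by exact_mod_cast (not_le.1 hr).le
        rw [div_lt_iff₀ hc] at hr0
        rw [div_le_iff₀ (by linarith)]
        nlinarith
      nlinarith
  · rw [← le_div_iff₀ (by positivity)]
    refine tauZ_le _ fun R a ha => ?_
    rw [le_div_iff₀ (by positivity)]
    exact le_of_tendsto ((((tau_continuous _ _ _).mul continuous_const).tendsto _).mono_left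
      nhdsWithin_le_nhds) (key.mono fun p hp => (hp.2 R a ha).1)

theorem st_bridge : StBridge := by
  rintro d hd ⟨c, C, K, hc, H⟩
  refine bridge_core hd hc (C := C) (K := K) fun M _ h1 h2 p h3 h4 h5 =>
    H M h1 h2 p h3 h4 (h5.trans ?_)
  have : (3 : ℝ) ≤ M := by exact_mod_cast h2
  nlinarith

end Pool.Agent.HD
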