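import Pool.Agent.Lib.HD.BlueA

/-! Proved tools for parts A and C. -/

open Finset Classical

set_option linter.unusedSectionVars false

namespace Pool.Agent.HD

open Pool.Agent.Lib.MP_81a99a_pr

section Con

variable {V : Type} [Fintype V] {G H : SimpleGraph V} {ω ω' : Set (Sym2 V)} {x y z v : V}
  {A : Finset V}

lemma con_iff_cl : Con G ω x y ↔ y ∈ cl G ω {x} := mem_cl_single.symm

lemma tau_eq_con (G : SimpleGraph V) (p : ℝ) (x y : V) :
    tau G p x y = Ex p fun ω => ind (Con G ω x y) :=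
  Ex_congr fun _ => ind_congr con_iff_cl.symm

lemma Con.refl (G : SimpleGraph V) (ω : Set (Sym2 V)) (x : V) : Con G ω x x :=
  SimpleGraph.Reachable.refl _

lemma Con.symm (h : Con G ω x y) : Con G ω y x := SimpleGraph.Reachable.symm h

lemma Con.trans (h : Con G ω x y) (h' : Con G ω y z) : Con G ω x z :=
  SimpleGraph.Reachable.trans h h'

lemma Con.edge (h : G.Adj x y) (he : s(x, y) ∈ ω) : Con G ω x y :=
  (op_adj.2 ⟨h, he⟩).reachable

lemma Con.step (h : Con G ω x y) (ha : G.Adj y z) (he : s(y, z) ∈ ω) : Con G ω x z :=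
  h.trans (Con.edge ha he)

lemma op_mono (hG : G ≤ H) (hω : ω ⊆ ω') : op G ω ≤ op H ω' := fun _ _ h =>
  op_adj.2 ⟨hG (op_adj.1 h).1, hω (op_adj.1 h).2⟩

lemma Con.mono (h : Con G ω x y) (hG : G ≤ H) (hω : ω ⊆ ω') : Con H ω' x y :=
  SimpleGraph.Reachable.mono (op_mono hG hω) h

lemma Con.mono' (h : Con G ω x y) (hω : ω ⊆ ω') : Con G ω' x y := h.mono le_rfl hω

/-- induction along a connection -/
lemma Con.induct (h : Con G ω x y) {P : V → Prop} (h0 : P x)
    (hs : ∀ a b, Con G ω x a → P a → G.Adj a b → s(a, b) ∈ ω → P b) : P y := by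
  have : cl G ω {x} ⊆ Finset.univ.filter fun a => Con G ω x a ∧ P a :=
    cl_subset (by simpa using ⟨Con.refl G ω x, h0⟩) fun a ha b hab he => by
      simp only [Finset.mem_filter, Finset.mem_univ, true_and] at ha ⊢
      exact ⟨ha.1.step hab he, hs a b ha.1 ha.2 hab he⟩
  exact (Finset.mem_filter.1 (this (con_iff_cl.1 h))).2.2

/-- a connection either avoids a given edge or crosses it in one of the two directions -/
lemma Con.split (h : Con G ω v y) (e : Sym2 V) : Con G (ω \ {e}) v y ∨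
    ∃ a b, e = s(a, b) ∧ G.Adj a b ∧ e ∈ ω ∧ Con G (ω \ {e}) v a ∧ Con G (ω \ {e}) b y := by
  refine h.induct (P := fun y => Con G (ω \ {e}) v y ∨
    ∃ a b, e = s(a, b) ∧ G.Adj a b ∧ e ∈ ω ∧ Con G (ω \ {e}) v a ∧ Con G (ω \ {e}) b y)
    (Or.inl (Con.refl _ _ _)) fun c d _ hc hcd he => ?_
  by_cases hce : s(c, d) = e
  · rcases hc with hc | ⟨a, b, h1, h2, h3, h4, h5⟩
    · exact Or.inr ⟨c, d, hce.symm, hcd, hce ▸ he, hc, Con.refl _ _ _⟩
    · rcases Sym2.eq_iff.1 (hce.trans h1) with ⟨rfl, rfl⟩ | ⟨rfl, rfl⟩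
      · exact Or.inr ⟨c, d, h1, h2, h3, h4, Con.refl _ _ _⟩
      · exact Or.inl h4
  · rcases hc with hc | ⟨a, b, h1, h2, h3, h4, h5⟩
    · exact Or.inl (hc.step hcd ⟨he, hce⟩)
    · exact Or.inr ⟨a, b, h1, h2, h3, h4, h5.step hcd ⟨he, hce⟩⟩

/-- the same with the end points of the edge given -/
lemma Con.split' (h : Con G ω v y) (a b : V) : Con G (ω \ {s(a, b)}) v y ∨
    (Con G (ω \ {s(a, b)}) v a ∧ Con G (ω \ {s(a, b)}) b y) ∨
    (Con G (ω \ {s(a, b)}) v b ∧ Con G (ω \ {s(a, b)}) a y) := by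
  rcases h.split s(a, b) with h | ⟨c, d, h1, -, -, h4, h5⟩
  · exact Or.inl h
  · rcases Sym2.eq_iff.1 h1 with ⟨rfl, rfl⟩ | ⟨rfl, rfl⟩
    · exact Or.inr (Or.inl ⟨h4, h5⟩)
    · exact Or.inr (Or.inr ⟨h4, h5⟩)

lemma Off.con (h : Off G ω A x y) : Con G ω x y := h.2.mono res_le subset_rfl

lemma Off.mono' (h : Off G ω A x y) (hω : ω ⊆ ω') : Off G ω' A x y := ⟨h.1, h.2.mono' hω⟩

lemma Off.not_mem (h : Off G ω A x y) : y ∉ A :=
  Finset.mem_compl.1 (cl_res_subset (Finset.mem_compl.2 h.1) (con_iff_cl.1 h.2))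

lemma Off.step (h : Off G ω A x y) (ha : G.Adj y z) (he : s(y, z) ∈ ω) (hz : z ∉ A) :
    Off G ω A x z :=
  ⟨h.1, h.2.step ⟨ha, Finset.mem_compl.2 h.not_mem, Finset.mem_compl.2 hz⟩ he⟩

lemma Off.trans (h : Off G ω A x y) (h' : Off G ω A y z) : Off G ω A x z := ⟨h.1, h.2.trans h'.2⟩

lemma Piv.con {a b : V} (h : Piv G ω v x a b) : Con G ω v x :=
  ((h.2.2.1.mono' Set.sdiff_subset).step h.1 h.2.1).trans (h.2.2.2.1.mono' Set.sdiff_subset)

lemma Piv.not_con {a b : V} (h : Piv G ω v x a b) : ¬ Con G (ω \ {s(a, b)}) v b :=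
  fun h' => h.2.2.2.2 (h'.trans h.2.2.2.1)

/-- an open walk gives a connection in any configuration containing its edges -/
lemma con_of_walk (q : (op G ω).Walk x y) {K : Set (Sym2 V)} (hK : ∀ e ∈ q.edges, e ∈ K) :
    Con G K x y := by
  induction q with
  | nil => exact Con.refl _ _ _
  | cons h q ih =>
    exact (Con.edge (op_adj.1 h).1 (hK _ (by simp))).trans (ih fun e he => hK e (by simp [he]))

lemma edges_mem (q : (op G ω).Walk x y) {e : Sym2 V} (he : e ∈ q.edges) : e ∈ ω := by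
  induction q with
  | nil => simp at he
  | cons h q ih =>
    rcases List.mem_cons.1 he with rfl | he
    · exact (op_adj.1 h).2
    · exact ih he

/-- an open walk avoiding `A` -/
lemma off_of_walk (q : (op G ω).Walk x y) (h : ∀ z ∈ q.support, z ∉ A) : Off G ω A x y := by
  induction q with
  | nil => exact ⟨h _ (by simp), Con.refl _ _ _⟩
  | @cons a b c hab q ih =>
    have h1 := ih fun z hz => h z (by simp [hz])
    exact ⟨h _ (by simp), (Con.edge (G := res G Aᶜ) ⟨(op_adj.1 hab).1,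
      Finset.mem_compl.2 (h _ (by simp)), Finset.mem_compl.2 h1.1⟩ (op_adj.1 hab).2).trans h1.2⟩

/-- the arm from a set of vertices: none of its edges lies inside the set -/
lemma exists_arm (h : Con G ω v y) (S : Set V) (hv : v ∈ S) :
    ∃ w ∈ S, ∃ r : (op G ω).Walk w y, ∀ e ∈ r.edges, ∃ c ∈ e, c ∉ S := by
  refine h.induct (P := fun y => ∃ w ∈ S, ∃ r : (op G ω).Walk w y, ∀ e ∈ r.edges, ∃ c ∈ e, c ∉ S)
    ⟨v, hv, .nil, by simp⟩ fun a b _ ha hab he => ?_
  by_cases hb : b ∈ S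
  · exact ⟨b, hb, .nil, by simp⟩
  · obtain ⟨w, hw, r, hr⟩ := ha
    refine ⟨w, hw, r.concat (op_adj.2 ⟨hab, he⟩), fun e he => ?_⟩
    rw [SimpleGraph.Walk.edges_concat, List.concat_eq_append, List.mem_append,
      List.mem_singleton] at he
    rcases he with he | rfl
    · exact hr e he
    · exact ⟨b, by simp, hb⟩

lemma Dis.mono' {l : List (V × V)} (h : Dis G ω l) (hω : ω ⊆ ω') : Dis G ω' l := by
  induction l generalizing ω ω' with
  | nil => trivial
  | cons c l ih =>
    obtain ⟨K, h1, h2, h3⟩ := h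
    exact ⟨K, h1.trans hω, h2, ih h3 (Set.sdiff_subset_sdiff_left hω)⟩

/-- disjoint witnesses given as lists of edges -/
lemma dis_of_lists (L : List (List (Sym2 V) × V × V))
    (h : ∀ c ∈ L, (∀ e ∈ c.1, e ∈ ω) ∧ Con G {e | e ∈ c.1} c.2.1 c.2.2)
    (hp : L.Pairwise fun c c' => c.1.Disjoint c'.1) : Dis G ω (L.map Prod.snd) := by
  induction L generalizing ω with
  | nil => trivial
  | cons c L ih =>
    rw [List.pairwise_cons] at hp
    refine ⟨{e | e ∈ c.1}, (h c (by simp)).1, (h c (by simp)).2, ih (fun c' hc' => ⟨fun e he =>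
      ⟨(h c' (by simp [hc'])).1 e he, fun h2 => hp.1 c' hc' h2 he⟩, (h c' (by simp [hc'])).2⟩) hp.2⟩

/-- the hypothesis of `dis_of_lists` for the edges of a walk -/
lemma walk_wit (q : (op G ω).Walk x y) :
    (∀ e ∈ q.edges, e ∈ ω) ∧ Con G {e | e ∈ q.edges} x y :=
  ⟨fun _ he => edges_mem q he, con_of_walk q fun _ he => he⟩

lemma sig_nonneg {p : ℝ} (h0 : 0 ≤ p) (h1 : p ≤ 1) : 0 ≤ sig G p x y :=
  Finset.sum_nonneg fun _ _ => mul_nonneg (mul_nonneg (ind_nonneg _) h0) (tau_nonneg h0 h1)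

/-- the first step of a connection -/
lemma tau_first {p : ℝ} (h0 : 0 ≤ p) (h1 : p ≤ 1) :
    tau G p x y ≤ ind (y = x) + sig G p x y := by
  have h := simon_lieb (G := G) (S := {x}) (o := x) (y := y) h0 h1 (Finset.mem_singleton_self x)
  have e1 : tau (res G {x}) p x y ≤ ind (y = x) :=
    Ex_le_const h0 h1 fun ω => ind_mono fun hy =>
      Finset.mem_singleton.1 (cl_res_subset (Finset.mem_singleton_self x) hy)
  have e2 : p * ∑ b ∈ exits G {x}, tau (res G {x}) p x b.1 * tau G p b.2 y ≤ sig G p x y := by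
    have : exits G {x} = (Finset.univ.filter fun b => G.Adj x b).image fun b => (x, b) := by
      ext ⟨a, b⟩
      simp only [mem_exits, Finset.mem_singleton, Finset.mem_image, Finset.mem_filter,
        Finset.mem_univ, true_and, Prod.mk.injEq]
      constructor
      · rintro ⟨rfl, -, h⟩; exact ⟨b, h, rfl, rfl⟩
      · rintro ⟨c, h, rfl, rfl⟩; exact ⟨rfl, h.ne', h⟩
    rw [this, Finset.sum_image (fun a _ b _ h => (Prod.ext_iff.1 h).2), Finset.mul_sum,
      Finset.sum_filter, sig]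
    refine le_of_eq (Finset.sum_congr rfl fun b _ => ?_)
    by_cases hb : G.Adj x b
    · simp [hb, ind, tau_self]
    · simp [hb, ind]
  linarith

end Con

section Conv

variable {Γ : Type} [Fintype Γ] [AddCommGroup Γ] {f g h f' g' : Γ → ℝ}

lemma sum_shift (F : Γ → ℝ) (a : Γ) : ∑ y, F (y + a) = ∑ y, F y :=
  Fintype.sum_equiv (Equiv.addRight a) _ _ fun _ => rfl

lemma sum_shift' (F : Γ → ℝ) (a : Γ) : ∑ y, F (y - a) = ∑ y, F y :=
  Fintype.sum_equiv (Equiv.subRight a) _ _ fun _ => rfl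

lemma sum_flip (F : Γ → ℝ) (a : Γ) : ∑ y, F (a - y) = ∑ y, F y :=
  Fintype.sum_equiv (Equiv.subLeft a) _ _ fun _ => rfl

lemma cv_comm (f g : Γ → ℝ) : cv f g = cv g f := by
  funext x
  unfold cv
  rw [← sum_flip (fun y => f y * g (x - y)) x]
  exact Finset.sum_congr rfl fun y _ => by rw [sub_sub_cancel, mul_comm]

/-- convolution between two points -/
lemma cv_two (f g : Γ → ℝ) (a b : Γ) : ∑ z, f (z - a) * g (b - z) = cv f g (b - a) := by
  unfold cv
  rw [← sum_shift' (fun y => f y * g (b - a - y)) a]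
  exact Finset.sum_congr rfl fun y _ => by rw [sub_sub_sub_cancel_right]

lemma cv_assoc (f g h : Γ → ℝ) : cv (cv f g) h = cv f (cv g h) := by
  funext x
  have : ∀ y, cv g h (x - y) = ∑ z, g (z - y) * h (x - z) := fun y => (cv_two g h y x).symm
  conv_rhs => unfold cv
  conv_lhs => unfold cv
  simp only [Finset.sum_mul]
  rw [Finset.sum_comm]
  refine Finset.sum_congr rfl fun y _ => ?_
  have h2 := this y
  unfold cv at h2
  rw [h2, Finset.mul_sum]
  exact Finset.sum_congr rfl fun z _ => by ring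

/-- triple convolution between two points -/
lemma cv_three (f g h : Γ → ℝ) (a b : Γ) :
    ∑ z, ∑ c, f (z - a) * g (c - z) * h (b - c) = cv f (cv g h) (b - a) := by
  rw [← cv_two]
  refine Finset.sum_congr rfl fun z _ => ?_
  rw [← cv_two, Finset.mul_sum]
  exact Finset.sum_congr rfl fun c _ => by ring

lemma cv_dl (f : Γ → ℝ) : cv f dl = f := by
  funext x
  unfold cv dl
  rw [Finset.sum_eq_single x]
  · simp [ind]
  · intro y _ hy; rw [ind_neg (fun h => hy (sub_eq_zero.1 h).symm), mul_zero]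
  · simp

lemma dl_cv (f : Γ → ℝ) : cv dl f = f := by rw [cv_comm, cv_dl]

lemma cv_add (f g h : Γ → ℝ) (x : Γ) : cv f (fun y => g y + h y) x = cv f g x + cv f h x := by
  simp only [cv, mul_add, Finset.sum_add_distrib]

lemma add_cv (f g h : Γ → ℝ) (x : Γ) : cv (fun y => f y + g y) h x = cv f h x + cv g h x := by
  simp only [cv, add_mul, Finset.sum_add_distrib]

lemma cv_sub (f g h : Γ → ℝ) (x : Γ) : cv f (fun y => g y - h y) x = cv f g x - cv f h x := by
  simp only [cv, mul_sub, Finset.sum_sub_distrib]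

lemma sub_cv (f g h : Γ → ℝ) (x : Γ) : cv (fun y => f y - g y) h x = cv f h x - cv g h x := by
  simp only [cv, sub_mul, Finset.sum_sub_distrib]

lemma cv_smul (c : ℝ) (f g : Γ → ℝ) (x : Γ) : cv f (fun y => c * g y) x = c * cv f g x := by
  simp only [cv, Finset.mul_sum]
  exact Finset.sum_congr rfl fun _ _ => by ring

lemma smul_cv (c : ℝ) (f g : Γ → ℝ) (x : Γ) : cv (fun y => c * f y) g x = c * cv f g x := by
  simp only [cv, Finset.mul_sum]
  exact Finset.sum_congr rfl fun _ _ => by ring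

lemma cv_nonneg (hf : ∀ x, 0 ≤ f x) (hg : ∀ x, 0 ≤ g x) (x : Γ) : 0 ≤ cv f g x :=
  Finset.sum_nonneg fun _ _ => mul_nonneg (hf _) (hg _)

lemma cv_mono (hf : ∀ x, 0 ≤ f x) (hg : ∀ x, 0 ≤ g x) (h1 : ∀ x, f x ≤ f' x)
    (h2 : ∀ x, g x ≤ g' x) (x : Γ) : cv f g x ≤ cv f' g' x :=
  Finset.sum_le_sum fun _ _ => mul_le_mul (h1 _) (h2 _) (hg _) ((hf _).trans (h1 _))

lemma cv_even (hf : ∀ x, f (-x) = f x) (hg : ∀ x, g (-x) = g x) (x : Γ) :
    cv f g (-x) = cv f g x := by
  unfold cv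
  refine Fintype.sum_equiv (Equiv.neg Γ) _ _ fun y => ?_
  rw [Equiv.neg_apply, hf, ← hg (x - -y)]
  congr 2
  abel

lemma sum_cv (f g : Γ → ℝ) : ∑ x, cv f g x = (∑ x, f x) * ∑ x, g x := by
  unfold cv
  rw [Finset.sum_comm, Finset.sum_mul]
  exact Finset.sum_congr rfl fun y _ => by rw [← Finset.mul_sum, sum_shift' g y]

/-- convolving with a function that dominates the unit -/
lemma le_cv (hf : ∀ x, 0 ≤ f x) (hg : ∀ x, 0 ≤ g x) (h1 : 1 ≤ g 0) (x : Γ) : f x ≤ cv f g x := by
  have := Finset.single_le_sum (f := fun y => f y * g (x - y))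
    (fun y _ => mul_nonneg (hf _) (hg _)) (Finset.mem_univ x)
  simp only [sub_self] at this
  exact (le_mul_of_one_le_right (hf x) h1).trans this

lemma cv_le_mul {c : ℝ} (hf : ∀ x, 0 ≤ f x) (hg : ∀ x, g x ≤ c) (x : Γ) :
    cv f g x ≤ (∑ y, f y) * c := by
  rw [Finset.sum_mul]
  exact Finset.sum_le_sum fun y _ => mul_le_mul_of_nonneg_left (hg _) (hf _)

lemma even_sub (hf : ∀ x, f (-x) = f x) (a b : Γ) : f (a - b) = f (b - a) := by
  rw [← hf, neg_sub]

lemma cv_equiv (e : Γ ≃+ Γ) (f g : Γ → ℝ) (x : Γ) :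
    cv (fun y => f (e y)) (fun y => g (e y)) x = cv f g (e x) :=
  Fintype.sum_equiv e.toEquiv _ _ fun y => by simp

/-- the solution of the expansion identity is unique -/
lemma lace_unique {τ j g g' : Γ → ℝ} (h : ∀ x, τ x = g x + cv g (cv j τ) x)
    (h' : ∀ x, τ x = g' x + cv g' (cv j τ) x) : g = g' := by
  have key : ∀ {a b : Γ → ℝ}, (∀ x, τ x = a x + cv a (cv j τ) x) →
      (∀ x, τ x = b x + cv b (cv j τ) x) → ∀ x, a x = τ x - cv τ (cv j b) x := by
    intro a b ha hb x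
    have e1 : cv τ (cv j b) x = cv a (cv j b) x + cv (cv a (cv j τ)) (cv j b) x := by
      rw [← add_cv]; congr 1; exact funext ha
    have e2 : cv a (cv j τ) x = cv a (cv j b) x + cv a (cv j (cv b (cv j τ))) x := by
      rw [← cv_add]; congr 1; funext y; rw [← cv_add]; congr 1; exact funext hb
    have e3 : cv (cv a (cv j τ)) (cv j b) = cv a (cv j (cv b (cv j τ))) := by
      rw [cv_assoc, cv_comm (cv j τ) (cv j b), cv_assoc]
    rw [e3] at e1
    linarith [ha x]
  funext x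
  rw [key h h' x, ← key h' h' x]

/-- the solution inherits the symmetries -/
lemma lace_symm {τ j g : Γ → ℝ} (h : ∀ x, τ x = g x + cv g (cv j τ) x) (e : Γ ≃+ Γ)
    (hτ : ∀ x, τ (e x) = τ x) (hj : ∀ x, j (e x) = j x) (x : Γ) : g (e x) = g x := by
  have e1 : (fun y => cv j τ (e y)) = cv j τ := by
    funext y; rw [← cv_equiv]; simp only [hτ, hj]
  have := lace_unique (g := fun y => g (e y)) (g' := g) (τ := τ) (j := j) (fun y => by
    rw [← hτ y, h (e y), ← cv_equiv e g (cv j τ) y, e1]) h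
  exact congrFun this x

end Conv

section Ker

variable {V : Type} [Fintype V] {t s F F' : V → V → ℝ}

lemma k1_nonneg (ht : ∀ a b, 0 ≤ t a b) (hs : ∀ a b, 0 ≤ s a b) (w u w' u' : V) :
    0 ≤ k1 t s w u w' u' :=
  Finset.sum_nonneg fun _ _ => Finset.sum_nonneg fun _ _ => by
    repeat' apply mul_nonneg
    all_goals first | exact ht _ _ | exact hs _ _

lemma k2_nonneg (ht : ∀ a b, 0 ≤ t a b) (hs : ∀ a b, 0 ≤ s a b) (w u w' u' : V) :
    0 ≤ k2 t s w u w' u' :=
  Finset.sum_nonneg fun _ _ => Finset.sum_nonneg fun _ _ => by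
    repeat' apply mul_nonneg
    all_goals first | exact ht _ _ | exact hs _ _

lemma GE_nonneg (ht : ∀ a b, 0 ≤ t a b) (hs : ∀ a b, 0 ≤ s a b) (x w u : V) :
    0 ≤ GE t s x w u :=
  Finset.sum_nonneg fun _ _ => Finset.sum_nonneg fun _ _ => by
    repeat' apply mul_nonneg
    all_goals first | exact ht _ _ | exact hs _ _

lemma KO_mono (ht : ∀ a b, 0 ≤ t a b) (hs : ∀ a b, 0 ≤ s a b) (h : ∀ a b, F a b ≤ F' a b)
    (w u : V) : KO t s F w u ≤ KO t s F' w u :=
  Finset.sum_le_sum fun _ _ => Finset.sum_le_sum fun _ _ => mul_le_mul_of_nonneg_left (h _ _)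
    (add_nonneg (k1_nonneg ht hs _ _ _ _) (k2_nonneg ht hs _ _ _ _))

lemma KO_iter_nonneg (ht : ∀ a b, 0 ≤ t a b) (hs : ∀ a b, 0 ≤ s a b) (h : ∀ a b, 0 ≤ F a b)
    (N : ℕ) (w u : V) : 0 ≤ ((KO t s)^[N] F) w u := by
  induction N generalizing w u with
  | zero => exact h w u
  | succ N ih =>
    rw [Function.iterate_succ_apply']
    exact Finset.sum_nonneg fun _ _ => Finset.sum_nonneg fun _ _ => mul_nonneg
      (add_nonneg (k1_nonneg ht hs _ _ _ _) (k2_nonneg ht hs _ _ _ _)) (ih _ _)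

end Ker

section Torus

variable {d M : ℕ} [NeZero M] {p : ℝ}

/-- an additive automorphism preserving the neighbours of the origin, followed by a shift -/
lemma torus_adj_sub {a b : T d M} : (torus d M).Adj a b ↔ (torus d M).Adj 0 (b - a) := by
  simp only [torus_adj, zero_add, ne_eq]
  refine and_congr (not_congr ⟨fun h => by rw [h, sub_self], fun h => (sub_eq_zero.1 h.symm).symm⟩)
    (or_congr (exists_congr fun i => ?_) (exists_congr fun i => ?_))
  · rw [sub_eq_iff_eq_add']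
  · constructor
    · intro h; rw [h]; abel
    · intro h; rw [← sub_eq_zero, h]; rw [eq_comm, ← sub_eq_zero]
      have : b - a + Pi.single i 1 - (a - (b + Pi.single i 1)) =
        (b - a + Pi.single i 1) + (b - a + Pi.single i 1) := by abel
      rw [this, ← h, add_zero]

lemma tau_torus (h0 : 0 ≤ p) (h1 : p ≤ 1) (a b : T d M) :
    tau (torus d M) p a b = tauT d M p (b - a) := by
  let φ : torus d M ≃g torus d M := ⟨Equiv.addRight a, fun {x y} => by
    rw [torus_adj_sub, torus_adj_sub (a := x)]; simp⟩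
  have := tau_iso (x := 0) (y := b - a) h0 h1 φ
  rw [tauT, ← this]
  congr 1
  · exact (zero_add a).symm
  · exact (sub_add_cancel b a).symm

lemma sig_torus (h0 : 0 ≤ p) (h1 : p ≤ 1) (a b : T d M) :
    sig (torus d M) p a b = sigT d M p (b - a) := by
  rw [sigT, ← cv_two, sig]
  refine Finset.sum_congr rfl fun c _ => ?_
  rw [tau_torus h0 h1, JT, ind_congr (torus_adj_sub (a := a) (b := c))]
  ring

lemma tauT_nonneg (h0 : 0 ≤ p) (h1 : p ≤ 1) (x : T d M) : 0 ≤ tauT d M p x := tau_nonneg h0 h1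

lemma tauT_le_one (h0 : 0 ≤ p) (h1 : p ≤ 1) (x : T d M) : tauT d M p x ≤ 1 := tau_le_one h0 h1

lemma tauT_zero : tauT d M p 0 = 1 := tau_self

lemma JT_nonneg (x : T d M) : 0 ≤ JT d M x := ind_nonneg _

lemma sigT_nonneg (h0 : 0 ≤ p) (h1 : p ≤ 1) (x : T d M) : 0 ≤ sigT d M p x :=
  cv_nonneg (fun _ => mul_nonneg h0 (JT_nonneg _)) (tauT_nonneg h0 h1) x

lemma tauT_first (h0 : 0 ≤ p) (h1 : p ≤ 1) (x : T d M) :
    tauT d M p x ≤ dl x + sigT d M p x := by
  have := tau_first (G := torus d M) (x := 0) (y := x) h0 h1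
  rwa [sig_torus h0 h1, sub_zero] at this

/-- invariance under additive automorphisms that preserve the neighbours of the origin -/
lemma tauT_equiv (h0 : 0 ≤ p) (h1 : p ≤ 1) (e : T d M ≃+ T d M)
    (he : ∀ x, (torus d M).Adj 0 (e x) ↔ (torus d M).Adj 0 x) (x : T d M) :
    tauT d M p (e x) = tauT d M p x := by
  let φ : torus d M ≃g torus d M := ⟨e.toEquiv, fun {x y} => by
    rw [torus_adj_sub, torus_adj_sub (a := x), ← he (y - x), map_sub]; rfl⟩
  have := tau_iso (x := 0) (y := x) h0 h1 φ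
  rw [tauT, tauT, ← this]
  congr 1
  exact (map_zero e).symm

lemma adj_zero_iff {x : T d M} : (torus d M).Adj 0 x ↔
    x ≠ 0 ∧ ∃ i, x = Pi.single i 1 ∨ x = -Pi.single i 1 := by
  rw [torus_adj]
  refine and_congr ne_comm ?_
  simp only [zero_add, exists_or, eq_neg_iff_add_eq_zero]
  exact or_congr Iff.rfl (exists_congr fun i => eq_comm)

/-- permutation of the coordinates -/
def permT (π : Equiv.Perm (Fin d)) : T d M ≃+ T d M where
  toFun x := fun i => x (π i)
  invFun x := fun i => x (π.symm i)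
  left_inv x := by funext i; simp
  right_inv x := by funext i; simp
  map_add' _ _ := rfl

/-- change of sign of one coordinate -/
def flipT (j : Fin d) : T d M ≃+ T d M where
  toFun x := fun i => if i = j then -x i else x i
  invFun x := fun i => if i = j then -x i else x i
  left_inv x := by funext i; by_cases h : i = j <;> simp [h]
  right_inv x := by funext i; by_cases h : i = j <;> simp [h]
  map_add' x y := by funext i; by_cases h : i = j <;> simp [h, add_comm]

lemma adj_equiv (e : T d M ≃+ T d M)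
    (h : ∀ i, ∃ k, e (Pi.single i 1) = Pi.single k 1 ∨ e (Pi.single i 1) = -Pi.single k 1)
    (h' : ∀ i, ∃ k, e.symm (Pi.single i 1) = Pi.single k 1 ∨
      e.symm (Pi.single i 1) = -Pi.single k 1) (x : T d M) :
    (torus d M).Adj 0 (e x) ↔ (torus d M).Adj 0 x := by
  have key : ∀ e : T d M ≃+ T d M, (∀ i, ∃ k, e (Pi.single i 1) = Pi.single k 1 ∨
      e (Pi.single i 1) = -Pi.single k 1) → ∀ x, (torus d M).Adj 0 x → (torus d M).Adj 0 (e x) := by
    intro e h x hx
    rw [adj_zero_iff] at hx ⊢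
    obtain ⟨h0, i, hi⟩ := hx
    obtain ⟨k, hk⟩ := h i
    refine ⟨fun h2 => h0 (e.map_eq_zero_iff.1 h2), k, ?_⟩
    rcases hi with rfl | rfl <;> rcases hk with hk | hk <;> simp [hk]
  refine ⟨fun hx => ?_, key e h x⟩
  simpa using key e.symm h' _ hx

lemma adj_permT (π : Equiv.Perm (Fin d)) (x : T d M) :
    (torus d M).Adj 0 (permT π x) ↔ (torus d M).Adj 0 x := by
  refine adj_equiv _ (fun i => ⟨π.symm i, Or.inl ?_⟩) (fun i => ⟨π i, Or.inl ?_⟩) x
  · funext k
    show (Pi.single i 1 : T d M) (π k) = _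
    simp only [Pi.single_apply, Equiv.eq_symm_apply]
  · funext k
    show (Pi.single i 1 : T d M) (π.symm k) = _
    simp only [Pi.single_apply, Equiv.symm_apply_eq]

lemma adj_flipT (j : Fin d) (x : T d M) :
    (torus d M).Adj 0 (flipT j x) ↔ (torus d M).Adj 0 x := by
  have h : ∀ i, ∃ k, (flipT j : T d M ≃+ T d M) (Pi.single i 1) = Pi.single k 1 ∨
      (flipT j : T d M ≃+ T d M) (Pi.single i 1) = -Pi.single k 1 := by
    intro i
    refine ⟨i, ?_⟩
    by_cases hi : i = j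
    · refine Or.inr (funext fun k => ?_)
      show (if k = j then -(Pi.single i 1 : T d M) k else (Pi.single i 1 : T d M) k) = _
      by_cases hk : k = j
      · simp [hk]
      · simp [hk, hi]
    · refine Or.inl (funext fun k => ?_)
      show (if k = j then -(Pi.single i 1 : T d M) k else (Pi.single i 1 : T d M) k) = _
      by_cases hk : k = j
      · simp [hk, Ne.symm hi]
      · simp [hk]
  exact adj_equiv _ h h x

lemma adj_neg (x : T d M) : (torus d M).Adj 0 (-x) ↔ (torus d M).Adj 0 x := by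
  rw [torus_adj_sub (a := 0) (b := -x), sub_zero, SimpleGraph.adj_comm, torus_adj_sub,
    zero_sub, neg_neg]

lemma JT_even (x : T d M) : JT d M (-x) = JT d M x := ind_congr (adj_neg x)

lemma tauT_even (h0 : 0 ≤ p) (h1 : p ≤ 1) (x : T d M) : tauT d M p (-x) = tauT d M p x :=
  tauT_equiv h0 h1 (AddEquiv.neg _) adj_neg x

lemma sigT_even (h0 : 0 ≤ p) (h1 : p ≤ 1) (x : T d M) : sigT d M p (-x) = sigT d M p x :=
  cv_even (fun y => by rw [JT_even]) (tauT_even h0 h1) x

/-- the lace function has the symmetries of the torus -/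
lemma LaceOut.symm (h0 : 0 ≤ p) (h1 : p ≤ 1) {η : ℝ} {g : T d M → ℝ}
    (h : LaceOut (tauT d M p) (sigT d M p) η g) (e : T d M ≃+ T d M)
    (he : ∀ x, (torus d M).Adj 0 (e x) ↔ (torus d M).Adj 0 x) (x : T d M) : g (e x) = g x :=
  lace_symm (j := fun x => p * JT d M x) h.eq e (tauT_equiv h0 h1 e he)
    (fun y => by rw [JT, JT, ind_congr (he y)]) x

end Torus

end Pool.Agent.HD
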