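import Pool.Agent.Lib.HD.BlueA
import Pool.Agent.Lib.HD.LBasic

/-! Sums of the diagrams and the pointwise bound. -/

open Finset Classical

namespace Pool.Agent.HD

namespace C123

variable {Γ : Type} [Fintype Γ] [AddCommGroup Γ]

omit [AddCommGroup Γ] in
lemma sum_KO (t s : Γ → Γ → ℝ) (F : Γ → Γ → Γ → ℝ) (a : Γ → ℝ) (w u : Γ) :
    ∑ x, a x * KO t s (F x) w u =
      ∑ w', ∑ u', (k1 t s w u w' u' + k2 t s w u w' u') * ∑ x, a x * F x w' u' := by
  simp only [KO, Finset.mul_sum]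
  rw [Finset.sum_comm]
  refine Finset.sum_congr rfl fun w' _ => ?_
  rw [Finset.sum_comm]
  exact Finset.sum_congr rfl fun u' _ => Finset.sum_congr rfl fun x _ => by ring

lemma sum_PN (τ σ a : Γ → ℝ) (N : ℕ) :
    ∑ x, a x * PN (kr τ) (kr σ) 0 N x = ∑ w, ∑ u, τ u * τ w * τ (u - w) *
      ∑ x, a x * ((KO (kr τ) (kr σ))^[N] (GE (kr τ) (kr σ) x)) w u := by
  simp only [PN, Finset.mul_sum]
  rw [Finset.sum_comm]
  refine Finset.sum_congr rfl fun w _ => ?_
  rw [Finset.sum_comm]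
  refine Finset.sum_congr rfl fun u _ => Finset.sum_congr rfl fun x _ => ?_
  simp only [kr, sub_zero]
  ring

lemma tri_eq {τ : Γ → ℝ} (he : ∀ x, τ (-x) = τ x) (a : Γ → ℝ) :
    ∑ w, ∑ u, τ u * τ w * τ (u - w) * a u = cv (fun y => a y * τ y) (cv τ τ) 0 := by
  rw [Finset.sum_comm, cv]
  refine Finset.sum_congr rfl fun u _ => ?_
  rw [zero_sub, cv_even he he, cv, Finset.mul_sum]
  exact Finset.sum_congr rfl fun w _ => by ring

end C123

open C123 in
theorem st_c12 (h1 : St_R1) (h2 : St_R2a) (h3 : St_R2b) : St_C12 := by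
  intro Γ _ _ τ σ η h
  have t0 : ∀ a b, 0 ≤ kr τ a b := fun _ _ => h.t0 _
  have s0 : ∀ a b, 0 ≤ kr σ a b := fun _ _ => h.s0 _
  have η0 : 0 ≤ η := (cv_nonneg h.s0 (cv_nonneg h.t0 h.t0) 0).trans (h.tri 0)
  have η1 := h.small
  have K0 := fun w u w' u' => add_nonneg (k1_nonneg t0 s0 w u w' u') (k2_nonneg t0 s0 w u w' u')
  have F0 := fun (N : ℕ) x w u => KO_iter_nonneg t0 s0 (GE_nonneg t0 s0 x) N w u
  have T0 : ∀ w u, 0 ≤ τ u * τ w * τ (u - w) := fun w u =>
    mul_nonneg (mul_nonneg (h.t0 _) (h.t0 _)) (h.t0 _)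
  have KS : ∀ w u, ∑ w', ∑ u', (k1 (kr τ) (kr σ) w u w' u' + k2 (kr τ) (kr σ) w u w' u') ≤
      4 * η := fun w u => by
    simp only [Finset.sum_add_distrib]
    linarith [(h1 Γ τ σ η h w u).1, (h1 Γ τ σ η h w u).2.1]
  have TS : ∑ w, ∑ u, τ u * τ w * τ (u - w) ≤ 2 := by
    have := tri_eq h.te fun _ => 1
    simp only [mul_one, one_mul] at this
    rw [this]
    exact h.tri2 0
  have c : ∀ (N : ℕ) w u, ∑ x, 1 * ((KO (kr τ) (kr σ))^[N] (GE (kr τ) (kr σ) x)) w u ≤
      2 * η * (1 / 2) ^ N := by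
    intro N
    induction N with
    | zero => intro w u; simpa using (h1 Γ τ σ η h w u).2.2
    | succ N ih =>
      intro w u
      simp only [Function.iterate_succ_apply']
      rw [sum_KO]
      calc _ ≤ ∑ w', ∑ u', (k1 (kr τ) (kr σ) w u w' u' + k2 (kr τ) (kr σ) w u w' u') *
            (2 * η * (1 / 2) ^ N) := Finset.sum_le_sum fun w' _ => Finset.sum_le_sum fun u' _ =>
              mul_le_mul_of_nonneg_left (ih w' u') (K0 _ _ _ _)
        _ ≤ 1 / 2 * (2 * η * (1 / 2) ^ N) := by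
            simp only [← Finset.sum_mul]
            exact mul_le_mul_of_nonneg_right ((KS w u).trans (by linarith)) (by positivity)
        _ = _ := by ring
  intro N
  refine ⟨?_, fun ϖ L W hw => ?_⟩
  · have := sum_PN τ σ (fun _ => 1) N
    simp only [one_mul] at this c
    rw [this]
    calc _ ≤ ∑ w, ∑ u, τ u * τ w * τ (u - w) * (2 * η * (1 / 2) ^ N) :=
          Finset.sum_le_sum fun w _ => Finset.sum_le_sum fun u _ =>
            mul_le_mul_of_nonneg_left (c N w u) (T0 _ _)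
      _ ≤ 2 * (2 * η * (1 / 2) ^ N) := by
          simp only [← Finset.sum_mul]
          exact mul_le_mul_of_nonneg_right TS (by positivity)
      _ = _ := by ring
  have L2 := hw.L2
  have L0 : 0 ≤ L := by linarith
  have W0 : 0 ≤ W := (cv_nonneg (fun y => mul_nonneg (hw.nn y) (h.t0 y))
    (cv_nonneg h.t0 h.t0) 0).trans (hw.w1 0)
  have L3 : 3 * L * W ≤ L ^ 3 * W := mul_le_mul_of_nonneg_right
    (by nlinarith [mul_le_mul_of_nonneg_left (show 3 ≤ L ^ 2 by nlinarith) L0]) W0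
  have sp : ∀ (N : ℕ) (w' u' u : Γ) (v : ℝ),
      ∑ x, ϖ (x - u') * ((KO (kr τ) (kr σ))^[N] (GE (kr τ) (kr σ) x)) w' u' ≤ v →
      ∑ x, ϖ (x - u) * ((KO (kr τ) (kr σ))^[N] (GE (kr τ) (kr σ) x)) w' u' ≤
        2 * v + ϖ (u' - u) * (L * (2 * η * (1 / 2) ^ N)) := by
    intro N w' u' u v hv
    have a1 := mul_le_mul_of_nonneg_left (c N w' u') (mul_nonneg (hw.nn (u' - u)) L0)
    refine le_trans ?_ (add_le_add (mul_le_mul_of_nonneg_left hv zero_le_two)
      (a1.trans_eq (mul_assoc _ _ _)))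
    rw [Finset.mul_sum, Finset.mul_sum, ← Finset.sum_add_distrib]
    refine Finset.sum_le_sum fun x _ => ?_
    have := hw.sub (x - u') (u' - u)
    rw [sub_add_sub_cancel] at this
    refine (mul_le_mul_of_nonneg_right this (F0 N x w' u')).trans (le_of_eq (by ring))
  have v : ∀ (N : ℕ) w u, ∑ x, ϖ (x - u) * ((KO (kr τ) (kr σ))^[N] (GE (kr τ) (kr σ) x)) w u ≤
      L ^ 3 * W * (1 / 2) ^ N := by
    intro N
    induction N with
    | zero =>
      intro w u
      simpa [mul_comm] using (h2 Γ τ σ ϖ η L W h hw w u).2.trans L3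
    | succ N ih =>
      intro w u
      simp only [Function.iterate_succ_apply']
      rw [sum_KO]
      have b1 := (h2 Γ τ σ ϖ η L W h hw w u).1
      have b2 := h3 Γ τ σ ϖ η L W h hw w u
      calc _ ≤ ∑ w', ∑ u', (k1 (kr τ) (kr σ) w u w' u' + k2 (kr τ) (kr σ) w u w' u') *
            (2 * (L ^ 3 * W * (1 / 2) ^ N) + ϖ (u' - u) * (L * (2 * η * (1 / 2) ^ N))) :=
            Finset.sum_le_sum fun w' _ => Finset.sum_le_sum fun u' _ =>
              mul_le_mul_of_nonneg_left (sp N w' u' u _ (ih w' u')) (K0 _ _ _ _)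
        _ = (∑ w', ∑ u', (k1 (kr τ) (kr σ) w u w' u' + k2 (kr τ) (kr σ) w u w' u')) *
            (2 * (L ^ 3 * W * (1 / 2) ^ N)) +
            (∑ w', ∑ u', k1 (kr τ) (kr σ) w u w' u' * ϖ (u' - u) +
              ∑ w', ∑ u', k2 (kr τ) (kr σ) w u w' u' * ϖ (u' - u)) *
              (L * (2 * η * (1 / 2) ^ N)) := by
            simp only [Finset.sum_mul, ← Finset.sum_add_distrib]
            exact Finset.sum_congr rfl fun _ _ => Finset.sum_congr rfl fun _ _ => by ring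
        _ ≤ 4 * η * (2 * (L ^ 3 * W * (1 / 2) ^ N)) +
            (4 * L ^ 2 * W + 5 * L ^ 2 * W) * (L * (2 * η * (1 / 2) ^ N)) :=
            add_le_add (mul_le_mul_of_nonneg_right (KS w u) (by positivity))
              (mul_le_mul_of_nonneg_right (add_le_add b1 b2) (by positivity))
        _ = 26 * η * (L ^ 3 * W * (1 / 2) ^ N) := by ring
        _ ≤ 1 / 2 * (L ^ 3 * W * (1 / 2) ^ N) :=
            mul_le_mul_of_nonneg_right (by linarith) (by positivity)
        _ = _ := by ring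
  rw [sum_PN]
  have TW := (tri_eq h.te ϖ).trans_le (hw.w1 0)
  calc _ ≤ ∑ w, ∑ u, τ u * τ w * τ (u - w) *
        (2 * (L ^ 3 * W * (1 / 2) ^ N) + ϖ u * (L * (2 * η * (1 / 2) ^ N))) :=
        Finset.sum_le_sum fun w _ => Finset.sum_le_sum fun u _ =>
          mul_le_mul_of_nonneg_left (by simpa only [sub_zero] using sp N w u 0 _ (v N w u)) (T0 _ _)
    _ = (∑ w, ∑ u, τ u * τ w * τ (u - w)) * (2 * (L ^ 3 * W * (1 / 2) ^ N)) +
        (∑ w, ∑ u, τ u * τ w * τ (u - w) * ϖ u) * (L * (2 * η * (1 / 2) ^ N)) := by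
        simp only [Finset.sum_mul, ← Finset.sum_add_distrib]
        exact Finset.sum_congr rfl fun _ _ => Finset.sum_congr rfl fun _ _ => by ring
    _ ≤ 2 * (2 * (L ^ 3 * W * (1 / 2) ^ N)) + W * (L * (2 * η * (1 / 2) ^ N)) :=
        add_le_add (mul_le_mul_of_nonneg_right TS (by positivity))
          (mul_le_mul_of_nonneg_right TW (by positivity))
    _ = (4 * (L ^ 3 * W) + 2 * η * (L * W)) * (1 / 2) ^ N := by ring
    _ ≤ _ := mul_le_mul_of_nonneg_right (by nlinarith [mul_nonneg L0 W0]) (by positivity)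

theorem st_c3 (h1 : St_R3a) (h2 : St_R3b) : St_C3 := by
  intro Γ _ _ τ σ ρ β η θ A B h hs N y
  obtain ⟨a1, a2, a3⟩ := h1 Γ τ σ ρ β η θ A B h hs y
  have a4 := h2 Γ τ σ ρ β η θ A B h hs y
  have t0 : ∀ a b, 0 ≤ kr τ a b := fun _ _ => h.t0 _
  have s0 : ∀ a b, 0 ≤ kr σ a b := fun _ _ => h.s0 _
  have c : ∀ (N : ℕ) w u, ((KO (kr τ) (kr σ))^[N] (GE (kr τ) (kr σ) y)) w u ≤
      A ^ 2 * (1 / 2) ^ N * (ρ (w - y) * ρ (u - y)) := by
    intro N
    induction N with
    | zero => simpa using a2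
    | succ N ih =>
      intro w u
      rw [Function.iterate_succ_apply']
      refine (KO_mono t0 s0 ih w u).trans ?_
      calc _ = A ^ 2 * (1 / 2) ^ N *
            (∑ w', ∑ u', k1 (kr τ) (kr σ) w u w' u' * (ρ (w' - y) * ρ (u' - y)) +
              ∑ w', ∑ u', k2 (kr τ) (kr σ) w u w' u' * (ρ (w' - y) * ρ (u' - y))) := by
            simp only [KO, ← Finset.sum_add_distrib, Finset.mul_sum]
            exact Finset.sum_congr rfl fun _ _ => Finset.sum_congr rfl fun _ _ => by ring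
        _ ≤ A ^ 2 * (1 / 2) ^ N * (1 / 4 * (ρ (w - y) * ρ (u - y)) +
              1 / 4 * (ρ (w - y) * ρ (u - y))) :=
            mul_le_mul_of_nonneg_left (add_le_add (a1 w u) (a4 w u)) (by positivity)
        _ = _ := by ring
  calc _ ≤ ∑ w, ∑ u, A ^ 2 * (1 / 2) ^ N * (τ u * τ w * τ (u - w) * (ρ (w - y) * ρ (u - y))) := by
        refine Finset.sum_le_sum fun w _ => Finset.sum_le_sum fun u _ => ?_
        refine (mul_le_mul_of_nonneg_left (c N w u)
          (mul_nonneg (mul_nonneg (t0 _ _) (t0 _ _)) (t0 _ _))).trans (le_of_eq ?_)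
        simp only [kr, sub_zero]
        ring
    _ ≤ A ^ 2 * (1 / 2) ^ N * (9 * ρ y ^ 2) := by
        simp only [← Finset.mul_sum]
        exact mul_le_mul_of_nonneg_left a3 (by positivity)
    _ = _ := by ring

end Pool.Agent.HD
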