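import Pool.Agent.Lib.HD.BlueA
import Pool.Agent.Lib.HD.LBasic

/-! Block R1: row sums of the transfer kernels. -/

open Finset Classical

namespace Pool.Agent.HD

namespace R1

variable {Γ : Type} [Fintype Γ] [AddCommGroup Γ] {τ σ : Γ → ℝ} {η : ℝ}

lemma eta0 (H : Dia τ σ η) : 0 ≤ η := (cv_nonneg H.s0 (cv_nonneg H.t0 H.t0) 0).trans (H.tri 0)

lemma sum4 (F : Γ → Γ → Γ → Γ → ℝ) :
    ∑ a, ∑ b, ∑ z, ∑ c, F a b z c = ∑ c, ∑ z, ∑ a, ∑ b, F a b z c := by
  calc ∑ a, ∑ b, ∑ z, ∑ c, F a b z c = ∑ a, ∑ z, ∑ b, ∑ c, F a b z c :=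
        Finset.sum_congr rfl fun _ _ => Finset.sum_comm
    _ = ∑ z, ∑ a, ∑ c, ∑ b, F a b z c := by
        rw [Finset.sum_comm]
        exact Finset.sum_congr rfl fun _ _ => Finset.sum_congr rfl fun _ _ => Finset.sum_comm
    _ = ∑ z, ∑ c, ∑ a, ∑ b, F a b z c := Finset.sum_congr rfl fun _ _ => Finset.sum_comm
    _ = ∑ c, ∑ z, ∑ a, ∑ b, F a b z c := Finset.sum_comm

/-- a bubble with a chord between `c` and `z` -/
lemma chord (H : Dia τ σ η) (F : Γ → Γ → ℝ) (h : ∀ r, ∑ c, F c (r + c) ≤ η) :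
    ∑ c, ∑ z, F c z * (τ (z - c) * cv τ τ (z - c)) ≤ 2 * η := by
  have e : ∀ c, ∑ z, F c z * (τ (z - c) * cv τ τ (z - c)) =
      ∑ r, F c (r + c) * (τ r * cv τ τ r) := fun c => by
    rw [← sum_shift (fun z => F c z * (τ (z - c) * cv τ τ (z - c))) c]
    simp only [add_sub_cancel_right]
  simp only [e]
  rw [Finset.sum_comm]
  have h1 : ∑ r, τ r * cv τ τ r ≤ 2 := by
    refine le_trans (le_of_eq ?_) (H.tri2 0)
    exact Finset.sum_congr rfl fun r _ => by rw [zero_sub, cv_even H.te H.te]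
  calc ∑ r, ∑ c, F c (r + c) * (τ r * cv τ τ r) ≤ ∑ r, η * (τ r * cv τ τ r) :=
        Finset.sum_le_sum fun r _ => by
          rw [← Finset.sum_mul]
          exact mul_le_mul_of_nonneg_right (h r) (mul_nonneg (H.t0 r) (cv_nonneg H.t0 H.t0 r))
    _ ≤ 2 * η := by
        rw [← Finset.mul_sum, mul_comm]
        exact mul_le_mul_of_nonneg_right h1 (eta0 H)

end R1

open R1 in
theorem st_r1 : St_R1 := by
  intro Γ _ _ τ σ η H w u
  refine ⟨?_, ?_, ?_⟩
  · simp only [k1, kr]
    rw [sum4]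
    refine le_trans (Finset.sum_le_sum fun c _ => Finset.sum_le_sum fun z _ => (?_ :
      _ ≤ 2 * (σ (c - u) * τ (z - c) * τ (w - z)))) ?_
    · have e : ∑ a, ∑ b, τ (z - w) * σ (c - u) * τ (z - c) * τ (a - c) * τ (b - z) * τ (b - a) =
          cv τ (cv τ τ) (z - c) * (σ (c - u) * τ (z - c) * τ (w - z)) := by
        rw [← cv_three, Finset.sum_mul]
        refine Finset.sum_congr rfl fun a _ => ?_
        rw [Finset.sum_mul]
        refine Finset.sum_congr rfl fun b _ => ?_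
        rw [even_sub H.te z w, even_sub H.te b z]; ring
      rw [e]
      exact mul_le_mul_of_nonneg_right (H.tri2 _)
        (mul_nonneg (mul_nonneg (H.s0 _) (H.t0 _)) (H.t0 _))
    · simp only [← Finset.mul_sum]
      rw [cv_three]
      linarith [H.tri (w - u)]
  · simp only [k2, kr]
    rw [sum4]
    refine le_trans (le_of_eq ?_)
      (chord H (fun c z => ∑ a, σ (a - u) * τ (c - a) * τ (w - z)) fun r => ?_)
    · refine Finset.sum_congr rfl fun c _ => Finset.sum_congr rfl fun z _ => ?_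
      rw [Finset.sum_mul]
      refine Finset.sum_congr rfl fun a _ => ?_
      rw [← cv_two, Finset.mul_sum, Finset.mul_sum]
      refine Finset.sum_congr rfl fun b _ => ?_
      rw [even_sub H.te z w, even_sub H.te b z]; ring
    · rw [Finset.sum_comm]
      refine le_trans (le_of_eq ?_) (H.tri (w - r - u))
      rw [← cv_three]
      simp only [sub_sub]
  · simp only [GE, kr]
    have e : ∑ x, ∑ z, ∑ c, τ (z - w) * σ (c - u) * τ (z - c) * τ (x - c) * τ (x - z) =
        ∑ c, ∑ z, ∑ x, τ (z - w) * σ (c - u) * τ (z - c) * τ (x - c) * τ (x - z) := by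
      rw [Finset.sum_comm]
      exact (Finset.sum_congr rfl fun _ _ => Finset.sum_comm).trans Finset.sum_comm
    rw [e]
    refine le_trans (le_of_eq ?_) (chord H (fun c z => σ (c - u) * τ (w - z)) fun r => ?_)
    · refine Finset.sum_congr rfl fun c _ => Finset.sum_congr rfl fun z _ => ?_
      rw [← cv_two, Finset.mul_sum, Finset.mul_sum]
      refine Finset.sum_congr rfl fun b _ => ?_
      rw [even_sub H.te z w, even_sub H.te b z]; ring
    · refine le_trans (le_of_eq ?_) ((cv_mono H.s0 H.t0 (fun _ => le_rfl)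
        (le_cv H.t0 H.t0 H.t1.ge) (w - r - u)).trans (H.tri _))
      rw [← cv_two]
      simp only [sub_sub]

end Pool.Agent.HD
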