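import Pool.Agent.Lib.HD.BlueA
import Pool.Agent.Lib.HD.LBasic

/-! Weighted row sums of the first kernel and of the last level. -/

open Finset Classical

namespace Pool.Agent.HD

namespace R2a

variable {Γ : Type} [Fintype Γ] [AddCommGroup Γ]

omit [AddCommGroup Γ] in
lemma swap3 (F : Γ → Γ → Γ → ℝ) : ∑ a, ∑ c, ∑ d, F a c d = ∑ c, ∑ d, ∑ a, F a c d := by
  rw [Finset.sum_comm]
  exact Finset.sum_congr rfl fun c _ => Finset.sum_comm

omit [AddCommGroup Γ] in
lemma swap4 (F : Γ → Γ → Γ → Γ → ℝ) :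
    ∑ a, ∑ b, ∑ c, ∑ d, F a b c d = ∑ c, ∑ d, ∑ a, ∑ b, F a b c d := by
  have h : ∀ a, ∑ b, ∑ c, ∑ d, F a b c d = ∑ c, ∑ d, ∑ b, F a b c d := fun a => swap3 (F a)
  simp only [h]
  exact swap3 fun a c d => ∑ b, F a b c d

/-- the left triangle times a bounded factor -/
lemma tri1 {τ f : Γ → ℝ} {a b : ℝ} (t0 : ∀ x, 0 ≤ τ x) (te : ∀ x, τ (-x) = τ x)
    (f0 : ∀ x, 0 ≤ f x) (ha : ∀ x, cv f (cv τ τ) x ≤ a) (hb : 0 ≤ b) (w u : Γ) (H : Γ → Γ → ℝ)
    (hH : ∀ z c, H z c ≤ b) : ∑ z, ∑ c, τ (z - w) * f (c - u) * τ (z - c) * H z c ≤ a * b := by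
  have h1 : ∑ z, ∑ c, τ (z - w) * f (c - u) * τ (z - c) = cv f (cv τ τ) (w - u) := by
    rw [← cv_three, Finset.sum_comm]
    refine Finset.sum_congr rfl fun c _ => Finset.sum_congr rfl fun z _ => ?_
    rw [← te (w - z), neg_sub]
    ring
  calc ∑ z, ∑ c, τ (z - w) * f (c - u) * τ (z - c) * H z c
      ≤ ∑ z, ∑ c, τ (z - w) * f (c - u) * τ (z - c) * b :=
        Finset.sum_le_sum fun z _ => Finset.sum_le_sum fun c _ =>
          mul_le_mul_of_nonneg_left (hH z c) (mul_nonneg (mul_nonneg (t0 _) (f0 _)) (t0 _))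
    _ = cv f (cv τ τ) (w - u) * b := by
        rw [← h1]
        simp only [Finset.sum_mul]
    _ ≤ a * b := mul_le_mul_of_nonneg_right (ha _) hb

end R2a

open R2a in
theorem st_r2a : St_R2a := by
  intro Γ _ _ τ σ ϖ η L W hD hW w u
  have t0 := hD.t0
  have s0 := hD.s0
  have te := hD.te
  have wt0 : ∀ x, 0 ≤ ϖ x * τ x := fun x => mul_nonneg (hW.nn x) (t0 x)
  have ws0 : ∀ x, 0 ≤ ϖ x * σ x := fun x => mul_nonneg (hW.nn x) (s0 x)
  have tt0 : ∀ x, 0 ≤ cv τ τ x := cv_nonneg t0 t0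
  have W0 : 0 ≤ W := (cv_nonneg wt0 tt0 0).trans (hW.w1 0)
  have L2 := hW.L2
  have hη := hD.small
  have tsw : ∀ a b, τ (a - b) = τ (b - a) := fun a b => by rw [← te, neg_sub]
  have hLW : 0 ≤ L * W := mul_nonneg (by linarith) W0
  have hηW : η * W ≤ W := by nlinarith
  constructor
  · have A1 := tri1 t0 te ws0 hW.w2 (by norm_num : (0 : ℝ) ≤ 2) w u
      (fun z c => ∑ w', ∑ u', τ (w' - c) * τ (u' - w') * τ (z - u'))
      fun z c => by rw [cv_three]; exact hD.tri2 _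
    have A2 := tri1 t0 te s0 hD.tri W0 w u
      (fun z c => ∑ w', ∑ u', (ϖ (w' - c) * τ (w' - c)) * τ (u' - w') * τ (z - u'))
      fun z c => by rw [cv_three (fun y => ϖ y * τ y)]; exact hW.w1 _
    have A3 := tri1 t0 te s0 hD.tri W0 w u
      (fun z c => ∑ w', ∑ u', τ (w' - c) * (ϖ (u' - w') * τ (u' - w')) * τ (z - u'))
      fun z c => by
        rw [cv_three τ (fun y => ϖ y * τ y), ← cv_assoc, cv_comm τ (fun y => ϖ y * τ y), cv_assoc]
        exact hW.w1 _
    have key : ∑ w', ∑ u', k1 (kr τ) (kr σ) w u w' u' * ϖ (u' - u) ≤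
        2 * (∑ z, ∑ c, τ (z - w) * (ϖ (c - u) * σ (c - u)) * τ (z - c) *
          ∑ w', ∑ u', τ (w' - c) * τ (u' - w') * τ (z - u')) +
        2 * L * (∑ z, ∑ c, τ (z - w) * σ (c - u) * τ (z - c) *
          ∑ w', ∑ u', (ϖ (w' - c) * τ (w' - c)) * τ (u' - w') * τ (z - u')) +
        L ^ 2 * (∑ z, ∑ c, τ (z - w) * σ (c - u) * τ (z - c) *
          ∑ w', ∑ u', τ (w' - c) * (ϖ (u' - w') * τ (u' - w')) * τ (z - u')) := by
      simp only [k1, kr, Finset.sum_mul, Finset.mul_sum, ← Finset.sum_add_distrib]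
      rw [swap4]
      refine Finset.sum_le_sum fun z _ => Finset.sum_le_sum fun c _ =>
        Finset.sum_le_sum fun w' _ => Finset.sum_le_sum fun u' _ => ?_
      have e : u' - u = (c - u) + ((w' - c) + (u' - w')) := by abel
      have b1 := hW.sub (c - u) ((w' - c) + (u' - w'))
      have b2 := mul_le_mul_of_nonneg_left (hW.sub (w' - c) (u' - w')) (by linarith : 0 ≤ L)
      rw [← e] at b1
      have b3 : ϖ (u' - u) ≤ 2 * ϖ (c - u) + 2 * L * ϖ (w' - c) + L ^ 2 * ϖ (u' - w') := by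
        nlinarith
      have p : 0 ≤ τ (z - w) * σ (c - u) * τ (z - c) * τ (w' - c) * τ (u' - z) * τ (u' - w') :=
        mul_nonneg (mul_nonneg (mul_nonneg (mul_nonneg (mul_nonneg (t0 _) (s0 _)) (t0 _)) (t0 _))
          (t0 _)) (t0 _)
      refine (mul_le_mul_of_nonneg_left b3 p).trans (le_of_eq ?_)
      rw [tsw z u']
      ring
    refine key.trans ?_
    have c1 := mul_le_mul_of_nonneg_left (A2.trans hηW) (by linarith : 0 ≤ 2 * L)
    have c2 := mul_le_mul_of_nonneg_left (A3.trans hηW) (sq_nonneg L)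
    have c3 : 4 * W ≤ L ^ 2 * W := mul_le_mul_of_nonneg_right (by nlinarith) W0
    have c4 : 2 * L * W ≤ L ^ 2 * W := mul_le_mul_of_nonneg_right (by nlinarith) W0
    have c5 : 0 ≤ L ^ 2 * W := mul_nonneg (sq_nonneg L) W0
    linarith
  · have A1 := tri1 t0 te ws0 hW.w2 (by norm_num : (0 : ℝ) ≤ 2) w u
      (fun z c => ∑ x, τ (x - c) * τ (z - x))
      fun z c => by
        rw [cv_two]
        refine (le_cv tt0 t0 hD.t1.ge _).trans ?_
        rw [cv_assoc]
        exact hD.tri2 _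
    have A2 := tri1 t0 te s0 hD.tri W0 w u
      (fun z c => ∑ x, (ϖ (x - c) * τ (x - c)) * τ (z - x))
      fun z c => by
        rw [cv_two (fun y => ϖ y * τ y)]
        refine (le_cv (cv_nonneg wt0 t0) t0 hD.t1.ge _).trans ?_
        rw [cv_assoc]
        exact hW.w1 _
    have key : ∑ x, GE (kr τ) (kr σ) x w u * ϖ (x - u) ≤
        2 * (∑ z, ∑ c, τ (z - w) * (ϖ (c - u) * σ (c - u)) * τ (z - c) *
          ∑ x, τ (x - c) * τ (z - x)) +
        L * (∑ z, ∑ c, τ (z - w) * σ (c - u) * τ (z - c) *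
          ∑ x, (ϖ (x - c) * τ (x - c)) * τ (z - x)) := by
      simp only [GE, kr, Finset.sum_mul, Finset.mul_sum, ← Finset.sum_add_distrib]
      rw [swap3]
      refine Finset.sum_le_sum fun z _ => Finset.sum_le_sum fun c _ =>
        Finset.sum_le_sum fun x _ => ?_
      have e : x - u = (c - u) + (x - c) := by abel
      have b1 := hW.sub (c - u) (x - c)
      rw [← e] at b1
      have p : 0 ≤ τ (z - w) * σ (c - u) * τ (z - c) * τ (x - c) * τ (x - z) :=
        mul_nonneg (mul_nonneg (mul_nonneg (mul_nonneg (t0 _) (s0 _)) (t0 _)) (t0 _)) (t0 _)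
      refine (mul_le_mul_of_nonneg_left b1 p).trans (le_of_eq ?_)
      rw [tsw z x]
      ring
    refine key.trans ?_
    have c1 := mul_le_mul_of_nonneg_left (A2.trans hηW) (by linarith : 0 ≤ L)
    have c3 : 4 * W ≤ 2 * L * W := mul_le_mul_of_nonneg_right (by linarith) W0
    linarith

end Pool.Agent.HD
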