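import Pool.Agent.Lib.HD.BlueA
import Pool.Agent.Lib.HD.LBasic

/-! Block R2b: weighted row sums of the second kernel. -/

open Finset Classical

namespace Pool.Agent.HD

namespace R2b

variable {Γ : Type} [Fintype Γ] [AddCommGroup Γ]

/-- the diagram of the second kernel with three free lines -/
noncomputable def dg (τ f g h : Γ → ℝ) (w u : Γ) : ℝ :=
  ∑ w', ∑ u', ∑ z, ∑ c,
    τ (z - w) * f (w' - u) * g (c - w') * τ (z - c) * h (u' - c) * τ (u' - z)

lemma dg_eq {τ : Γ → ℝ} (he : ∀ x, τ (-x) = τ x) (f g h : Γ → ℝ) (w u : Γ) :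
    dg τ f g h w u = ∑ r, cv f (cv g τ) (w - r - u) * (cv h τ r * τ (0 - r)) := by
  have h1 : ∀ w' : Γ, ∑ u', ∑ z, ∑ c,
      τ (z - w) * f (w' - u) * g (c - w') * τ (z - c) * h (u' - c) * τ (u' - z) =
      ∑ r, ∑ c, f (w' - u) * g (c - w') * τ (w - r - c) * (cv h τ r * τ (0 - r)) := by
    intro w'
    rw [Finset.sum_comm, Finset.sum_comm (s := univ) (t := univ) (f := fun r c =>
      f (w' - u) * g (c - w') * τ (w - r - c) * (cv h τ r * τ (0 - r)))]
    have h2 : ∀ z : Γ, ∑ u', ∑ c,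
        τ (z - w) * f (w' - u) * g (c - w') * τ (z - c) * h (u' - c) * τ (u' - z) =
        ∑ c, f (w' - u) * g (c - w') * τ (z - w) * (cv h τ (z - c) * τ (z - c)) := by
      intro z
      rw [Finset.sum_comm]
      refine Finset.sum_congr rfl fun c _ => ?_
      rw [← cv_two, Finset.sum_mul, Finset.mul_sum]
      refine Finset.sum_congr rfl fun u' _ => ?_
      rw [even_sub he u' z]
      ring
    simp only [h2]
    rw [Finset.sum_comm]
    refine Finset.sum_congr rfl fun c _ => ?_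
    refine (Fintype.sum_equiv (Equiv.addRight c) _ _ fun r => ?_).symm
    rw [Equiv.coe_addRight, add_sub_cancel_right, zero_sub, he, even_sub he (r + c) w, sub_sub]
  unfold dg
  simp only [h1]
  rw [Finset.sum_comm]
  refine Finset.sum_congr rfl fun r _ => ?_
  rw [← cv_three, Finset.sum_mul]
  exact Finset.sum_congr rfl fun w' _ => by rw [Finset.sum_mul]

lemma dg_le {τ f g h : Γ → ℝ} {M : ℝ} (he : ∀ x, τ (-x) = τ x) (h0 : ∀ x, 0 ≤ τ x)
    (hh : ∀ x, 0 ≤ h x) (hM : ∀ x, cv f (cv g τ) x ≤ M) (w u : Γ) :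
    dg τ f g h w u ≤ M * cv h (cv τ τ) 0 := by
  rw [dg_eq he, ← cv_assoc h, cv, Finset.mul_sum]
  exact Finset.sum_le_sum fun r _ =>
    mul_le_mul_of_nonneg_right (hM _) (mul_nonneg (cv_nonneg hh h0 _) (h0 _))

end R2b

theorem st_r2b : St_R2b := by
  intro Γ _ _ τ σ ϖ η L W hD hW w u
  have hL := hW.L2
  have hw : ∀ x, 0 ≤ ϖ x * τ x := fun x => mul_nonneg (hW.nn x) (hD.t0 x)
  have h3 : 0 ≤ cv τ (cv τ τ) 0 := cv_nonneg hD.t0 (cv_nonneg hD.t0 hD.t0) 0
  have h4 : 0 ≤ cv (fun y => ϖ y * τ y) (cv τ τ) 0 := cv_nonneg hw (cv_nonneg hD.t0 hD.t0) 0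
  have hW0 : 0 ≤ W := h4.trans (hW.w1 0)
  have hη : 0 ≤ η := (cv_nonneg hD.s0 (cv_nonneg hD.t0 hD.t0) 0).trans (hD.tri 0)
  have a1 := (R2b.dg_le hD.te hD.t0 hD.t0 hW.w2 w u).trans
    (mul_le_mul_of_nonneg_left (hD.tri2 0) hW0)
  have a2 := (R2b.dg_le hD.te hD.t0 hD.t0 hW.w3 w u).trans
    (mul_le_mul_of_nonneg_left (hD.tri2 0) hW0)
  have a3 := (R2b.dg_le hD.te hD.t0 hw hD.tri w u).trans
    ((mul_le_mul_of_nonneg_left (hW.w1 0) hη).trans
      (mul_le_of_le_one_left hW0 (hD.small.trans (by norm_num))))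
  have key : ∑ w', ∑ u', k2 (kr τ) (kr σ) w u w' u' * ϖ (u' - u) ≤
      4 * R2b.dg τ (fun y => ϖ y * σ y) τ τ w u + 2 * L * R2b.dg τ σ (fun y => ϖ y * τ y) τ w u +
        L * R2b.dg τ σ τ (fun y => ϖ y * τ y) w u := by
    simp only [R2b.dg, k2, kr, Finset.mul_sum, Finset.sum_mul, ← Finset.sum_add_distrib]
    refine Finset.sum_le_sum fun w' _ => Finset.sum_le_sum fun u' _ =>
      Finset.sum_le_sum fun z _ => Finset.sum_le_sum fun c _ => ?_
    have b1 := hW.sub (w' - u + (c - w')) (u' - c)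
    have b2 := hW.sub (w' - u) (c - w')
    rw [show w' - u + (c - w') + (u' - c) = u' - u by abel] at b1
    have b3 : 0 ≤ τ (z - w) * σ (w' - u) * τ (c - w') * τ (z - c) * τ (u' - c) * τ (u' - z) :=
      mul_nonneg (mul_nonneg (mul_nonneg (mul_nonneg (mul_nonneg (hD.t0 _) (hD.s0 _)) (hD.t0 _))
        (hD.t0 _)) (hD.t0 _)) (hD.t0 _)
    have b4 : ϖ (u' - u) ≤ 4 * ϖ (w' - u) + 2 * L * ϖ (c - w') + L * ϖ (u' - c) := by linarith
    refine (mul_le_mul_of_nonneg_left b4 b3).trans (le_of_eq ?_)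
    ring
  have c2 := mul_le_mul_of_nonneg_left a2 (by linarith : 0 ≤ 2 * L)
  have c3 := mul_le_mul_of_nonneg_left a3 (by linarith : 0 ≤ L)
  have c4 : 8 + 5 * L ≤ 5 * L ^ 2 := by nlinarith
  have c5 := mul_le_mul_of_nonneg_right c4 hW0
  linarith

end Pool.Agent.HD
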