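import Pool.Agent.Lib.HD.BlueA
import Pool.Agent.Lib.HD.LBasic

/-! The profile is a super-solution: first kernel, first and last level. -/

open Finset

namespace Pool.Agent.HD

namespace R3a

variable {Γ : Type} [Fintype Γ] [AddCommGroup Γ] {τ σ ρ β : Γ → ℝ} {η θ A B : ℝ}

omit [AddCommGroup Γ] in
lemma re4 (F : Γ → Γ → Γ → Γ → ℝ) :
    ∑ a, ∑ b, ∑ z, ∑ c, F a b z c = ∑ c, ∑ z, ∑ a, ∑ b, F a b z c :=
  calc ∑ a, ∑ b, ∑ z, ∑ c, F a b z c = ∑ a, ∑ z, ∑ b, ∑ c, F a b z c := sum_congr rfl fun _ _ => sum_comm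
    _ = ∑ z, ∑ a, ∑ b, ∑ c, F a b z c := sum_comm
    _ = ∑ z, ∑ a, ∑ c, ∑ b, F a b z c := sum_congr rfl fun _ _ => sum_congr rfl fun _ _ => sum_comm
    _ = ∑ z, ∑ c, ∑ a, ∑ b, F a b z c := sum_congr rfl fun _ _ => sum_comm
    _ = _ := sum_comm

lemma b0 (hD : Dia τ σ η) (hS : Sp τ σ ρ β θ A B) (x : Γ) : 0 ≤ β x := (hD.t0 x).trans (hS.tb x)

/-- the error triangles are small -/
lemma err (hD : Dia τ σ η) (hS : Sp τ σ ρ β θ A B) :
    θ ≤ 1 / 1000 ∧ ∀ x, θ * cv β (cv β β) x ≤ 1 / 1000 := by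
  have h0 := b0 hD hS
  have h1 : 1 ≤ β 0 := hD.t1.symm.le.trans (hS.tb 0)
  have h2 : 1 ≤ cv β β 0 := h1.trans (le_cv h0 h0 h1 0)
  have h3 : 1 ≤ cv β (cv β β) 0 := h1.trans (le_cv h0 (cv_nonneg h0 h0) h2 0)
  have h4 : ∀ x, cv β (cv β β) x ≤ B := fun x => by
    refine le_trans ?_ (hS.b4 x)
    rw [cv_comm β (cv β (cv β β))]
    exact le_cv (cv_nonneg h0 (cv_nonneg h0 h0)) h0 h1 x
  have h5 : 1 ≤ B := h3.trans (h4 0)
  have h6 : θ * B ≤ 1 / 1000 :=
    (mul_le_mul_of_nonneg_left (le_self_pow₀ h5 (by norm_num)) hS.th0).trans hS.small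
  exact ⟨(le_mul_of_one_le_right hS.th0 h5).trans h6,
    fun x => (mul_le_mul_of_nonneg_left (h4 x) hS.th0).trans h6⟩

/-- a triangle whose two sides carry an error -/
lemma tri (hD : Dia τ σ η) (hS : Sp τ σ ρ β θ A B) {f : Γ → ℝ} (hf : ∀ x, f x ≤ β x) {E : ℝ}
    (hE : ∀ x, cv f (cv τ τ) x ≤ E) (y a b : Γ) :
    ∑ x, ∑ x', (2 * f (x - a) + θ * β (x - y)) * τ (x' - x) * (2 * τ (x' - b) + θ * β (x' - y)) ≤
      4 * E + 5 / 1000 := by
  obtain ⟨e1, e2⟩ := err hD hS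
  have h0 := b0 hD hS
  have th := hS.th0
  have key : ∀ x x', (2 * f (x - a) + θ * β (x - y)) * τ (x' - x) * (2 * τ (x' - b) + θ * β (x' - y)) ≤
      4 * (f (x - a) * τ (x' - x) * τ (b - x')) + 2 * θ * (β (x - a) * β (x' - x) * β (y - x')) +
        2 * θ * (β (x - y) * β (x' - x) * β (b - x')) + θ * (β (x - y) * β (x' - x) * β (y - x')) := by
    intro x x'
    rw [even_sub hD.te x' b, even_sub hS.be x' y]
    have t1 := hD.t0 (x' - x)
    have t2 := hD.t0 (b - x')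
    have p1 := h0 (x - a)
    have p2 := h0 (x - y)
    have p3 := h0 (y - x')
    have p4 := h0 (x' - x)
    have a1 : f (x - a) * τ (x' - x) * β (y - x') ≤ β (x - a) * β (x' - x) * β (y - x') :=
      mul_le_mul_of_nonneg_right (mul_le_mul (hf _) (hS.tb _) t1 p1) p3
    have a2 : β (x - y) * τ (x' - x) * τ (b - x') ≤ β (x - y) * β (x' - x) * β (b - x') :=
      mul_le_mul (mul_le_mul_of_nonneg_left (hS.tb _) p2) (hS.tb _) t2 (by positivity)
    have a3 : θ * (β (x - y) * τ (x' - x) * β (y - x')) ≤ 1 * (β (x - y) * β (x' - x) * β (y - x')) :=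
      mul_le_mul (by linarith) (mul_le_mul_of_nonneg_right (mul_le_mul_of_nonneg_left (hS.tb _) p2) p3)
        (by positivity) zero_le_one
    have b1 := mul_le_mul_of_nonneg_left a1 th
    have b2 := mul_le_mul_of_nonneg_left a2 th
    have b3 := mul_le_mul_of_nonneg_left a3 th
    linarith
  refine (sum_le_sum fun x _ => sum_le_sum fun x' _ => key x x').trans ?_
  simp only [sum_add_distrib, ← mul_sum]
  rw [cv_three, cv_three, cv_three, cv_three]
  linarith [hE (b - a), e2 (y - a), e2 (b - y), e2 (y - y)]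

lemma mv1 (hS : Sp τ σ ρ β θ A B) (y a b : Γ) :
    τ (b - a) * ρ (b - y) ≤ ρ (a - y) * (2 * τ (b - a) + θ * β (b - y)) := by
  have := hS.m1 (a - y) (b - y)
  rwa [sub_sub_sub_cancel_right] at this

lemma mv2 (hS : Sp τ σ ρ β θ A B) (y a b : Γ) :
    σ (b - a) * ρ (b - y) ≤ ρ (a - y) * (2 * σ (b - a) + θ * β (b - y)) := by
  have := hS.m2 (a - y) (b - y)
  rwa [sub_sub_sub_cancel_right] at this

/-- both strands are moved by one step -/
lemma pair (hD : Dia τ σ η) (hS : Sp τ σ ρ β θ A B) (y w u z c : Γ) :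
    τ (z - w) * ρ (z - y) * (σ (c - u) * ρ (c - y)) * τ (z - c) ≤ ρ (w - y) * ρ (u - y) *
      ((2 * σ (c - u) + θ * β (c - y)) * τ (z - c) * (2 * τ (z - w) + θ * β (z - y))) := by
  have a := mul_le_mul (mv1 hS y w z) (mv2 hS y u c) (mul_nonneg (hD.s0 _) (hS.r0 _))
    ((mul_nonneg (hD.t0 _) (hS.r0 _)).trans (mv1 hS y w z))
  have b := mul_le_mul_of_nonneg_right a (hD.t0 (z - c))
  linarith

lemma outer (hD : Dia τ σ η) (hS : Sp τ σ ρ β θ A B) (y w u : Γ) :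
    ∑ c, ∑ z, τ (z - w) * ρ (z - y) * (σ (c - u) * ρ (c - y)) * τ (z - c) ≤
      ρ (w - y) * ρ (u - y) * (9 / 1000) := by
  refine (sum_le_sum fun c _ => sum_le_sum fun z _ => pair hD hS y w u z c).trans ?_
  simp only [← mul_sum]
  refine mul_le_mul_of_nonneg_left ((tri hD hS hS.sb hD.tri y u w).trans ?_) (mul_nonneg (hS.r0 _) (hS.r0 _))
  linarith [hD.small]

lemma inner (hD : Dia τ σ η) (hS : Sp τ σ ρ β θ A B) (y c z : Γ) :
    ∑ w, ∑ u, τ (w - c) * ρ (w - y) * (τ (u - z) * ρ (u - y)) * τ (u - w) ≤ ρ (c - y) * ρ (z - y) * 9 := by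
  have key : ∀ w u, τ (w - c) * ρ (w - y) * (τ (u - z) * ρ (u - y)) * τ (u - w) ≤ ρ (c - y) * ρ (z - y) *
      ((2 * τ (w - c) + θ * β (w - y)) * τ (u - w) * (2 * τ (u - z) + θ * β (u - y))) := by
    intro w u
    have a := mul_le_mul (mv1 hS y c w) (mv1 hS y z u) (mul_nonneg (hD.t0 _) (hS.r0 _))
      ((mul_nonneg (hD.t0 _) (hS.r0 _)).trans (mv1 hS y c w))
    have b := mul_le_mul_of_nonneg_right a (hD.t0 (u - w))
    linarith
  refine (sum_le_sum fun w _ => sum_le_sum fun u _ => key w u).trans ?_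
  simp only [← mul_sum]
  refine mul_le_mul_of_nonneg_left ((tri hD hS hS.tb hD.tri2 y c z).trans ?_) (mul_nonneg (hS.r0 _) (hS.r0 _))
  norm_num

end R3a

open R3a in
theorem st_r3a : St_R3a := by
  intro Γ _ _ τ σ ρ β η θ A B hD hS y
  refine ⟨fun w u => ?_, fun w u => ?_, ?_⟩
  · have r0 : 0 ≤ ρ (w - y) * ρ (u - y) := mul_nonneg (hS.r0 _) (hS.r0 _)
    simp only [k1, kr, sum_mul]
    rw [re4]
    have key : ∀ c z, ∑ w', ∑ u', τ (z - w) * σ (c - u) * τ (z - c) * τ (w' - c) * τ (u' - z) * τ (u' - w') *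
        (ρ (w' - y) * ρ (u' - y)) ≤ 9 * (τ (z - w) * ρ (z - y) * (σ (c - u) * ρ (c - y)) * τ (z - c)) := by
      intro c z
      have a := mul_le_mul_of_nonneg_left (inner hD hS y c z)
        (mul_nonneg (mul_nonneg (hD.t0 (z - w)) (hD.s0 (c - u))) (hD.t0 (z - c)))
      refine le_trans (le_of_eq ?_) (a.trans (le_of_eq (by ring)))
      simp only [mul_sum]
      exact sum_congr rfl fun _ _ => sum_congr rfl fun _ _ => by ring
    refine (sum_le_sum fun c _ => sum_le_sum fun z _ => key c z).trans ?_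
    simp only [← mul_sum]
    linarith [outer hD hS y w u]
  · have r0 : 0 ≤ ρ (w - y) * ρ (u - y) := mul_nonneg (hS.r0 _) (hS.r0 _)
    simp only [GE, kr]
    rw [sum_comm]
    have key : ∀ c z, τ (z - w) * σ (c - u) * τ (z - c) * τ (y - c) * τ (y - z) ≤
        A ^ 2 * (τ (z - w) * ρ (z - y) * (σ (c - u) * ρ (c - y)) * τ (z - c)) := by
      intro c z
      rw [even_sub hD.te y c, even_sub hD.te y z]
      have a := mul_le_mul (hS.ta (c - y)) (hS.ta (z - y)) (hD.t0 _) ((hD.t0 _).trans (hS.ta (c - y)))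
      have b := mul_le_mul_of_nonneg_left a
        (mul_nonneg (mul_nonneg (hD.t0 (z - w)) (hD.s0 (c - u))) (hD.t0 (z - c)))
      linarith
    refine (sum_le_sum fun c _ => sum_le_sum fun z _ => key c z).trans ?_
    simp only [← mul_sum]
    exact mul_le_mul_of_nonneg_left ((outer hD hS y w u).trans (by linarith)) (sq_nonneg A)
  · have a := inner hD hS y 0 0
    simp only [sub_zero, zero_sub, hS.re] at a
    refine le_trans (le_of_eq ?_) (a.trans (le_of_eq (by ring)))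
    exact sum_congr rfl fun _ _ => sum_congr rfl fun _ _ => by ring

end Pool.Agent.HD
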