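import Pool.Agent.Lib.HD.BlueA
import Pool.Agent.Lib.HD.LBasic

open Finset

namespace Pool.Agent.HD

namespace R3b

variable {Γ : Type} [Fintype Γ] [AddCommGroup Γ]

lemma four (f1 f2 g1 g2 g3 g4 h1 h2 : Γ → ℝ) (a1 a2 b1 b2 : Γ) (c1 c2 c3 c4 : ℝ) :
    ∑ z, ∑ c, (c1 * (f1 (z - a1) * g1 (c - z) * h1 (b1 - c)) + c2 * (f2 (z - a1) * g2 (c - z) * h2 (b2 - c)) +
      c3 * (f2 (z - a2) * g3 (c - z) * h2 (b1 - c)) + c4 * (f2 (z - a2) * g4 (c - z) * h2 (b2 - c))) =
    c1 * cv f1 (cv g1 h1) (b1 - a1) + c2 * cv f2 (cv g2 h2) (b2 - a1) + c3 * cv f2 (cv g3 h2) (b1 - a2) +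
      c4 * cv f2 (cv g4 h2) (b2 - a2) := by
  simp only [sum_add_distrib, ← mul_sum, cv_three]

end R3b

theorem st_r3b : St_R3b := by
  intro Γ _ _ τ σ ρ β η θ A B hD hS y w u
  have t0 := hD.t0
  have s0 := hD.s0
  have th := hS.th0
  have b0 : ∀ x, 0 ≤ β x := fun x => (t0 x).trans (hS.tb x)
  have b1 : 1 ≤ β 0 := hD.t1.ge.trans (hS.tb 0)
  have ts : ∀ a b, τ (a - b) = τ (b - a) := fun a b => by rw [← hD.te, neg_sub]
  have bs : ∀ a b, β (a - b) = β (b - a) := fun a b => by rw [← hS.be, neg_sub]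
  have c2 : ∀ x, 0 ≤ cv β β x := cv_nonneg b0 b0
  have up : ∀ f : Γ → ℝ, (∀ x, 0 ≤ f x) → ∀ x, f x ≤ cv β f x := fun f hf x => by
    rw [cv_comm]; exact le_cv hf b0 b1 x
  have B3 : ∀ x, cv β (cv β β) x ≤ B := fun x => (up _ (cv_nonneg b0 c2) x).trans (hS.b4 x)
  have B2 : ∀ x, cv β β x ≤ B := fun x => (up _ c2 x).trans (B3 x)
  have B1 : 1 ≤ B := b1.trans ((up _ b0 0).trans (B2 0))
  have k2' : θ * B ≤ 1 / 1000 := le_trans (mul_le_mul_of_nonneg_left (by nlinarith) th) hS.small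
  have k1' : θ ≤ 1 / 1000 := (le_mul_of_one_le_right th B1).trans k2'
  set S : Γ → ℝ := fun a => 2 * σ (a - u) + θ * β (a - y) with hSd
  set T : Γ → ℝ := fun z => 2 * τ (z - w) + θ * β (z - y) with hT
  have S0 : ∀ a, 0 ≤ S a := fun a => add_nonneg (mul_nonneg zero_le_two (s0 _)) (mul_nonneg th (b0 _))
  have T0 : ∀ a, 0 ≤ T a := fun a => add_nonneg (mul_nonneg zero_le_two (t0 _)) (mul_nonneg th (b0 _))
  have R0 : 0 ≤ ρ (w - y) * ρ (u - y) := mul_nonneg (hS.r0 _) (hS.r0 _)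
  have pt : ∀ a e z c, τ (z - w) * σ (a - u) * τ (c - a) * τ (z - c) * τ (e - c) * τ (e - z) *
      (ρ (a - y) * ρ (e - y)) ≤ ρ (w - y) * ρ (u - y) *
        (S a * τ (c - a) * τ (z - c) * T z * (τ (e - c) * (2 * τ (e - z) + θ * β (e - y)))) := by
    intro a e z c
    have h1 := hS.m2 (u - y) (a - y)
    have h2 := hS.m1 (z - y) (e - y)
    have h3 := hS.m1 (w - y) (z - y)
    rw [sub_sub_sub_cancel_right] at h1 h2 h3
    have q0 : 0 ≤ 2 * τ (e - z) + θ * β (e - y) := add_nonneg (mul_nonneg zero_le_two (t0 _)) (mul_nonneg th (b0 _))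
    have h4 : τ (z - w) * (τ (e - z) * ρ (e - y)) ≤ ρ (w - y) * T z * (2 * τ (e - z) + θ * β (e - y)) :=
      (mul_le_mul_of_nonneg_left h2 (t0 _)).trans (by
        rw [← mul_assoc]; exact mul_le_mul_of_nonneg_right h3 q0)
    have h5 := mul_le_mul_of_nonneg_left (mul_le_mul h1 h4 (mul_nonneg (t0 _) (mul_nonneg (t0 _) (hS.r0 _)))
      (mul_nonneg (hS.r0 _) (S0 a))) (mul_nonneg (mul_nonneg (t0 (c - a)) (t0 (z - c))) (t0 (e - c)))
    refine le_trans (le_of_eq (by ring)) (h5.trans (le_of_eq ?_))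
    simp only [hSd]
    ring
  have inner : ∀ z c, ∑ e, τ (e - c) * (2 * τ (e - z) + θ * β (e - y)) ≤ 2 * cv τ τ (z - c) + θ * B := by
    intro z c
    rw [← cv_two, mul_sum]
    refine le_trans ?_ (add_le_add_right (mul_le_mul_of_nonneg_left (B2 (y - c)) th) _)
    rw [← cv_two, mul_sum, ← sum_add_distrib]
    refine sum_le_sum fun e _ => ?_
    rw [ts e z, bs e y]
    nlinarith [mul_le_mul_of_nonneg_right (hS.tb (e - c)) (mul_nonneg th (b0 (y - e)))]
  have X : ∀ r, ∑ a, ∑ c, S a * τ (c - a) * T (c + r) ≤ 9 / 1000 := by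
    intro r
    have h1 := R3b.four σ β τ β β β τ β u y (w - r) (y - r) 4 (2 * θ) (2 * θ) (θ * θ)
    refine le_trans (sum_le_sum fun a _ => sum_le_sum fun c _ => ?_) (h1.le.trans ?_)
    · simp only [hSd, hT]
      rw [ts (c + r) w, bs (c + r) y, sub_add_eq_sub_sub_swap, sub_add_eq_sub_sub_swap]
      have e1 := mul_le_mul_of_nonneg_left (mul_le_mul_of_nonneg_right (mul_le_mul (hS.sb (a - u)) (hS.tb (c - a))
        (t0 _) (b0 _)) (b0 (y - r - c))) th
      have e2 := mul_le_mul_of_nonneg_left (mul_le_mul (mul_le_mul_of_nonneg_left (hS.tb (c - a)) (b0 (a - y)))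
        (hS.tb (w - r - c)) (t0 _) (mul_nonneg (b0 _) (b0 _))) th
      have e3 := mul_le_mul_of_nonneg_left (mul_le_mul_of_nonneg_right (mul_le_mul_of_nonneg_left (hS.tb (c - a))
        (b0 (a - y))) (b0 (y - r - c))) (mul_nonneg th th)
      linarith
    · have e0 := (hD.tri (w - r - u)).trans hD.small
      have e1 := mul_le_mul_of_nonneg_left (B3 (y - r - u)) th
      have e2 := mul_le_mul_of_nonneg_left (B3 (w - r - y)) th
      have e3 := mul_le_mul_of_nonneg_left (B3 (y - r - y)) (mul_nonneg th th)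
      nlinarith
  have TA : ∑ a, ∑ c, ∑ z, S a * τ (c - a) * τ (z - c) * T z * (2 * cv τ τ (z - c)) ≤ 36 / 1000 := by
    have e1 : ∀ a c, ∑ z, S a * τ (c - a) * τ (z - c) * T z * (2 * cv τ τ (z - c)) =
        ∑ r, 2 * (τ r * cv τ τ (0 - r)) * (S a * τ (c - a) * T (c + r)) := fun a c => by
      rw [← sum_shift _ c]
      refine sum_congr rfl fun r _ => ?_
      simp only [add_comm r c, add_sub_cancel_left, zero_sub, cv_even hD.te hD.te]
      ring
    simp only [e1]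
    simp only [sum_comm (γ := Γ) (α := Γ) (f := fun c r => 2 * (τ r * cv τ τ (0 - r)) * (S _ * τ (c - _) * T (c + r)))]
    rw [sum_comm]
    simp only [← mul_sum]
    refine (sum_le_sum fun r _ => mul_le_mul_of_nonneg_left (X r)
      (mul_nonneg zero_le_two (mul_nonneg (t0 _) (cv_nonneg t0 t0 _)))).trans ?_
    rw [← sum_mul, ← mul_sum]
    have : ∑ r, τ r * cv τ τ (0 - r) ≤ 2 := hD.tri2 0
    linarith
  have TB : ∑ a, ∑ c, ∑ z, S a * τ (c - a) * τ (z - c) * T z ≤ 9 * B := by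
    have e1 : ∀ c, ∑ z, τ (z - c) * T z ≤ 2 * cv β β (w - c) + θ * cv β β (y - c) := fun c => by
      rw [← cv_two, ← cv_two, mul_sum, mul_sum, ← sum_add_distrib]
      refine sum_le_sum fun z _ => ?_
      simp only [hT]
      rw [ts z w, bs z y]
      have e1 := mul_le_mul (hS.tb (z - c)) (hS.tb (w - z)) (t0 _) (b0 _)
      have e2 := mul_le_mul_of_nonneg_left (mul_le_mul_of_nonneg_right (hS.tb (z - c)) (b0 (y - z))) th
      linarith
    have h1 := R3b.four β β β β β β (cv β β) (cv β β) u y w y 4 (2 * θ) (2 * θ) (θ * θ)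
    refine le_trans (sum_le_sum fun a _ => sum_le_sum fun c _ => ?_) (h1.le.trans ?_)
    · simp only [mul_assoc (S a * τ (c - a)), ← mul_sum]
      refine (mul_le_mul (mul_le_mul (add_le_add_left (mul_le_mul_of_nonneg_left (hS.sb (a - u)) zero_le_two) _)
        (hS.tb (c - a)) (t0 _) (add_nonneg (mul_nonneg zero_le_two (b0 _)) (mul_nonneg th (b0 (a - y))))) (e1 c)
        (sum_nonneg fun z _ => mul_nonneg (t0 _) (T0 z)) (mul_nonneg (add_nonneg (mul_nonneg zero_le_two (b0 _))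
          (mul_nonneg th (b0 _))) (b0 _))).trans (le_of_eq (by ring))
    · have e0 := hS.b4 (w - u)
      have e1 := mul_le_mul_of_nonneg_left (hS.b4 (y - u)) th
      have e2 := mul_le_mul_of_nonneg_left (hS.b4 (w - y)) th
      have e3 := mul_le_mul_of_nonneg_left (hS.b4 (y - y)) (mul_nonneg th th)
      nlinarith
  calc _ ≤ ∑ a, ∑ e, ∑ z, ∑ c, ρ (w - y) * ρ (u - y) *
          (S a * τ (c - a) * τ (z - c) * T z * (τ (e - c) * (2 * τ (e - z) + θ * β (e - y)))) := by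
        refine sum_le_sum fun a _ => sum_le_sum fun e _ => ?_
        simp only [k2, kr, sum_mul]
        exact sum_le_sum fun z _ => sum_le_sum fun c _ => pt a e z c
    _ = ρ (w - y) * ρ (u - y) * ∑ a, ∑ c, ∑ z, S a * τ (c - a) * τ (z - c) * T z *
          ∑ e, τ (e - c) * (2 * τ (e - z) + θ * β (e - y)) := by
        simp only [mul_sum]
        refine sum_congr rfl fun a _ => ?_
        refine sum_comm.trans (Eq.trans ?_ sum_comm)
        exact sum_congr rfl fun z _ => sum_comm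
    _ ≤ ρ (w - y) * ρ (u - y) * ∑ a, ∑ c, ∑ z, (S a * τ (c - a) * τ (z - c) * T z * (2 * cv τ τ (z - c)) +
          θ * B * (S a * τ (c - a) * τ (z - c) * T z)) := by
        refine mul_le_mul_of_nonneg_left (sum_le_sum fun a _ => sum_le_sum fun c _ => sum_le_sum fun z _ => ?_) R0
        refine (mul_le_mul_of_nonneg_left (inner z c)
          (mul_nonneg (mul_nonneg (mul_nonneg (S0 a) (t0 _)) (t0 _)) (T0 z))).trans (le_of_eq (by ring))
    _ ≤ _ := by
        simp only [sum_add_distrib, ← mul_sum]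
        rw [mul_comm]
        refine mul_le_mul_of_nonneg_right ?_ R0
        have := mul_le_mul_of_nonneg_left TB (mul_nonneg th (zero_le_one.trans B1))
        nlinarith [hS.small]

end Pool.Agent.HD
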