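import Pool.Agent.Lib.HD.LBasic

/-! Block SER: summing the series of the expansion. -/

open Finset Classical Filter Topology

namespace Pool.Agent.HD

open Pool.Agent.Lib.MP_81a99a_pr

theorem st_ser (h12 : St_C12) (h3 : St_C3) : St_SER := by
  intro Γ _ _ τ σ η P D hτ P0 P1 P2 P3 hE
  have H := h12 Γ τ σ η D
  have t2 : ∀ x, τ x ≤ cv τ τ x := le_cv D.t0 D.t0 D.t1.ge
  have key : ∀ f : Γ → ℝ, (∀ x, 0 ≤ f x) → ∑ x, f x * τ x ≤ cv f (cv τ τ) 0 := fun f hf =>
    Finset.sum_le_sum fun x _ => mul_le_mul_of_nonneg_left ((D.te x).ge.trans (by rw [zero_sub]; exact t2 _)) (hf x)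
  have s1 : ∀ x, Summable fun N => P (N + 1) x := fun x =>
    Summable.of_nonneg_of_le (fun N => P0 _ _) (fun N => (P3 N x).trans ((Finset.single_le_sum
      (fun y _ => (P0 _ y).trans (P3 N y)) (Finset.mem_univ x)).trans (H N).1)) (summable_geometric_two.mul_left _)
  have s0 : ∀ x, Summable fun N => P N x := fun x => (summable_nat_add_iff 1).1 (s1 x)
  have nr : ∀ N x, ‖(-1 : ℝ) ^ N * P N x‖ ≤ P N x := fun N x => by simp [abs_of_nonneg (P0 N x)]
  have s2 : ∀ x, Summable fun N => (-1 : ℝ) ^ N * P N x := fun x => (s0 x).of_norm_bounded fun N => nr N x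
  have hg : ∀ x, |∑' N, (-1 : ℝ) ^ N * P N x - dl x| ≤ |P 0 x - dl x| + ∑' N, P (N + 1) x := fun x => by
    rw [(s2 x).tsum_eq_zero_add, pow_zero, one_mul, add_sub_right_comm]
    exact (abs_add_le _ _).trans (add_le_add_right (tsum_of_norm_bounded (s1 x).hasSum fun N => nr _ x) _)
  have q : ∀ x, |P 0 x - dl x| ≤ τ x * τ x ∧ |P 0 x - dl x| ≤ σ x * τ x := fun x => by
    by_cases hx : x = 0
    · simp [hx, P1, dl, ind, D.t1, D.s0]
    · have h1 := hτ x
      rw [dl, ind_neg hx] at h1 ⊢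
      rw [sub_zero, abs_of_nonneg (P0 0 x)]
      have h2 := (P2 x).trans_eq (sq _)
      exact ⟨h2, h2.trans (mul_le_mul_of_nonneg_right (by linarith) (D.t0 x))⟩
  have sm : ∀ (c : Γ → ℝ) (K : ℝ), (∀ x, 0 ≤ c x) → (∀ N, ∑ x, c x * PN (kr τ) (kr σ) 0 N x ≤ K * (1 / 2) ^ N) →
      ∑ x, c x * |∑' N, (-1 : ℝ) ^ N * P N x - dl x| ≤ ∑ x, c x * |P 0 x - dl x| + K * 2 := fun c K hc hK => by
    refine (Finset.sum_le_sum fun x _ => (mul_le_mul_of_nonneg_left (hg x) (hc x)).trans_eq (mul_add _ _ _)).trans ?_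
    rw [Finset.sum_add_distrib]
    exact add_le_add_right (hasSum_le (fun N => (Finset.sum_le_sum fun x _ =>
      mul_le_mul_of_nonneg_left (P3 N x) (hc x)).trans (hK N))
      (hasSum_sum fun x _ => (s1 x).hasSum.mul_left (c x)) (hasSum_geometric_two.mul_left K)) _
  have c0 := cv_nonneg D.t0 D.t0
  refine ⟨fun x => ∑' N, (-1 : ℝ) ^ N * P N x, fun x => ?_, ?_, fun ϖ L W hW => ?_, fun ρ β θ A B hS y => ?_⟩
  · have a1 := ((s2 x).hasSum.add (hasSum_sum (s := Finset.univ) fun y _ =>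
      (s2 y).hasSum.mul_right (σ (x - y)))).tendsto_sum_nat
    have a2 := ((s0 x).add (summable_sum (s := Finset.univ) fun y _ =>
      (s0 y).mul_right (σ (x - y)))).tendsto_atTop_zero
    refine sub_eq_zero.1 (abs_nonpos_iff.1 (le_of_tendsto_of_tendsto' (a1.const_sub (τ x)).abs a2 fun n => ?_))
    simpa only [cv, mul_add, Finset.mul_sum, mul_assoc] using hE n x
  · have a1 := sm (fun _ => 1) (4 * η) (fun _ => zero_le_one) fun N => by simpa only [one_mul] using (H N).1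
    have a2 := (Finset.sum_le_sum fun x _ => (q x).2).trans ((key σ D.s0).trans (D.tri 0))
    simp only [one_mul] at a1
    linarith [(cv_nonneg D.s0 c0 0).trans (D.tri 0)]
  · have a0 : ∀ x, 0 ≤ ϖ x * τ x := fun x => mul_nonneg (hW.nn x) (D.t0 x)
    have a1 := sm ϖ _ hW.nn fun N => (H N).2 ϖ L W hW
    have a2 := (Finset.sum_le_sum fun x _ => (mul_le_mul_of_nonneg_left (q x).1 (hW.nn x)).trans_eq
      (mul_assoc _ _ _).symm).trans ((key _ a0).trans (hW.w1 0))
    have a3 := le_mul_of_one_le_left ((cv_nonneg a0 c0 0).trans (hW.w1 0))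
      (one_le_pow₀ (n := 3) (one_le_two.trans hW.L2))
    linarith
  · have a1 := hasSum_le (fun N => (P3 N y).trans (h3 Γ τ σ ρ β η θ A B D hS N y)) (s1 y).hasSum
      (hasSum_geometric_two.mul_left _)
    have a2 := mul_self_le_mul_self (D.t0 y) (hS.ta y)
    linarith [hg y, (q y).1]

theorem st_lace (h1 : St_ITER) (h2 : St_KERN) (h3 : St_SER) : St_LACE := by
  intro d M _ p η p0 p1 he ht
  have t0 := tauT_nonneg (d := d) (M := M) p0 p1
  have s0 := sigT_nonneg (d := d) (M := M) p0 p1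
  have e1 : tau (torus d M) p = kr (tauT d M p) := by funext a b; exact tau_torus p0 p1 a b
  have e2 : sig (torus d M) p = kr (sigT d M p) := by funext a b; exact sig_torus p0 p1 a b
  have f : ∀ g : T d M → ℝ, (∀ x, 0 ≤ g x) → ∀ x, cv (tauT d M p) g x ≤ g x + cv (sigT d M p) g x :=
    fun g hg x => (cv_mono t0 hg (tauT_first p0 p1) (fun _ => le_rfl) x).trans_eq (by rw [add_cv, dl_cv])
  refine h3 _ _ _ η (PI (torus d M) p 0) ⟨t0, s0, tauT_even p0 p1, sigT_even p0 p1, tauT_zero, ht, fun x => ?_, he⟩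
    (tauT_first p0 p1) (fun N x => (h1 _ _ p p0 p1 0 x).1 N) (h2 _ _ p p0 p1 0 0).1
    (fun x => (h2 _ _ p p0 p1 0 x).2.1) (fun N x => e1 ▸ e2 ▸ (h2 _ _ p p0 p1 0 x).2.2 N) fun n x => ?_
  · linarith [f _ (cv_nonneg t0 t0) x, f _ t0 x, ht x, tauT_le_one p0 p1 x,
      cv_mono s0 t0 (fun _ => le_rfl) (le_cv t0 t0 tauT_zero.ge) x]
  · have := (h1 _ (torus d M) p p0 p1 0 x).2 n
    rw [e2] at this
    exact this

end Pool.Agent.HD
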