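import Pool.Agent.Lib.HD.Bridge
import Pool.Agent.Lib.TPC.ZDefs

/-! Dictionary between the two finite models. -/

open Finset MeasureTheory ProbabilityTheory

set_option linter.unusedSectionVars false

namespace Pool.Agent.HD

open Pool.Agent.Lib.MP_81a99a_pr

lemma ind_eq (P : Prop) : TPC.ind P = ind P := by
  by_cases h : P
  · rw [TPC.ind_pos h, ind_pos h]
  · rw [TPC.ind_neg h, ind_neg h]

lemma Ex_eq_PE {ι : Type} [Fintype ι] [DecidableEq ι] (p : ℝ) (f : Set ι → ℝ) :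
    Ex p f = TPC.PE univ (fun _ => p) fun ω : Finset ι => f (ω : Set ι) := by
  classical
  unfold Ex TPC.PE
  rw [Finset.powerset_univ]
  symm
  refine Fintype.sum_equiv Fintype.finsetEquivSet _ _ fun ω => ?_
  refine congrArg₂ _ (Finset.prod_congr rfl fun e _ => ?_) rfl
  by_cases h : e ∈ ω <;> simp [h]

variable {V : Type} [Fintype V] [DecidableEq V] {G : SimpleGraph V} {S : Finset V} {x y : V}

lemma conn_iff {ω : Finset (Sym2 V)} (hx : x ∈ S) :
    TPC.conn G S ω x y ↔ y ∈ cl (res G S) (ω : Set (Sym2 V)) {x} := by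
  have : TPC.opD G S ω = op (res G S) (ω : Set (Sym2 V)) := by
    ext a b
    rw [TPC.opD_adj, op_adj, res_adj, Finset.mem_coe]
    tauto
  rw [mem_cl_single, TPC.conn, this]
  exact ⟨fun h => h.2, fun h => ⟨hx, h⟩⟩

lemma tau_res_eq (hx : x ∈ S) (p : ℝ) :
    tau (res G S) p x y = TPC.tau G (fun _ => p) S x y := by
  rw [tau, Ex_eq_PE, ← TPC.PE_conn (Finset.subset_univ _)]
  exact TPC.PE_congr fun ω _ => by rw [ind_eq, conn_iff hx]

lemma res_univ : res G univ = G := by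
  ext a b
  simp [res_adj]

lemma tau_eq (p : ℝ) : tau G p x y = TPC.tau G (fun _ => p) univ x y := by
  rw [← tau_res_eq (Finset.mem_univ x), res_univ]

variable {d R M : ℕ}

lemma tauT_eq [NeZero M] (p : ℝ) (x : T d M) : tauT d M p x = TPC.tt p univ 0 x := tau_eq p

lemma mem_box {x : Fin d → ℤ} : x ∈ TPC.box (0 : TPC.Zd d) R ↔ nr x ≤ R := by
  simp only [TPC.box, TPC.rect, Fintype.mem_piFinset, Finset.mem_Icc, nr_le, Pi.zero_apply]
  exact forall_congr' fun i => by omega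

lemma image_io : (univ : Finset (Bx d R)).image io = TPC.box 0 R := by
  ext x
  simp only [mem_box, Finset.mem_image, Finset.mem_univ, true_and]
  exact ⟨fun ⟨a, ha⟩ => ha ▸ nr_io a, exists_io⟩

lemma locIso_io (S : Finset (Bx d R)) : TPC.LocIso (HB d R) (lattice d) io S :=
  ⟨io_inj.injOn, fun _ _ _ _ => Iff.rfl⟩

lemma tz_image (p : ℝ) {S : Finset (Bx d R)} {a b : Bx d R} (ha : a ∈ S) (hb : b ∈ S) :
    TPC.tz p (S.image io) (io a) (io b) = tau (res (HB d R) S) p a b := by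
  rw [tau_res_eq ha, TPC.tz, (locIso_io S).tau_eq ha hb]

lemma tz_box (p : ℝ) (a : Bx d R) :
    TPC.tz p (TPC.box 0 R) 0 (io a) = tau (HB d R) p (oB d R) a := by
  rw [← image_io, ← res_univ (G := HB d R),
    ← tz_image p (Finset.mem_univ (oB d R)) (Finset.mem_univ a), io_oB]

lemma tz_box_le (p : unitInterval) (x : Fin d → ℤ) :
    TPC.tz p (TPC.box 0 R) 0 x ≤ tauZ d p x := by
  by_cases h : nr x ≤ R
  · obtain ⟨a, rfl⟩ := exists_io h
    rw [tz_box]
    exact tau_box_le_tauZ p a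
  · rw [TPC.tz, TPC.tau_comm, TPC.tau_of_notMem (mem_box.not.2 h)]
    exact measureReal_nonneg

lemma tauZ_le_of_tz (p : unitInterval) {x : Fin d → ℤ} {B : ℝ}
    (h : ∀ R : ℕ, TPC.tz p (TPC.box 0 R) 0 x ≤ B) : tauZ d p x ≤ B :=
  tauZ_le p fun R a ha => by rw [← tz_box, ha]; exact h R

lemma highDim_conv (hd : 2 ≤ d) : HighDim d ↔ TPC.HighDim d := by
  refine exists_congr fun c => exists_congr fun C => and_congr_right fun _ =>
    forall_congr' fun x => forall_congr' fun hx => ?_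
  have h0 : 0 < ‖x‖ := norm_pos_iff.2 hx
  have e : ‖x‖ ^ (2 - (d : ℝ)) = (‖x‖ ^ (d - 2))⁻¹ := by
    rw [← Real.rpow_natCast, ← Real.rpow_neg h0.le, Nat.cast_sub hd]
    norm_num
  have h1 : 0 < ‖x‖ ^ (d - 2) := by positivity
  rw [e, ← div_eq_mul_inv, ← div_eq_mul_inv, div_le_iff₀ h1, le_div_iff₀ h1]
  rfl

theorem highDim_of_torus (hd : 3 ≤ d) (h : TorusBound d) : TPC.HighDim d :=
  (highDim_conv (by omega)).1 (st_bridge d hd h)

end Pool.Agent.HD
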