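import Pool.Agent.Lib.HD.BlueA

/-! Discrete Fourier analysis on the torus: definitions. -/

open Finset Classical

namespace Pool.Agent.HD

open Pool.Agent.Lib.MP_81a99a_pr

variable {d M : ℕ} [NeZero M]

/-- `exp (2 π i a / M)` -/
noncomputable def ec (a : ZMod M) : ℂ := ZMod.stdAddChar a

/-- the characters of the torus -/
noncomputable def chr (k x : T d M) : ℂ := ec (∑ i, k i * x i)

/-- Fourier transform -/
noncomputable def ft (f : T d M → ℝ) (k : T d M) : ℂ := ∑ x, (f x : ℂ) * chr k x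

/-- average over the dual torus -/
noncomputable def av (F : T d M → ℝ) : ℝ := (∑ k, F k) / (M : ℝ) ^ d

/-- normalised difference in direction `j` on the dual torus -/
noncomputable def DF (j : Fin d) (F : T d M → ℂ) (k : T d M) : ℂ :=
  M * (F (k + Pi.single j 1) - F k)

/-- chord length, comparable to the distance to zero on the cycle -/
noncomputable def om (a : ZMod M) : ℝ := M * ‖ec a - 1‖

/-- the symbol of simple random walk -/
noncomputable def Dh (k : T d M) : ℝ := (∑ i, (ec (k i)).re) / d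

/-- the massive length of a frequency -/
noncomputable def rr (m : ℝ) (k : T d M) : ℝ := √(m + (1 - Dh k))

/-- admissible mass -/
def Ms (M : ℕ) (m : ℝ) : Prop := 1 / (M : ℝ) ^ 2 ≤ m ∧ m ≤ 1

/-- symbol of order `s - t` with `n` differences -/
def Sy (m : ℝ) (j : Fin d) (F : T d M → ℂ) (s t n : ℕ) (C : ℝ) : Prop :=
  ∀ b, b ≤ n → ∀ k, ‖(DF j)^[b] F k‖ * rr m k ^ (b + t) ≤ C * rr m k ^ s

/-- square integrable differences -/
def L2 (j : Fin d) (F : T d M → ℂ) (n : ℕ) (C : ℝ) : Prop :=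
  ∀ b, b ≤ n → av (fun k => ‖(DF j)^[b] F k‖ ^ 2) ≤ C

/-- squared euclidean distance to the origin -/
noncomputable def n2 (x : T d M) : ℝ := ∑ i, ((x i).valMinAbs : ℝ) ^ 2

/-- invariance under signed permutations of the coordinates -/
def Inv (f : T d M → ℝ) : Prop :=
  (∀ (σ : Equiv.Perm (Fin d)) (x : T d M), f (fun i => x (σ i)) = f x) ∧
    ∀ (i : Fin d) (x : T d M), f (Function.update x i (-x i)) = f x

/-- moments -/
def Mo (h : T d M → ℝ) (n : ℕ) (C : ℝ) : Prop :=
  ∀ j b, b ≤ n → ∑ x, om (x j) ^ b * |h x| ≤ C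

/-- weighted square sums -/
def Mo2 (h : T d M → ℝ) (n : ℕ) (C : ℝ) : Prop :=
  ∀ j b, b ≤ n → ∑ x, om (x j) ^ (2 * b) * h x ^ 2 ≤ C

/-- the kernel `δ - p J * g` -/
noncomputable def FF (p : ℝ) (g : T d M → ℝ) (x : T d M) : ℝ :=
  dl x - cv (fun y => p * JT d M y) g x

/-- one step of the lazy walk on the cycle -/
noncomputable def l1 (a : ZMod M) : ℝ := ind (a = 0) / 2 + ind (a = 1) / 4 + ind (a = -1) / 4

/-- the law of the lazy walk on the cycle after `n` steps -/
noncomputable def lw : ℕ → ZMod M → ℝ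
  | 0 => dl
  | n + 1 => cv l1 (lw n)

/-- one step of the product walk -/
noncomputable def LT (x : T d M) : ℝ := ∏ i, l1 (x i)

/-- the kernel `δ - μ L` -/
noncomputable def AA (μ : ℝ) (x : T d M) : ℝ := dl x - μ * LT x

/-- the remainder kernel -/
noncomputable def ER (p lm μ : ℝ) (g : T d M → ℝ) (x : T d M) : ℝ :=
  cv (AA μ) g x - lm * FF p g x

/-- the output of the bootstrap -/
structure IR (d M : ℕ) [NeZero M] (p : ℝ) (g : T d M → ℝ) : Prop where
  hM : 3 ≤ M
  odd : Odd M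
  p0 : 0 ≤ p
  p1 : p ≤ 1
  dp : d * p ≤ 1
  ms : Ms M (1 / chiT d M p)
  lace : LaceOut (tauT d M p) (sigT d M p) (1 / 1000) g
  inv : Inv g
  m2 : ∑ x, (n1 x : ℝ) ^ 2 * |g x - dl x| ≤ 1 / 100
  ir : ∀ k, ‖ft (tauT d M p) k‖ * rr (1 / chiT d M p) k ^ 2 ≤ 10

end Pool.Agent.HD
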