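import Pool.Agent.Lib.HD.A_BK2
import Pool.Agent.Lib.HD.A_CUT
import Pool.Agent.Lib.HD.A_DEAD
import Pool.Agent.Lib.HD.A_EV
import Pool.Agent.Lib.HD.A_KERN
import Pool.Agent.Lib.HD.A_MENG
import Pool.Agent.Lib.HD.A_PART
import Pool.Agent.Lib.HD.A_STRUC
import Pool.Agent.Lib.HD.C_C123
import Pool.Agent.Lib.HD.C_R1
import Pool.Agent.Lib.HD.C_R2a
import Pool.Agent.Lib.HD.C_R2b
import Pool.Agent.Lib.HD.C_R3a
import Pool.Agent.Lib.HD.C_R3b
import Pool.Agent.Lib.HD.C_SER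

/-! Parts A and C assembled. -/

namespace Pool.Agent.HD

theorem lace_all : St_LACE :=
  st_lace (st_iter (st_one st_part (st_cut st_dead st_loc)))
    (st_kern (st_bkl st_bk2) (st_ev0 (st_struc st_meng)) (st_ev1 (st_struc st_meng)))
    (st_ser (st_c12 st_r1 st_r2a st_r2b) (st_c3 st_r3a st_r3b))

theorem path_all : St_PATH := st_path (st_pathg (st_bkl st_bk2))

end Pool.Agent.HD
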