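import Pool.Agent.Lib.HD.Perc

/-! The Hara-Slade expansion on a finite graph: events, kernel, diagrams, interface. -/

open Finset Classical

namespace Pool.Agent.HD

open Pool.Agent.Lib.MP_81a99a_pr

section Events

variable {V : Type} [Fintype V] (G : SimpleGraph V)

/-- `x` and `y` are joined by an open path -/
def Con (ω : Set (Sym2 V)) (x y : V) : Prop := (op G ω).Reachable x y

/-- `x` and `y` are joined by an open path all of whose vertices avoid `A` -/
def Off (ω : Set (Sym2 V)) (A : Finset V) (x y : V) : Prop := x ∉ A ∧ Con (res G Aᶜ) ω x y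

/-- `v` is joined to `x`, and only through `A` -/
def Thru (ω : Set (Sym2 V)) (A : Finset V) (v x : V) : Prop := Con G ω v x ∧ ¬ Off G ω A v x

/-- the directed bond `(a, b)` is open and pivotal for the connection from `v` to `x` -/
def Piv (ω : Set (Sym2 V)) (v x a b : V) : Prop :=
  G.Adj a b ∧ s(a, b) ∈ ω ∧ Con G (ω \ {s(a, b)}) v a ∧ Con G (ω \ {s(a, b)}) b x ∧
    ¬ Con G (ω \ {s(a, b)}) v x

/-- the event `E'(v, x; A)` -/
def EE (ω : Set (Sym2 V)) (A : Finset V) (v x : V) : Prop :=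
  Thru G ω A v x ∧ ∀ a b, Piv G ω v x a b → Off G ω A v a

/-- disjoint occurrence of a list of connections -/
def Dis : Set (Sym2 V) → List (V × V) → Prop
  | _, [] => True
  | ω, c :: l => ∃ K, K ⊆ ω ∧ Con G K c.1 c.2 ∧ Dis (ω \ K) l

noncomputable def phA (p : ℝ) (x v : V) (A : Finset V) : ℝ := Ex p fun ω => ind (Thru G ω A v x)

noncomputable def eeA (p : ℝ) (x v : V) (A : Finset V) : ℝ := Ex p fun ω => ind (EE G ω A v x)

/-- the kernel of the expansion, acting on functions of (start vertex, vertex set) -/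
noncomputable def KL (p : ℝ) (f : V → Finset V → ℝ) (v : V) (A : Finset V) : ℝ :=
  ∑ a, ∑ b, ind (G.Adj a b) * p *
    Ex p fun ω => ind (EE G ω A v a) * f b (cl G (ω \ {s(a, b)}) {v})

/-- the `N`-th lace expansion coefficient -/
noncomputable def PI (p : ℝ) (o : V) (N : ℕ) (x : V) : ℝ :=
  ((KL G p)^[N] (eeA G p x)) o Finset.univ

/-- one bond followed by a connection -/
noncomputable def sig (p : ℝ) (a x : V) : ℝ := ∑ b, ind (G.Adj a b) * p * tau G p b x

end Events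

section Diagrams

variable {V : Type} [Fintype V] (t s : V → V → ℝ)

/-- the part of the transfer kernel coming from the event `F'` -/
noncomputable def k1 (w u w' u' : V) : ℝ :=
  ∑ z, ∑ c, t w z * s u c * t c z * t c w' * t z u' * t w' u'

/-- the part of the transfer kernel coming from the event `F''` -/
noncomputable def k2 (w u w' u' : V) : ℝ :=
  ∑ z, ∑ c, t w z * s u w' * t w' c * t c z * t c u' * t z u'

noncomputable def KO (F : V → V → ℝ) (w u : V) : ℝ :=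
  ∑ w', ∑ u', (k1 t s w u w' u' + k2 t s w u w' u') * F w' u'

/-- the last level of a diagram -/
noncomputable def GE (x w u : V) : ℝ := ∑ z, ∑ c, t w z * s u c * t c z * t c x * t z x

/-- the diagram bounding the coefficient of order `N + 1` -/
noncomputable def PN (o : V) (N : ℕ) (x : V) : ℝ :=
  ∑ w, ∑ u, t o u * t o w * t w u * ((KO t s)^[N] (GE t s x)) w u

end Diagrams

section Group

variable {Γ : Type} [Fintype Γ] [AddCommGroup Γ]

/-- convolution -/
noncomputable def cv (f g : Γ → ℝ) (x : Γ) : ℝ := ∑ y, f y * g (x - y)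

/-- the unit of convolution -/
noncomputable def dl (x : Γ) : ℝ := ind (x = 0)

/-- a function on the group as a translation invariant kernel -/
def kr (f : Γ → ℝ) (a b : Γ) : ℝ := f (b - a)

/-- small triangle -/
structure Dia (τ σ : Γ → ℝ) (η : ℝ) : Prop where
  t0 : ∀ x, 0 ≤ τ x
  s0 : ∀ x, 0 ≤ σ x
  te : ∀ x, τ (-x) = τ x
  se : ∀ x, σ (-x) = σ x
  t1 : τ 0 = 1
  tri : ∀ x, cv σ (cv τ τ) x ≤ η
  tri2 : ∀ x, cv τ (cv τ τ) x ≤ 2
  small : η ≤ 1 / 1000

/-- a weight `ϖ` and a bound `W` for the triangles with one weighted line -/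
structure Wt (τ σ ϖ : Γ → ℝ) (L W : ℝ) : Prop where
  L2 : 2 ≤ L
  nn : ∀ x, 0 ≤ ϖ x
  ev : ∀ x, ϖ (-x) = ϖ x
  sub : ∀ x y, ϖ (x + y) ≤ 2 * ϖ x + L * ϖ y
  w1 : ∀ x, cv (fun y => ϖ y * τ y) (cv τ τ) x ≤ W
  w2 : ∀ x, cv (fun y => ϖ y * σ y) (cv τ τ) x ≤ W
  w3 : ∀ x, cv σ (cv (fun y => ϖ y * τ y) τ) x ≤ W

/-- a profile `ρ` that can be moved along a line at the price of a small error `θ β` -/
structure Sp (τ σ ρ β : Γ → ℝ) (θ A B : ℝ) : Prop where
  r0 : ∀ x, 0 ≤ ρ x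
  re : ∀ x, ρ (-x) = ρ x
  be : ∀ x, β (-x) = β x
  tb : ∀ x, τ x ≤ β x
  sb : ∀ x, σ x ≤ β x
  th0 : 0 ≤ θ
  b4 : ∀ x, cv β (cv β (cv β β)) x ≤ B
  small : θ * B ^ 2 ≤ 1 / 1000
  ta : ∀ x, τ x ≤ A * ρ x
  m1 : ∀ a b, τ (b - a) * ρ b ≤ ρ a * (2 * τ (b - a) + θ * β b)
  m2 : ∀ a b, σ (b - a) * ρ b ≤ ρ a * (2 * σ (b - a) + θ * β b)

/-- what the expansion gives to the Fourier part -/
structure LaceOut (τ σ : Γ → ℝ) (η : ℝ) (g : Γ → ℝ) : Prop where
  eq : ∀ x, τ x = g x + cv g σ x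
  n0 : ∑ x, |g x - dl x| ≤ 10 * η
  nw : ∀ ϖ L W, Wt τ σ ϖ L W → ∑ x, ϖ x * |g x - dl x| ≤ 11 * L ^ 3 * W
  sp : ∀ ρ β θ A B, Sp τ σ ρ β θ A B → ∀ y, |g y - dl y| ≤ 19 * A ^ 2 * ρ y ^ 2

end Group

/-- the neighbours of the origin of the torus -/
noncomputable def JT (d M : ℕ) (x : T d M) : ℝ := ind ((torus d M).Adj 0 x)

/-- `p J * τ` on the torus -/
noncomputable def sigT (d M : ℕ) [NeZero M] (p : ℝ) : T d M → ℝ :=
  cv (fun x => p * JT d M x) (tauT d M p)

/-- the graph distance to the origin of the torus -/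
def n1 {d M : ℕ} (x : T d M) : ℕ := ∑ i, (x i).valMinAbs.natAbs

end Pool.Agent.HD
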