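import Pool.Agent.Lib.TPC.ZBasic

/-! Abstract interface: restricted two-point functions on the infinite lattice. -/

open scoped ENNReal Classical

namespace Pool.Agent.HD

open Pool.Agent.TPC Pool.Agent.Lib.MP_81a99a_pr

/-- directed edges from `S` to `L \ S` -/
def Exit {d : ℕ} (S L : Set (Zd d)) : Set (Zd d × Zd d) :=
  {b | b.1 ∈ S ∧ b.2 ∈ L ∧ b.2 ∉ S ∧ (lattice d).Adj b.1 b.2}

/-- `t S x y` behaves like the probability that `x` and `y` are joined inside `S` -/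
structure Perc (d : ℕ) (p : ℝ≥0∞) (t : Set (Zd d) → Zd d → Zd d → ℝ≥0∞) : Prop where
  p_le : p ≤ 1
  le_one : ∀ S x y, t S x y ≤ 1
  self : ∀ S x, x ∈ S → t S x x = 1
  zero : ∀ S x y, x ∉ S → t S x y = 0
  symm : ∀ S x y, t S x y = t S y x
  mono : ∀ S L x y, S ⊆ L → t S x y ≤ t L x y
  aut : ∀ φ, Aut φ → ∀ S S' : Set (Zd d), (∀ z, φ z ∈ S' ↔ z ∈ S) →
    ∀ x y, t S' (φ x) (φ y) = t S x y
  lim : ∀ S x y, t S x y = ⨆ N : ℕ, t (S ∩ (box 0 N : Finset (Zd d))) x y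
  fe : ∀ L x y z, (lattice d).Adj y z → z ∈ L → p * t L x y ≤ t L x z
  slp : ∀ S L o x, o ∈ S → S ⊆ L →
    t L o x ≤ t S o x + ∑' b : Exit S L, p * t S o b.1.1 * t L b.1.2 x
  /-- reversed Simon-Lieb inequality; `b = (y, e)` stands for the segment from `y` to `y + K e` -/
  slg : ∀ (S L : Set (Zd d)) (o x : Zd d) (EE : Set (Zd d × Zd d)) (K : ℕ) (θ : ℝ≥0∞),
    S ⊆ L → 1 ≤ K → θ ≤ 1 →
    (∀ b ∈ EE, b.1 ∈ S ∧ (lattice d).Adj 0 b.2 ∧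
      ∀ s : ℕ, 1 ≤ s → s ≤ K → b.1 + s • b.2 ∈ L ∧ b.1 + s • b.2 ∉ S) →
    t S o x + θ * p ^ K * ∑' b : EE, t S o b.1.1 * t L (b.1.1 + K • b.1.2) x ≤
      t L o x +
      θ * p ^ K * ∑' b : EE, ∑' u, ∑' v,
        t S o u * t S u b.1.1 * t S u v * (t L (b.1.1 + K • b.1.2) v * t L v x) +
      θ ^ 2 * p ^ 2 * ∑' b : EE, ∑' c : EE, (if b = c then 0 else 1) * ∑' u, ∑' v,
        t S o u * t S u b.1.1 * t S u c.1.1 *
          (t L (b.1.1 + K • b.1.2) v * t L (c.1.1 + K • c.1.2) v * t L v x)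

/-- the family of all parameters, with critical value `c` -/
structure Fam (d : ℕ) (c : ℝ) (T : ℝ → Set (Zd d) → Zd d → Zd d → ℝ≥0∞) : Prop where
  perc : ∀ p, 0 ≤ p → p ≤ 1 → Perc d (ENNReal.ofReal p) (T p)
  c_le : c ≤ 1
  le_c : 1 ≤ 2 * d * c
  monoP : ∀ p q, 0 ≤ p → p ≤ q → q ≤ 1 → ∀ S x y, T p S x y ≤ T q S x y
  lc : ∀ q, 0 < q → q ≤ 1 → ∀ S x y,
    Filter.Tendsto (fun p => T p S x y) (nhdsWithin q (Set.Iio q)) (nhds (T q S x y))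
  lip : ∀ p q, 0 ≤ p → p ≤ q → q ≤ 1 → ∀ S x y, T q S x y ≤ T p S x y + ENNReal.ofReal (q - p) *
    ∑' a, ∑' b, (if (lattice d).Adj a b then 1 else 0) * (T q S x a * T q S b y)
  chi : ∀ p, 0 ≤ p → p < c → ∑' y, T p Set.univ 0 y ≠ ∞
  crit : c < 1 → ∀ S : Set (Zd d), S.Finite → 0 ∈ S →
    1 ≤ ∑' b : Exit S Set.univ, ENNReal.ofReal c * T c S 0 b.1.1

/-- the two-point function inside an arbitrary set of vertices -/
noncomputable def tI (d : ℕ) (p : ℝ) (S : Set (Zd d)) (x y : Zd d) : ℝ≥0∞ :=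
  ⨆ N : ℕ, ENNReal.ofReal (tz p (flt (box 0 N) (· ∈ S)) x y)

/-- the instance -/
def St_INST : Prop := ∀ d : ℕ, 1 ≤ d → Fam d (pc d) (tI d)

/-- two-sided bound for an abstract critical two-point function -/
def HighAbs (d : ℕ) (t : Zd d → ℝ≥0∞) : Prop :=
  ∃ a C : ℝ, 0 < a ∧ ∀ x : Zd d, x ≠ 0 →
    ENNReal.ofReal (a * ‖x‖ ^ (2 - (d : ℝ))) ≤ t x ∧ t x ≤ ENNReal.ofReal (C * ‖x‖ ^ (2 - (d : ℝ)))

/-- back to the measure -/
def St_END : Prop := ∀ d : ℕ, HighAbs d (tI d (pc d) Set.univ 0) → TPC.HighDim d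

end Pool.Agent.HD
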