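import Pool.Agent.Lib.HD.TDefs

/-! Generic tools for percolation on finite graphs. -/

open Finset Classical

set_option linter.unusedSectionVars false

namespace Pool.Agent.HD

open Pool.Agent.Lib.MP_81a99a_pr

section product

variable {ι κ : Type} [Fintype ι] [Fintype κ]

lemma ind_and (P Q : Prop) : ind (P ∧ Q) = ind P * ind Q := by
  by_cases hp : P <;> by_cases hq : Q <;> simp [ind, hp, hq]

lemma ind_eq_prod (s t : Set κ) : ind (s = t) = ∏ e, ind (e ∈ s ↔ e ∈ t) := by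
  by_cases h : s = t
  · rw [ind_pos h, Finset.prod_eq_one]
    intro e _
    exact ind_pos (by rw [h])
  · rw [ind_neg h]
    rw [Set.ext_iff, not_forall] at h
    obtain ⟨e, he⟩ := h
    exact (Finset.prod_eq_zero (Finset.mem_univ e) (ind_neg he)).symm

lemma Ex_pull_ind {j : κ → ι} (hj : Function.Injective j) (p : ℝ) (s : Set κ) :
    Ex p (fun ω : Set ι => ind (j ⁻¹' ω = s)) = wt p s := by
  let F : ι → Prop → ℝ := fun i P => if i ∈ Set.range j then ind (P ↔ i ∈ j '' s) else 1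
  have key : ∀ H : ι → ℝ, (∀ i, i ∉ Set.range j → H i = 1) → ∏ i, H i = ∏ e, H (j e) := by
    intro H hH
    rw [← Finset.prod_image (s := Finset.univ) (g := j) (f := H) (fun a _ b _ h => hj h)]
    refine (Finset.prod_subset (Finset.subset_univ _) fun i _ hi => hH i ?_).symm
    simpa using hi
  have e1 : ∀ ω : Set ι, ind (j ⁻¹' ω = s) = ∏ i, F i (i ∈ ω) := by
    intro ω
    rw [key _ (fun i hi => by simp only [F, if_neg hi]), ind_eq_prod]
    refine Finset.prod_congr rfl fun e _ => ?_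
    simp only [F, Set.mem_range_self, if_true, hj.mem_set_image, Set.mem_preimage]
  rw [Ex_congr e1, Ex_prod, key _ (fun i hi => by simp only [F, if_neg hi]; ring)]
  unfold wt
  refine Finset.prod_congr rfl fun e _ => ?_
  simp only [F, Set.mem_range_self, if_true, hj.mem_set_image]
  by_cases h : e ∈ s <;> simp [ind, h]

/-- pull back along an injection of the coordinates -/
lemma Ex_pull {j : κ → ι} (hj : Function.Injective j) (p : ℝ) (F : Set κ → ℝ) :
    Ex p (fun ω : Set ι => F (j ⁻¹' ω)) = Ex p F := by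
  have e1 : ∀ ω : Set ι, F (j ⁻¹' ω) = ∑ s, ind (j ⁻¹' ω = s) * F s := by
    intro ω
    rw [Finset.sum_eq_single (j ⁻¹' ω), ind_pos rfl, one_mul]
    · intro s _ hs; rw [ind_neg (Ne.symm hs), zero_mul]
    · simp
  rw [Ex_congr e1, Ex_sum]
  simp only [Ex_mul_right, Ex_pull_ind hj]
  rfl

lemma sum_wt (p : ℝ) : ∑ ω : Set ι, wt p ω = 1 := by
  simpa [Ex] using Ex_const (ι := ι) p 1

/-- monotone functions have monotone expectations -/
lemma Ex_mono_p {p q : ℝ} (h0 : 0 ≤ p) (hpq : p ≤ q) (h1 : q ≤ 1) {f : Set ι → ℝ}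
    (hf : Monotone f) : Ex p f ≤ Ex q f := by
  have key := holley (μ := fun ω : Set ι => f ω - f ∅) (f := wt p) (g := wt q)
    (fun ω => sub_nonneg.2 (hf (Set.empty_subset ω))) (fun ω => wt_nonneg h0 (hpq.trans h1) ω)
    (fun ω => wt_nonneg (h0.trans hpq) h1 ω) (fun a b h => sub_le_sub_right (hf h) _)
    (by rw [sum_wt, sum_wt]) (by
      intro a b
      unfold wt
      rw [← Finset.prod_mul_distrib, ← Finset.prod_mul_distrib]
      refine Finset.prod_le_prod (fun e _ => mul_nonneg ?_ ?_) fun e _ => ?_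
      · split_ifs <;> linarith
      · split_ifs <;> linarith
      · by_cases ha : e ∈ a <;> by_cases hb : e ∈ b <;> simp [ha, hb]
        nlinarith)
  simp only [sub_mul, Finset.sum_sub_distrib, ← Finset.mul_sum, sum_wt] at key
  unfold Ex
  simp only [mul_comm (wt _ _)]
  linarith

lemma Ex_continuous (f : Set ι → ℝ) : Continuous fun p => Ex p f := by
  unfold Ex wt
  refine continuous_finsetSum _ fun ω _ => Continuous.mul ?_ continuous_const
  refine continuous_finsetProd _ fun e _ => ?_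
  split_ifs <;> fun_prop

/-- FKG for increasing events -/
lemma Ex_fkg_ind {p : ℝ} (h0 : 0 ≤ p) (h1 : p ≤ 1) {A B : Set ι → Prop}
    (hA : ∀ a b, a ⊆ b → A a → A b) (hB : ∀ a b, a ⊆ b → B a → B b) :
    Ex p (fun ω => ind (A ω)) * Ex p (fun ω => ind (B ω)) ≤ Ex p (fun ω => ind (A ω ∧ B ω)) := by
  have := Ex_fkg_anti h0 h1 (f := fun ω => - ind (A ω)) (g := fun ω => - ind (B ω))
    (fun a b h => neg_le_neg (ind_mono (hA a b h))) (fun a b h => neg_le_neg (ind_mono (hB a b h)))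
    (fun ω => by have := ind_nonneg (A ω); linarith) (fun ω => by have := ind_nonneg (B ω); linarith)
  have e : ∀ f : Set ι → ℝ, Ex p (fun ω => - f ω) = - Ex p f := fun f => by
    rw [← neg_one_mul (Ex p f), ← Ex_mul_left]; simp
  rw [e, e] at this
  simpa [ind_and] using this

lemma hasDerivAt_wt {p : ℝ} (h0 : 0 < p) (h1 : p < 1) (ω : Set ι) :
    HasDerivAt (fun q => wt q ω) (wt p ω * (∑ e, xi p e ω) / (p * (1 - p))) p := by
  have h : ∀ e ∈ (Finset.univ : Finset ι), HasDerivAt (fun q : ℝ => if e ∈ ω then q else 1 - q)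
      (if e ∈ ω then 1 else -1) p := by
    intro e _
    split_ifs
    · exact hasDerivAt_id p
    · exact (hasDerivAt_id p).const_sub 1
  have := HasDerivAt.fun_finsetProd h
  unfold wt
  refine this.congr_deriv ?_
  rw [Finset.mul_sum, Finset.sum_div]
  refine Finset.sum_congr rfl fun e _ => ?_
  rw [← Finset.mul_prod_erase _ _ (Finset.mem_univ e), smul_eq_mul]
  have a : p * (1 - p) ≠ 0 := (mul_pos h0 (by linarith)).ne'
  rw [eq_div_iff a]
  unfold xi
  split_ifs <;> ring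

/-- Russo formula -/
lemma russo {p : ℝ} (h0 : 0 < p) (h1 : p < 1) (f : Set ι → ℝ) :
    HasDerivAt (fun q => Ex q f)
      (∑ e, Ex p (fun ω => f (insert e ω) - f (ω \ {e}))) p := by
  have h := HasDerivAt.fun_sum (u := Finset.univ) fun ω (_ : ω ∈ (Finset.univ : Finset (Set ι))) =>
    (hasDerivAt_wt h0 h1 ω).mul_const (f ω)
  refine h.congr_deriv ?_
  have a : p * (1 - p) ≠ 0 := (mul_pos h0 (by linarith)).ne'
  have e1 : ∀ e, Ex p (fun ω => xi p e ω * f ω) =
      p * (1 - p) * Ex p (fun ω => f (insert e ω) - f (ω \ {e})) := by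
    intro e
    have d1 : DepOn (fun ω => f (insert e ω)) {e}ᶜ := fun ω ω' h => by
      refine congrArg f (Set.ext fun a => ?_)
      by_cases ha : a = e
      · simp [ha]
      · simp [ha, h a ha]
    have d0 : DepOn (fun ω => f (ω \ {e})) {e}ᶜ := fun ω ω' h => by
      refine congrArg f (Set.ext fun a => ?_)
      by_cases ha : a = e
      · simp [ha]
      · simp [ha, h a ha]
    rw [Ex_split p e (f1 := fun ω => (1 - p) * f (insert e ω)) (f0 := fun ω => -p * f (ω \ {e}))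
      (fun ω ω' h => by simp only [d1 ω ω' h]) (fun ω ω' h => by simp only [d0 ω ω' h])
      (fun ω h => by simp [xi, h]) (fun ω h => by simp [xi, h]), Ex_mul_left, Ex_mul_left, Ex_sub]
    ring
  have e2 : ∀ e, Ex p (fun ω => f (insert e ω) - f (ω \ {e})) =
      Ex p (fun ω => xi p e ω * f ω) / (p * (1 - p)) := fun e => by
    rw [e1, mul_div_cancel_left₀ _ a]
  simp only [e2]
  rw [← Finset.sum_div, ← Ex_sum, Ex, Finset.sum_div]
  refine Finset.sum_congr rfl fun ω _ => ?_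
  rw [← Finset.sum_mul]
  ring

end product

section graph

variable {V W : Type} [Fintype V] [Fintype W] {G H : SimpleGraph V} {p q : ℝ} {x y o : V}
  {S B : Finset V}

lemma res_adj {a b : V} : (res G S).Adj a b ↔ G.Adj a b ∧ a ∈ S ∧ b ∈ S := Iff.rfl

lemma res_le : res G S ≤ G := fun _ _ h => h.1

lemma res_mono {S' : Finset V} (h : S ⊆ S') : res G S ≤ res G S' :=
  fun _ _ hab => ⟨hab.1, h hab.2.1, h hab.2.2⟩

lemma cl_res_subset {ω : Set (Sym2 V)} (ho : o ∈ S) : cl (res G S) ω {o} ⊆ S :=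
  cl_subset (by simpa using ho) fun _ _ _ h _ => h.2.2

lemma tau_nonneg (h0 : 0 ≤ p) (h1 : p ≤ 1) : 0 ≤ tau G p x y :=
  Ex_nonneg h0 h1 fun _ => ind_nonneg _

lemma tau_le_one (h0 : 0 ≤ p) (h1 : p ≤ 1) : tau G p x y ≤ 1 :=
  Ex_le_const h0 h1 fun _ => ind_le_one _

lemma tau_self : tau G p x x = 1 := by
  unfold tau
  simp only [ind_pos self_mem_cl, Ex_const]

lemma tau_symm : tau G p x y = tau G p y x :=
  Ex_congr fun _ => ind_congr ⟨mem_cl_symm, mem_cl_symm⟩

lemma tau_mono_graph (h0 : 0 ≤ p) (h1 : p ≤ 1) (h : G ≤ H) : tau G p x y ≤ tau H p x y :=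
  Ex_mono h0 h1 fun _ => ind_mono fun hy => cl_mono h subset_rfl subset_rfl hy

lemma tau_mono_p (h0 : 0 ≤ p) (hpq : p ≤ q) (h1 : q ≤ 1) : tau G p x y ≤ tau G q x y :=
  Ex_mono_p h0 hpq h1 fun _ _ h => ind_mono fun hy => cl_mono le_rfl h subset_rfl hy

lemma tau_continuous (G : SimpleGraph V) (x y : V) : Continuous fun p => tau G p x y :=
  Ex_continuous _

lemma mem_cl_map {G' : SimpleGraph W} {f : V → W} (hf : ∀ a b, G.Adj a b → G'.Adj (f a) (f b))
    {ω : Set (Sym2 W)} (h : y ∈ cl G (Sym2.map f ⁻¹' ω) {x}) : f y ∈ cl G' ω {f x} := by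
  have : cl G (Sym2.map f ⁻¹' ω) {x} ⊆ Finset.univ.filter fun a => f a ∈ cl G' ω {f x} :=
    cl_subset (by simpa using self_mem_cl) fun a ha b hab he => by
      simp only [Finset.mem_filter, Finset.mem_univ, true_and] at ha ⊢
      exact cl_closed ha (hf a b hab) he
  simpa using this h

/-- monotonicity under injective graph homomorphisms -/
lemma tau_le_map (h0 : 0 ≤ p) (h1 : p ≤ 1) {G' : SimpleGraph W} {f : V → W}
    (hi : Function.Injective f) (hf : ∀ a b, G.Adj a b → G'.Adj (f a) (f b)) :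
    tau G p x y ≤ tau G' p (f x) (f y) := by
  unfold tau
  rw [← Ex_pull (Sym2.map.injective hi) p fun η => ind (y ∈ cl G η {x})]
  exact Ex_mono h0 h1 fun ω => ind_mono (mem_cl_map hf)

/-- invariance under graph isomorphisms -/
lemma tau_iso (h0 : 0 ≤ p) (h1 : p ≤ 1) {G' : SimpleGraph W} (f : G ≃g G') :
    tau G' p (f x) (f y) = tau G p x y := by
  refine le_antisymm ?_ (tau_le_map h0 h1 f.injective fun a b h => f.map_rel_iff.2 h)
  have := tau_le_map (G := G') (G' := G) (x := f x) (y := f y) h0 h1 f.symm.injective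
    fun a b h => f.symm.map_rel_iff.2 h
  simpa using this

lemma Ex_mem (p : ℝ) (e : Sym2 V) : Ex p (fun ω => ind (e ∈ ω)) = p := by
  have := Ex_coord p 1 0 e
  simpa [ind] using this

/-- finite energy -/
lemma tau_step (h0 : 0 ≤ p) (h1 : p ≤ 1) {z : V} (h : G.Adj y z) :
    p * tau G p x y ≤ tau G p x z := by
  have := Ex_fkg_ind h0 h1 (A := fun ω => s(y, z) ∈ ω) (B := fun ω => y ∈ cl G ω {x})
    (fun a b hab ha => hab ha) (fun a b hab ha => cl_mono le_rfl hab subset_rfl ha)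
  rw [Ex_mem] at this
  exact this.trans (Ex_mono h0 h1 fun ω => ind_mono fun hω => cl_closed hω.2 h hω.1)

lemma dep_cl_res (G : SimpleGraph V) (A R : Finset V) (F : Finset V → ℝ) {U : Set (Sym2 V)}
    (hU : ∀ a b, G.Adj a b → a ∉ A → b ∉ A → s(a, b) ∈ U) :
    DepOn (fun ω => F (cl (res G Aᶜ) ω R)) U := by
  intro ω ω' h
  refine congrArg F (cl_congr fun e he => h e ?_).symm
  obtain ⟨h1, -⟩ := mem_touch.1 he
  induction e using Sym2.ind with
  | h a b =>
    have h2 : (res G Aᶜ).Adj a b := h1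
    exact hU a b h2.1 (by simpa using h2.2.1) (by simpa using h2.2.2)

lemma not_mem_touch {A : Finset V} {a b : V} (ha : a ∉ A) (hb : b ∉ A) :
    s(a, b) ∈ (touch H A : Set (Sym2 V))ᶜ := by
  intro h
  obtain ⟨-, v, hv, h2⟩ := mem_touch.1 (Finset.mem_coe.1 h)
  rcases Sym2.mem_iff.1 h2 with rfl | rfl
  exacts [ha hv, hb hv]

/-- exit edges of `S` -/
noncomputable def exits (G : SimpleGraph V) (S : Finset V) : Finset (V × V) :=
  Finset.univ.filter fun b => b.1 ∈ S ∧ b.2 ∉ S ∧ G.Adj b.1 b.2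

lemma mem_exits {b : V × V} : b ∈ exits G S ↔ b.1 ∈ S ∧ b.2 ∉ S ∧ G.Adj b.1 b.2 := by
  simp [exits]

/-- the exit mass (without the factor `p`) -/
noncomputable def exm (G : SimpleGraph V) (S : Finset V) (p : ℝ) (o : V) : ℝ :=
  ∑ b ∈ exits G S, tau (res G S) p o b.1

lemma exm_nonneg (h0 : 0 ≤ p) (h1 : p ≤ 1) : 0 ≤ exm G S p o :=
  Finset.sum_nonneg fun _ _ => tau_nonneg h0 h1

lemma exm_mono_p (h0 : 0 ≤ p) (hpq : p ≤ q) (h1 : q ≤ 1) : exm G S p o ≤ exm G S q o :=
  Finset.sum_le_sum fun _ _ => tau_mono_p h0 hpq h1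

lemma exm_continuous (G : SimpleGraph V) (S : Finset V) (o : V) :
    Continuous fun p => exm G S p o :=
  continuous_finsetSum _ fun _ _ => tau_continuous _ _ _

lemma last_exit {ω : Set (Sym2 V)} {C : Finset V} (ho : o ∈ C) (hy : y ∉ C)
    (h : y ∈ cl G ω {o}) :
    ∃ a ∈ C, ∃ z ∉ C, G.Adj a z ∧ s(a, z) ∈ ω ∧ y ∈ cl (res G Cᶜ) ω {z} := by
  let R : Finset V := Finset.univ.filter fun v => v ∈ C ∨
    ∃ a ∈ C, ∃ z ∉ C, G.Adj a z ∧ s(a, z) ∈ ω ∧ v ∈ cl (res G Cᶜ) ω {z}
  have : cl G ω {o} ⊆ R := cl_subset (by simp [R, ho]) fun v hv w hvw he => by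
    simp only [R, Finset.mem_filter, Finset.mem_univ, true_and] at hv ⊢
    by_cases hw : w ∈ C
    · exact Or.inl hw
    by_cases hv' : v ∈ C
    · exact Or.inr ⟨v, hv', w, hw, hvw, he, self_mem_cl⟩
    obtain ⟨a, ha, z, hz, h1, h2, h3⟩ := hv.resolve_left hv'
    exact Or.inr ⟨a, ha, z, hz, h1, h2,
      cl_closed h3 ⟨hvw, by simpa using hv', by simpa using hw⟩ he⟩
  have := this h
  simp only [R, Finset.mem_filter, Finset.mem_univ, true_and] at this
  exact this.resolve_left hy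

/-- the Simon-Lieb inequality -/
lemma simon_lieb (h0 : 0 ≤ p) (h1 : p ≤ 1) (ho : o ∈ S) :
    tau G p o y ≤ tau (res G S) p o y +
      p * ∑ b ∈ exits G S, tau (res G S) p o b.1 * tau G p b.2 y := by
  let F : V × V → Finset V → Set (Sym2 V) → ℝ := fun b A ω =>
    ind (b.1 ∈ A) * ((if s(b.1, b.2) ∈ ω then 1 else 0) * ind (y ∈ cl (res G Aᶜ) ω {b.2}))
  have F0 : ∀ b A ω, 0 ≤ F b A ω := fun b A ω =>
    mul_nonneg (ind_nonneg _) (mul_nonneg (by split_ifs <;> norm_num) (ind_nonneg _))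
  have a1 : ∀ ω, ind (y ∈ cl G ω {o}) ≤ ind (y ∈ cl (res G S) ω {o}) +
      ∑ b ∈ exits G S, F b (cl (res G S) ω {o}) ω := by
    intro ω
    have s0 : 0 ≤ ∑ b ∈ exits G S, F b (cl (res G S) ω {o}) ω :=
      Finset.sum_nonneg fun b _ => F0 _ _ _
    by_cases hy : y ∈ cl (res G S) ω {o}
    · rw [ind_pos hy]; linarith [ind_le_one (y ∈ cl G ω {o})]
    by_cases h : y ∈ cl G ω {o}
    · obtain ⟨a, ha, z, hz, h2, h3, h4⟩ := last_exit self_mem_cl hy h
      have haS := cl_res_subset ho ha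
      have hm : (a, z) ∈ exits G S := mem_exits.2 ⟨haS, fun hzS =>
        hz (cl_closed ha ⟨h2, haS, hzS⟩ h3), h2⟩
      have := Finset.single_le_sum (f := fun b => F b (cl (res G S) ω {o}) ω)
        (fun b _ => F0 _ _ _) hm
      simp only [F, ind_pos ha, if_pos h3, ind_pos h4, mul_one] at this
      rw [ind_pos h, ind_neg hy, zero_add]
      exact this
    · rw [ind_neg h, ind_neg hy, zero_add]; exact s0
  refine (Ex_mono h0 h1 a1).trans ?_
  rw [Ex_add, Ex_sum, Finset.mul_sum]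
  refine add_le_add le_rfl (Finset.sum_le_sum fun b hb => ?_)
  obtain ⟨hb1, hb2, hb3⟩ := mem_exits.1 hb
  rw [Ex_cond_cl p (res G S) o (F b)]
  · have : ∀ A, Ex p (F b A) ≤ ind (b.1 ∈ A) * (p * tau G p b.2 y) := by
      intro A
      by_cases hA : b.1 ∈ A
      · simp only [F]
        rw [Ex_mul_left, Ex_coord_mul p 1 0 _ (dep_cl_res G A {b.2} (fun C => ind (y ∈ C)) ?_)]
        · refine mul_le_mul_of_nonneg_left ?_ (ind_nonneg _)
          rw [mul_one, mul_zero, add_zero]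
          exact mul_le_mul_of_nonneg_left (tau_mono_graph h0 h1 res_le) h0
        · intro a c _ ha hc h
          rcases Sym2.eq_iff.1 (Set.mem_singleton_iff.1 h) with ⟨rfl, -⟩ | ⟨-, rfl⟩
          exacts [ha hA, hc hA]
      · simp only [F, ind_neg hA, zero_mul, Ex_const, le_refl]
    refine (Ex_mono h0 h1 fun ω => this _).trans (le_of_eq ?_)
    rw [Ex_mul_right]
    unfold tau
    ring
  · intro A ω ω' h
    have e1 := dep_cl_res G A {b.2} (fun C => ind (y ∈ C))
      (fun a c _ ha hc => not_mem_touch ha hc) ω ω' h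
    have e2 := h s(b.1, b.2) fun h2 => hb2
      (show (res G S).Adj b.1 b.2 from (mem_touch.1 (Finset.mem_coe.1 h2)).1).2.2
    simp only at e1
    simp only [F, e1, e2]

/-- the differential inequality of Duminil-Copin and Tassion -/
lemma dct_deriv (h0 : 0 ≤ p) (h1 : p ≤ 1) {m : ℝ}
    (hm : ∀ S : Finset V, o ∈ S → Disjoint S B → m ≤ exm G S p o) :
    m * (1 - Ex p fun ω => ind (o ∈ cl G ω B)) ≤
      ∑ e, Ex p (fun ω => ind (o ∈ cl G (insert e ω) B) - ind (o ∈ cl G (ω \ {e}) B)) := by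
  let f : Set (Sym2 V) → ℝ := fun ω => ind (o ∈ cl G ω B)
  let F : Finset V → Set (Sym2 V) → ℝ := fun A ω =>
    ind (o ∉ A) * ∑ b ∈ exits G Aᶜ, ind (b.1 ∈ cl (res G Aᶜ) ω {o})
  have fm : ∀ e ω, 0 ≤ f (insert e ω) - f (ω \ {e}) := fun e ω => sub_nonneg.2
    (ind_mono fun h => cl_mono le_rfl (Set.sdiff_subset.trans (Set.subset_insert _ _)) subset_rfl h)
  have a1 : ∀ ω, F (cl G ω B) ω ≤ ∑ e, (f (insert e ω) - f (ω \ {e})) := by
    intro ω
    by_cases ho : o ∈ cl G ω B
    · simp only [F, ind_neg (not_not.2 ho), zero_mul]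
      exact Finset.sum_nonneg fun e _ => fm e ω
    simp only [F, ind_pos ho, one_mul]
    set A := cl G ω B with hA
    have inj : Set.InjOn (fun b : V × V => s(b.1, b.2)) (exits G Aᶜ) := by
      intro b hb c hc h
      obtain ⟨b1, b2, -⟩ := mem_exits.1 hb
      obtain ⟨c1, c2, -⟩ := mem_exits.1 hc
      rcases Sym2.eq_iff.1 h with ⟨h3, h4⟩ | ⟨h3, h4⟩
      · exact Prod.ext h3 h4
      · exact absurd (h3 ▸ b1) c2
    refine le_trans ?_ (Finset.sum_le_sum_of_subset_of_nonneg (Finset.subset_univ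
      ((exits G Aᶜ).image fun b => s(b.1, b.2))) fun e _ _ => fm e ω)
    rw [Finset.sum_image inj]
    refine Finset.sum_le_sum fun b hb => ?_
    obtain ⟨b1, b2, b3⟩ := mem_exits.1 hb
    by_cases h : b.1 ∈ cl (res G Aᶜ) ω {o}
    · have h2 : b.2 ∈ cl G (insert s(b.1, b.2) ω) B :=
        cl_mono le_rfl (Set.subset_insert _ _) subset_rfl (by simpa using b2)
      have h3 : b.1 ∈ cl G (insert s(b.1, b.2) ω) B :=
        cl_closed h2 b3.symm (by rw [Sym2.eq_swap]; exact Set.mem_insert _ _)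
      have h4 : o ∈ cl G (insert s(b.1, b.2) ω) B := by
        obtain ⟨z, hz, hr⟩ := mem_cl.1 h3
        have h5 : o ∈ cl G (insert s(b.1, b.2) ω) {b.1} :=
          cl_mono res_le (Set.subset_insert _ _) subset_rfl (mem_cl_symm h)
        exact mem_cl.2 ⟨z, hz, hr.trans (mem_cl_single.1 h5)⟩
      have h6 : o ∉ cl G (ω \ {s(b.1, b.2)}) B := fun h7 =>
        ho (cl_mono le_rfl Set.sdiff_subset subset_rfl h7)
      simp only [f, ind_pos h, ind_pos h4, ind_neg h6, sub_zero, le_refl]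
    · rw [ind_neg h]; exact fm _ _
  rw [← Ex_sum]
  refine le_trans ?_ (Ex_mono h0 h1 a1)
  rw [Ex_cond p (fun ω => cl G ω B) (fun A => (touch G A : Set (Sym2 V))) (dep_cl_eq G B) F]
  · have e : m * (1 - Ex p fun ω => ind (o ∈ cl G ω B)) =
        Ex p fun ω => ind (o ∉ cl G ω B) * m := by
      simp only [ind_not]
      rw [Ex_mul_right, Ex_sub, Ex_const, mul_comm]
    rw [e]
    refine Ex_mono h0 h1 fun ω => ?_
    simp only [F]
    rw [Ex_mul_left, Ex_sum]
    by_cases ho : o ∈ cl G ω B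
    · simp only [ind_neg (not_not.2 ho), zero_mul, le_refl]
    · refine mul_le_mul_of_nonneg_left (hm _ (by simpa using ho) ?_) (ind_nonneg _)
      rw [Finset.disjoint_left]
      intro a ha hb
      exact Finset.mem_compl.1 ha (subset_cl hb)
  · intro A ω ω' h
    have e1 := dep_cl_res G A {o} (fun C => ∑ b ∈ exits G Aᶜ, ind (b.1 ∈ C))
      (fun a c _ ha hc => not_mem_touch ha hc) ω ω' h
    simp only at e1
    simp only [F, e1]

/-- the integrated inequality -/
lemma dct (h0 : 0 < p) (hpq : p ≤ q) (h1 : q < 1)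
    (hm : ∀ S : Finset V, o ∈ S → Disjoint S B → 1 ≤ exm G S p o) :
    1 - Real.exp (p - q) ≤ Ex q fun ω => ind (o ∈ cl G ω B) := by
  let θ : ℝ → ℝ := fun t => Ex t fun ω => ind (o ∈ cl G ω B)
  let θ' : ℝ → ℝ := fun t =>
    ∑ e, Ex t (fun ω => ind (o ∈ cl G (insert e ω) B) - ind (o ∈ cl G (ω \ {e}) B))
  have hd : ∀ t ∈ Set.Icc p q, HasDerivAt (fun t => (1 - θ t) * Real.exp t)
      (-θ' t * Real.exp t + (1 - θ t) * Real.exp t) t := fun t ht =>
    ((russo (h0.trans_le ht.1) (ht.2.trans_lt h1) _).const_sub 1).mul (Real.hasDerivAt_exp t)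
  have an : AntitoneOn (fun t => (1 - θ t) * Real.exp t) (Set.Icc p q) := by
    refine antitoneOn_of_deriv_nonpos (convex_Icc p q)
      (fun t ht => (hd t ht).continuousAt.continuousWithinAt)
      (fun t ht => (hd t (interior_subset ht)).differentiableAt.differentiableWithinAt)
      fun t ht => ?_
    have ht' := interior_subset ht
    rw [(hd t ht').deriv]
    have := dct_deriv (G := G) (o := o) (B := B) (m := 1) (h0.le.trans ht'.1) (ht'.2.trans h1.le)
      fun S h2 h3 => (hm S h2 h3).trans (exm_mono_p h0.le ht'.1 (ht'.2.trans h1.le))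
    have h4 : 1 * (1 - θ t) ≤ θ' t := this
    nlinarith [Real.exp_pos t]
  have a := an ⟨le_rfl, hpq⟩ ⟨hpq, le_rfl⟩ hpq
  have b : 0 ≤ θ p := Ex_nonneg h0.le (hpq.trans h1.le) fun _ => ind_nonneg _
  have c : (1 - θ q) * Real.exp q ≤ Real.exp p := by
    simp only at a
    nlinarith [Real.exp_pos p]
  rw [Real.exp_sub, sub_le_comm, le_div_iff₀ (Real.exp_pos q)]
  exact c

end graph

end Pool.Agent.HD
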