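import Pool.Agent.Lib.TPC.Path

/-! The reversed Simon-Lieb inequality in finite volume, for general bridges. -/

open Finset

set_option linter.unusedSectionVars false

namespace Pool.Agent.HD.SLG

open Pool.Agent.TPC

lemma bonf {ι : Type} [DecidableEq ι] (s : Finset ι) (A : ι → Prop) {θ : ℝ} (_h0 : 0 ≤ θ)
    (h1 : θ ≤ 1) : θ * ∑ i ∈ s, ind (A i) ≤
      ind (∃ i ∈ s, A i) + θ ^ 2 * ∑ i ∈ s, ∑ j ∈ s.erase i, ind (A i ∧ A j) := by
  have e : ∑ i ∈ s, ∑ j ∈ s.erase i, ind (A i ∧ A j) =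
      (∑ i ∈ s, ind (A i)) ^ 2 - ∑ i ∈ s, ind (A i) := by
    rw [sq, Finset.sum_mul_sum, ← Finset.sum_sub_distrib]
    refine Finset.sum_congr rfl fun i hi => ?_
    rw [← Finset.add_sum_erase s _ hi, ← ind_and, and_self]
    simp only [ind_and]
    ring
  rw [e, ← card_flt]
  by_cases h : ∃ i ∈ s, A i
  · rw [ind_pos h]
    obtain ⟨i, hi, h2⟩ := h
    have c : 1 ≤ (flt s A).card := Finset.card_pos.2 ⟨i, mem_flt.2 ⟨hi, h2⟩⟩
    rcases c.eq_or_lt with c | c
    · rw [← c]; simpa using h1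
    · have c2 : (2 : ℝ) ≤ (flt s A).card := by exact_mod_cast c
      generalize ((flt s A).card : ℝ) = n at c2 ⊢
      have : θ ^ 2 * n ^ 2 / 2 ≤ θ ^ 2 * (n ^ 2 - n) := by
        have : n ^ 2 / 2 ≤ n ^ 2 - n := by nlinarith
        nlinarith [sq_nonneg θ]
      nlinarith [sq_nonneg (θ * n - 1)]
  · have : flt s A = ∅ := Finset.eq_empty_of_forall_notMem fun i hi => h ⟨i, mem_flt.1 hi⟩
    rw [this, ind_neg h]
    simp

variable {V : Type} [DecidableEq V] {G : SimpleGraph V} {p : ℝ} {S L : Finset V} {o x : V}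

lemma dep_sub (B : Finset (Sym2 V)) : DepOn (fun ω => ind (B ⊆ ω)) (B : Set (Sym2 V)) :=
  fun _ _ h => ind_congr ⟨fun h2 e he => (h e he).1 (h2 he), fun h2 e he => (h e he).2 (h2 he)⟩

lemma dep_conn_sdiff (G : SimpleGraph V) (L C : Finset V) (z x : V) :
    DepOn (fun ω => conn G (L \ C) ω z x) (touch C)ᶜ :=
  (dep_conn G (L \ C) z x).mono fun _ he => edges_sdiff_not_touch he

lemma dep_and {U : Set (Sym2 V)} {P Q : Finset (Sym2 V) → Prop} (hP : DepOn P U)
    (hQ : DepOn Q U) : DepOn (fun ω => ind (P ω ∧ Q ω)) U := fun ω ω' h => by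
  simp only [hP ω ω' h, hQ ω ω' h]

lemma first (h1 : St_PL1) (h2 : St_PL2) (p0 : 0 ≤ p) (p1 : p ≤ 1) (hSL : S ⊆ L) {y z : V}
    {B : Finset (Sym2 V)} (hB : B ⊆ edges G L) (hBS : Disjoint B (edges G S)) :
    p ^ B.card * (tau G (fun _ => p) S o y * tau G (fun _ => p) L z x) ≤
      PE (edges G L) (fun _ => p) (fun ω =>
        ind (conn G S ω o y ∧ B ⊆ ω ∧ conn G (L \ cl G S ω o) ω z x)) +
      p ^ B.card * ∑ u ∈ S, ∑ v ∈ S, tau G (fun _ => p) S o u * tau G (fun _ => p) S u y *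
        tau G (fun _ => p) S u v * (tau G (fun _ => p) L z v * tau G (fun _ => p) L v x) := by
  have hπ : Prob (fun _ : Sym2 V => p) := Prob.const p0 p1
  let F : Finset V → Finset (Sym2 V) → ℝ := fun C ω =>
    ind (y ∈ C) * (ind (B ⊆ ω) * ind (conn G (L \ C) ω z x))
  have a1 : PE (edges G L) (fun _ => p) (fun ω =>
      ind (conn G S ω o y ∧ B ⊆ ω ∧ conn G (L \ cl G S ω o) ω z x)) =
      PE (edges G L) (fun _ => p) (fun ω => PE (edges G L) (fun _ => p) (F (cl G S ω o))) := by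
    rw [← PE_cond_cl G S o F]
    · exact PE_congr fun ω _ => by simp only [F, ind_and, mem_cl]
    · intro A _ ω ω' h
      have b1 := dep_sub B ω ω' fun e he => h e fun h3 => Finset.disjoint_left.1 hBS he h3.1
      have b2 := dep_conn_sdiff G L A z x ω ω' fun e he => h e fun h3 => he h3.2
      simp only at b1 b2
      simp only [F, b1, b2]
  have a2 : ∀ C, C ⊆ S → p ^ B.card * (ind (y ∈ C) * tau G (fun _ => p) L z x) ≤
      PE (edges G L) (fun _ => p) (F C) + p ^ B.card * ∑ v ∈ S, ind (y ∈ C ∧ v ∈ C) *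
        (tau G (fun _ => p) L z v * tau G (fun _ => p) L v x) := by
    intro C hC
    have b1 := PE_fkg (E := edges G L) hπ (f := fun ω => ind (B ⊆ ω))
      (g := fun ω => ind (conn G (L \ C) ω z x)) (fun a b hab => ind_mono fun h => h.trans hab)
      fun a b hab => ind_mono fun h => h.mono subset_rfl hab
    rw [PE_all_open hB, PE_conn (edges_mono Finset.sdiff_subset), Finset.prod_const] at b1
    have b2 := h1 V G _ hπ L C z x
    have b3 : ∑ v ∈ S, ind (y ∈ C ∧ v ∈ C) *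
        (tau G (fun _ => p) L z v * tau G (fun _ => p) L v x) =
        ind (y ∈ C) * ∑ v ∈ C, tau G (fun _ => p) L z v * tau G (fun _ => p) L v x := by
      have : flt S (· ∈ C) = C := by
        ext v; rw [mem_flt]; exact ⟨fun h => h.2, fun h => ⟨hC h, h⟩⟩
      rw [← this, sum_flt, this, Finset.mul_sum]
      exact Finset.sum_congr rfl fun v _ => by rw [ind_and, mul_assoc]
    simp only [F]
    rw [PE_mul_left, b3]
    have b4 := mul_le_mul_of_nonneg_left b2 (pow_nonneg p0 B.card)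
    have b5 := mul_le_mul_of_nonneg_left b4 (ind_nonneg (y ∈ C))
    have b6 := mul_le_mul_of_nonneg_left b1 (ind_nonneg (y ∈ C))
    linarith
  have a3 := PE_mono (E := edges G L) hπ fun ω => a2 (cl G S ω o) cl_subset
  rw [PE_add, ← a1, PE_mul_left, PE_mul_left, PE_mul_right, PE_sum] at a3
  simp only [mem_cl] at a3
  rw [PE_conn (edges_mono hSL)] at a3
  refine a3.trans (add_le_add le_rfl (mul_le_mul_of_nonneg_left ?_ (pow_nonneg p0 _)))
  rw [Finset.sum_comm]
  refine Finset.sum_le_sum fun v _ => ?_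
  rw [PE_mul_right, ← Finset.sum_mul]
  exact mul_le_mul_of_nonneg_right (h2 V G _ hπ _ S S o y v)
    (mul_nonneg (tau_nonneg hπ) (tau_nonneg hπ))

lemma pair (h2 : St_PL2) (p0 : 0 ≤ p) (p1 : p ≤ 1) {y z y' z' : V}
    {Q : Finset (Sym2 V)} (hQ : Q ⊆ edges G L) (hQS : Disjoint Q (edges G S))
    (hQy : ∀ e ∈ Q, y ∈ e ∨ y' ∈ e) :
    PE (edges G L) (fun _ => p) (fun ω => ind ((conn G S ω o y ∧ conn G S ω o y') ∧ Q ⊆ ω ∧
        conn G (L \ cl G S ω o) ω x z ∧ conn G (L \ cl G S ω o) ω x z')) ≤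
      p ^ Q.card * ∑ u ∈ S, ∑ v ∈ L, tau G (fun _ => p) S o u * tau G (fun _ => p) S u y *
        tau G (fun _ => p) S u y' * (tau G (fun _ => p) L z v * tau G (fun _ => p) L z' v *
          tau G (fun _ => p) L v x) := by
  have hπ : Prob (fun _ : Sym2 V => p) := Prob.const p0 p1
  let F : Finset V → Finset (Sym2 V) → ℝ := fun C ω => ind (y ∈ C ∧ y' ∈ C) *
    (ind (Q ⊆ ω) * ind (conn G (L \ C) ω x z ∧ conn G (L \ C) ω x z'))
  set T : ℝ := ∑ v ∈ L, tau G (fun _ => p) L z v * tau G (fun _ => p) L z' v *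
    tau G (fun _ => p) L v x with hT
  have T0 : 0 ≤ T := Finset.sum_nonneg fun _ _ =>
    mul_nonneg (mul_nonneg (tau_nonneg hπ) (tau_nonneg hπ)) (tau_nonneg hπ)
  have a1 : PE (edges G L) (fun _ => p) (fun ω => ind ((conn G S ω o y ∧ conn G S ω o y') ∧ Q ⊆ ω ∧
        conn G (L \ cl G S ω o) ω x z ∧ conn G (L \ cl G S ω o) ω x z')) =
      PE (edges G L) (fun _ => p) (fun ω => PE (edges G L) (fun _ => p) (F (cl G S ω o))) := by
    rw [← PE_cond_cl G S o F]
    · exact PE_congr fun ω _ => by simp only [F, ind_and, mem_cl]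
    · intro A _ ω ω' h
      have b1 := dep_sub Q ω ω' fun e he => h e fun h3 => Finset.disjoint_left.1 hQS he h3.1
      have b2 := dep_and (dep_conn_sdiff G L A x z) (dep_conn_sdiff G L A x z') ω ω'
        fun e he => h e fun h3 => he h3.2
      simp only at b1 b2
      simp only [F, b1, b2]
  have a2 : ∀ C, PE (edges G L) (fun _ => p) (F C) ≤ ind (y ∈ C ∧ y' ∈ C) * (p ^ Q.card * T) := by
    intro C
    simp only [F]
    rw [PE_mul_left]
    by_cases hC : y ∈ C ∧ y' ∈ C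
    swap
    · rw [ind_neg hC, zero_mul, zero_mul]
    refine mul_le_mul_of_nonneg_left ?_ (ind_nonneg _)
    rw [PE_mul_of_dep (U := touch C) ((dep_sub Q).mono fun e he => ?_)
      (dep_and (dep_conn_sdiff G L C x z) (dep_conn_sdiff G L C x z')), PE_all_open hQ,
      Finset.prod_const]
    · refine mul_le_mul_of_nonneg_left ((h2 V G _ hπ _ _ _ x z z').trans ?_) (pow_nonneg p0 _)
      refine le_trans (Finset.sum_le_sum fun v _ => ?_) (Finset.sum_le_sum_of_subset_of_nonneg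
        (Finset.sdiff_subset (s := L) (t := C)) fun _ _ _ =>
          mul_nonneg (mul_nonneg (tau_nonneg hπ) (tau_nonneg hπ)) (tau_nonneg hπ))
      have m : ∀ a b, tau G (fun _ => p) (L \ C) a b ≤ tau G (fun _ => p) L b a := fun a b => by
        rw [tau_comm]; exact tau_mono_dom hπ Finset.sdiff_subset
      have n : ∀ D a b, 0 ≤ tau G (fun _ => p) D a b := fun _ _ _ => tau_nonneg hπ
      calc _ ≤ tau G (fun _ => p) L v x * tau G (fun _ => p) L z v * tau G (fun _ => p) L z' v :=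
            mul_le_mul (mul_le_mul (m _ _) (m _ _) (n _ _ _) (n _ _ _)) (m _ _) (n _ _ _)
              (mul_nonneg (n _ _ _) (n _ _ _))
        _ = _ := by ring
    · rcases hQy e he with h | h
      exacts [⟨y, hC.1, h⟩, ⟨y', hC.2, h⟩]
  rw [a1]
  refine (PE_mono hπ fun ω => a2 _).trans ?_
  rw [PE_mul_right]
  simp only [mem_cl, ← Finset.mul_sum]
  rw [← Finset.sum_mul, mul_left_comm]
  exact mul_le_mul_of_nonneg_left (mul_le_mul_of_nonneg_right (h2 V G _ hπ _ S S o y y') T0)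
    (pow_nonneg p0 _)

/-- reversed Simon-Lieb inequality: bridges `B i` of `k` edges from `y i` to `z i`, whose parts
`Q i` of `m` edges at `y i` are pairwise disjoint -/
theorem slg (h1 : St_PL1) (h2 : St_PL2) (p0 : 0 ≤ p) (p1 : p ≤ 1) (hSL : S ⊆ L)
    {ι : Type} [DecidableEq ι] (I : Finset ι) (y z : ι → V) (B Q : ι → Finset (Sym2 V)) (k m : ℕ)
    {θ : ℝ} (t0 : 0 ≤ θ) (t1 : θ ≤ 1)
    (hB : ∀ i ∈ I, B i ⊆ edges G L ∧ Disjoint (B i) (edges G S) ∧ (B i).card = k ∧
      conn G L (B i) (y i) (z i))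
    (hQ : ∀ i ∈ I, Q i ⊆ B i ∧ (Q i).card = m ∧ ∀ e ∈ Q i, y i ∈ e)
    (hd : ∀ i ∈ I, ∀ j ∈ I, i ≠ j → Disjoint (Q i) (Q j)) :
    tau G (fun _ => p) S o x +
        θ * p ^ k * ∑ i ∈ I, tau G (fun _ => p) S o (y i) * tau G (fun _ => p) L (z i) x ≤
      tau G (fun _ => p) L o x +
        θ * p ^ k * ∑ i ∈ I, ∑ u ∈ S, ∑ v ∈ S, tau G (fun _ => p) S o u *
          tau G (fun _ => p) S u (y i) * tau G (fun _ => p) S u v *
            (tau G (fun _ => p) L (z i) v * tau G (fun _ => p) L v x) +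
        θ ^ 2 * p ^ (2 * m) * ∑ i ∈ I, ∑ j ∈ I.erase i, ∑ u ∈ S, ∑ v ∈ L,
          tau G (fun _ => p) S o u * tau G (fun _ => p) S u (y i) * tau G (fun _ => p) S u (y j) *
            (tau G (fun _ => p) L (z i) v * tau G (fun _ => p) L (z j) v *
              tau G (fun _ => p) L v x) := by
  have hπ : Prob (fun _ : Sym2 V => p) := Prob.const p0 p1
  let A : ι → Finset (Sym2 V) → Prop := fun i ω =>
    conn G S ω o (y i) ∧ B i ⊆ ω ∧ conn G (L \ cl G S ω o) ω (z i) x
  have a1 : ∀ ω, ind (conn G S ω o x) + θ * ∑ i ∈ I, ind (A i ω) ≤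
      ind (conn G L ω o x) + θ ^ 2 * ∑ i ∈ I, ∑ j ∈ I.erase i, ind (A i ω ∧ A j ω) := by
    intro ω
    have b1 := bonf I (fun i => A i ω) t0 t1
    have b2 : ind (conn G S ω o x) + ind (∃ i ∈ I, A i ω) ≤ ind (conn G L ω o x) := by
      by_cases h : ∃ i ∈ I, A i ω
      · rw [ind_pos h]
        obtain ⟨i, hi, c1, c2, c3⟩ := h
        rw [ind_neg fun h => (Finset.mem_sdiff.1 c3.right).2 (mem_cl.2 h), zero_add,
          ind_pos (((c1.mono hSL subset_rfl).trans ((hB i hi).2.2.2.mono subset_rfl c2)).trans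
            (c3.mono Finset.sdiff_subset subset_rfl))]
      · rw [ind_neg h, add_zero]
        exact ind_mono fun h => h.mono hSL subset_rfl
    linarith
  have a2 := PE_mono (E := edges G L) hπ a1
  rw [PE_add, PE_add, PE_mul_left, PE_mul_left, PE_sum, PE_sum, PE_conn (edges_mono hSL),
    PE_conn subset_rfl] at a2
  have a3 := Finset.sum_le_sum fun i hi => (hB i hi).2.2.1 ▸
    first (o := o) (x := x) (y := y i) (z := z i) h1 h2 p0 p1 hSL (hB i hi).1 (hB i hi).2.1
  rw [Finset.sum_add_distrib, ← Finset.mul_sum, ← Finset.mul_sum] at a3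
  have a4 : ∑ i ∈ I, PE (edges G L) (fun _ => p) (fun ω => ∑ j ∈ I.erase i, ind (A i ω ∧ A j ω)) ≤
      p ^ (2 * m) * ∑ i ∈ I, ∑ j ∈ I.erase i, ∑ u ∈ S, ∑ v ∈ L,
        tau G (fun _ => p) S o u * tau G (fun _ => p) S u (y i) * tau G (fun _ => p) S u (y j) *
          (tau G (fun _ => p) L (z i) v * tau G (fun _ => p) L (z j) v *
            tau G (fun _ => p) L v x) := by
    rw [Finset.mul_sum]
    refine Finset.sum_le_sum fun i hi => ?_
    rw [PE_sum, Finset.mul_sum]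
    refine Finset.sum_le_sum fun j hj => ?_
    obtain ⟨hji, hj⟩ := Finset.mem_erase.1 hj
    have c : (Q i ∪ Q j).card = 2 * m := by
      rw [Finset.card_union_of_disjoint (hd i hi j hj hji.symm), (hQ i hi).2.1, (hQ j hj).2.1,
        two_mul]
    rw [← c]
    refine le_trans (PE_mono hπ fun ω => ind_mono ?_) (pair h2 p0 p1
      (Finset.union_subset ((hQ i hi).1.trans (hB i hi).1) ((hQ j hj).1.trans (hB j hj).1))
      (Finset.disjoint_union_left.2 ⟨(hB i hi).2.1.mono_left (hQ i hi).1,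
        (hB j hj).2.1.mono_left (hQ j hj).1⟩) fun e he => (Finset.mem_union.1 he).imp
          ((hQ i hi).2.2 e) ((hQ j hj).2.2 e))
    rintro ⟨⟨c1, c2, c3⟩, d1, d2, d3⟩
    exact ⟨⟨c1, d1⟩, Finset.union_subset ((hQ i hi).1.trans c2) ((hQ j hj).1.trans d2),
      c3.symm, d3.symm⟩
  have a5 := mul_le_mul_of_nonneg_left a3 t0
  have a6 := mul_le_mul_of_nonneg_left a4 (sq_nonneg θ)
  simp only [A] at a2 a6
  linarith

end Pool.Agent.HD.SLG
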