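import Pool.Agent.Lib.MP_81a99a_pr.Torus

/-! Two-point functions on finite graphs, on the torus and on the lattice. -/

open Finset Classical MeasureTheory ProbabilityTheory

namespace Pool.Agent.HD

open Pool.Agent.Lib.MP_81a99a_pr

/-- two-point function of bond percolation on a finite graph -/
noncomputable def tau {V : Type} [Fintype V] (G : SimpleGraph V) (p : ℝ) (x y : V) : ℝ :=
  Ex p fun ω => ind (y ∈ cl G ω {x})

/-- the edges of `G` with both ends in `S` -/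
def res {V : Type} (G : SimpleGraph V) (S : Finset V) : SimpleGraph V where
  Adj a b := G.Adj a b ∧ a ∈ S ∧ b ∈ S
  symm := ⟨fun _ _ h => ⟨h.1.symm, h.2.2, h.2.1⟩⟩
  loopless := ⟨fun _ h => h.1.ne rfl⟩

/-- vertices of the torus -/
abbrev T (d M : ℕ) : Type := Fin d → ZMod M

/-- two-point function of the torus -/
noncomputable def tauT (d M : ℕ) [NeZero M] (p : ℝ) (x : T d M) : ℝ := tau (torus d M) p 0 x

/-- susceptibility of the torus -/
noncomputable def chiT (d M : ℕ) [NeZero M] (p : ℝ) : ℝ := ∑ x, tauT d M p x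

/-- sup distance to the origin on the torus -/
def rad {d M : ℕ} (x : T d M) : ℕ := Finset.univ.sup fun i => (x i).valMinAbs.natAbs

/-- the finite volume two-point bounds -/
def TorusBound (d : ℕ) : Prop :=
  ∃ c C K : ℝ, 0 < c ∧ ∀ (M : ℕ) [NeZero M], Odd M → 3 ≤ M → ∀ p : ℝ, 0 ≤ p → p ≤ 1 →
    chiT d M p ≤ (M : ℝ) ^ 2 → d * p ≤ 1 ∧ (K ≤ chiT d M p → ∀ x : T d M, x ≠ 0 →
      tauT d M p x * (rad x : ℝ) ^ (d - 2) ≤ C ∧
      (K * (rad x : ℝ) ^ 2 ≤ chiT d M p →
        c - C / (rad x : ℝ) ≤ tauT d M p x * (rad x : ℝ) ^ (d - 2)))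

/-- two-point function on `ℤ^d` -/
noncomputable def tauZ (d : ℕ) (p : unitInterval) (x : Fin d → ℤ) : ℝ :=
  (setBernoulli (lattice d).edgeSet p).real {ω | x ∈ cluster ω 0}

/-- the critical two-point function on `ℤ^d` is of order `|x|^(2-d)` (sup norm) -/
def HighDim (d : ℕ) : Prop :=
  ∃ c C : ℝ, 0 < c ∧ ∀ x : Fin d → ℤ, x ≠ 0 →
    c ≤ tauZ d (pc d) x * ‖x‖ ^ (d - 2) ∧ tauZ d (pc d) x * ‖x‖ ^ (d - 2) ≤ C

/-- the bridge from the torus to the lattice -/
def StBridge : Prop := ∀ d : ℕ, 3 ≤ d → TorusBound d → HighDim d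

end Pool.Agent.HD
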